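import Mathlib

/-!
# Primitives on polyominoes (for Q1_M4)

`Omega Q x y` = interior of the union of the closed grid rectangles with index in `Q`.
If every closed 1-form on the cells of `Q` is exact (`DiscreteExact Q`), every holomorphic
function on `Omega Q x y` has a primitive.
-/

open Complex Metric Set Topology MeasureTheory Filter
open scoped Interval

noncomputable section

namespace H33.Q1

/-- The closed grid rectangle with index `s`. -/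
def cell (x y : ℤ → ℝ) (s : ℤ × ℤ) : Set ℂ :=
  Icc (x s.1) (x (s.1 + 1)) ×ℂ Icc (y s.2) (y (s.2 + 1))

/-- The open polyomino domain. -/
def Omega (Q : Finset (ℤ × ℤ)) (x y : ℤ → ℝ) : Set ℂ :=
  interior (⋃ s ∈ Q, cell x y s)

/-- Every closed 1-form on the cells of `Q` is exact. -/
def DiscreteExact (Q : Finset (ℤ × ℤ)) : Prop :=
  ∀ α β : ℤ → ℤ → ℂ,
    (∀ i k, (i, k) ∈ Q → (i + 1, k) ∈ Q → (i, k + 1) ∈ Q → (i + 1, k + 1) ∈ Q →
      α i k + β (i + 1) k = β i k + α i (k + 1)) →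
    ∃ φ : ℤ → ℤ → ℂ,
      (∀ i k, (i, k) ∈ Q → (i + 1, k) ∈ Q → φ (i + 1) k - φ i k = α i k) ∧
      (∀ i k, (i, k) ∈ Q → (i, k + 1) ∈ Q → φ i (k + 1) - φ i k = β i k)

theorem idx_unique {x : ℤ → ℝ} (hx : StrictMono x) {i j : ℤ} {t : ℝ}
    (h1 : x i < t) (h2 : t < x (i + 1)) (h3 : x j ≤ t) (h4 : t ≤ x (j + 1)) : i = j := by
  have a1 : i < j + 1 := hx.lt_iff_lt.1 (lt_of_lt_of_le h1 h4)
  have a2 : j < i + 1 := hx.lt_iff_lt.1 (lt_of_le_of_lt h3 h2)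
  omega

theorem idx_unique' {x : ℤ → ℝ} (hx : StrictMono x) {i j : ℤ} {t : ℝ}
    (h1 : x i ≤ t) (h2 : t < x (i + 1)) (h3 : x j ≤ t) (h4 : t < x (j + 1)) : i = j := by
  have a1 : i < j + 1 := hx.lt_iff_lt.1 (lt_of_le_of_lt h1 h4)
  have a2 : j < i + 1 := hx.lt_iff_lt.1 (lt_of_le_of_lt h3 h2)
  omega

/-- For a real number between two grid values: the cells on the two sides. -/
theorem idx_sides {x : ℤ → ℝ} (hx : StrictMono x) {i₀ : ℤ} {t : ℝ}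
    (h1 : x i₀ ≤ t) (h2 : t ≤ x (i₀ + 1)) :
    ∃ i i' : ℤ, (i' = i ∨ i' = i + 1) ∧ x i < t ∧ t < x (i' + 1) ∧ t ≤ x (i + 1) ∧ x i' ≤ t := by
  rcases h1.lt_or_eq with h3 | h3
  · rcases h2.lt_or_eq with h4 | h4
    · exact ⟨i₀, i₀, Or.inl rfl, h3, h4, h2, h1⟩
    · refine ⟨i₀, i₀ + 1, Or.inr rfl, h3, ?_, h2, h4.ge⟩
      rw [h4]
      exact hx (by omega)
  · refine ⟨i₀ - 1, i₀, Or.inr (by omega), ?_, ?_, ?_, h3.le⟩
    · rw [← h3]
      exact hx (by omega)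
    · rw [← h3]
      exact hx (by omega)
    · rw [sub_add_cancel]
      exact h3.ge

/-- Local structure of the domain: each point has a rectangular neighbourhood made of one, two or
four cells. -/
theorem exists_piece {Q : Finset (ℤ × ℤ)} {x y : ℤ → ℝ} (hx : StrictMono x) (hy : StrictMono y)
    {z : ℂ} (hz : z ∈ Omega Q x y) :
    ∃ i i' k k' : ℤ, (i' = i ∨ i' = i + 1) ∧ (k' = k ∨ k' = k + 1) ∧
      z ∈ Ioo (x i) (x (i' + 1)) ×ℂ Ioo (y k) (y (k' + 1)) ∧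
      (i, k) ∈ Q ∧ (i', k) ∈ Q ∧ (i, k') ∈ Q ∧ (i', k') ∈ Q := by
  have hz1 : z ∈ ⋃ s ∈ Q, cell x y s := interior_subset hz
  simp only [mem_iUnion, exists_prop, cell] at hz1
  obtain ⟨s, hs, hs1, hs2⟩ := hz1
  obtain ⟨i, i', hi, a1, a2, a3, a4⟩ := idx_sides hx hs1.1 hs1.2
  obtain ⟨k, k', hk, b1, b2, b3, b4⟩ := idx_sides hy hs2.1 hs2.2
  -- a point of the open cell near `z` belongs to the union
  obtain ⟨ε, hε, hball⟩ := Metric.isOpen_iff.1 isOpen_interior z hz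
  have key : ∀ (p q : ℤ) (s₁ s₂ : ℝ), (s₁ = 1 ∨ s₁ = -1) → (s₂ = 1 ∨ s₂ = -1) →
      (∀ᶠ δ : ℝ in 𝓝[>] 0, x p < z.re + s₁ * δ ∧ z.re + s₁ * δ < x (p + 1)) →
      (∀ᶠ δ : ℝ in 𝓝[>] 0, y q < z.im + s₂ * δ ∧ z.im + s₂ * δ < y (q + 1)) → (p, q) ∈ Q := by
    intro p q s₁ s₂ h1 h2 h3 h4
    have h5 : Tendsto (fun δ : ℝ => (⟨z.re + s₁ * δ, z.im + s₂ * δ⟩ : ℂ)) (𝓝[>] 0) (𝓝 z) := by
      have : Tendsto (fun δ : ℝ => (⟨z.re + s₁ * δ, z.im + s₂ * δ⟩ : ℂ)) (𝓝 0)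
          (𝓝 (⟨z.re + s₁ * 0, z.im + s₂ * 0⟩ : ℂ)) := by
        apply Continuous.tendsto (f := fun δ : ℝ => (⟨z.re + s₁ * δ, z.im + s₂ * δ⟩ : ℂ))
        have : (fun δ : ℝ => (⟨z.re + s₁ * δ, z.im + s₂ * δ⟩ : ℂ)) =
            fun δ : ℝ => ((z.re + s₁ * δ : ℝ) : ℂ) + ((z.im + s₂ * δ : ℝ) : ℂ) * I := by
          funext δ
          apply Complex.ext <;> simp
        rw [this]
        fun_prop
      simp only [mul_zero, add_zero] at this
      exact this.mono_left nhdsWithin_le_nhds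
    have h6 : ∀ᶠ δ : ℝ in 𝓝[>] 0, (⟨z.re + s₁ * δ, z.im + s₂ * δ⟩ : ℂ) ∈ ball z ε :=
      h5.eventually (isOpen_ball.mem_nhds (mem_ball_self hε))
    obtain ⟨δ, h7, h8, h9⟩ := (h3.and (h4.and h6)).exists
    have h10 : (⟨z.re + s₁ * δ, z.im + s₂ * δ⟩ : ℂ) ∈ ⋃ s ∈ Q, cell x y s :=
      interior_subset (hball h9)
    simp only [mem_iUnion, exists_prop, cell] at h10
    obtain ⟨⟨p', q'⟩, hs', c1, c2⟩ := h10
    have e1 : p = p' := idx_unique hx h7.1 h7.2 c1.1 c1.2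
    have e2 : q = q' := idx_unique hy h8.1 h8.2 c2.1 c2.2
    rw [e1, e2]
    exact hs'
  -- eventual facts
  have ev : ∀ (f : ℤ → ℝ) (t : ℝ) (i i' : ℤ), f i < t → t < f (i' + 1) → t ≤ f (i + 1) →
      f i' ≤ t →
      (∀ᶠ δ : ℝ in 𝓝[>] 0, f i < t + (-1) * δ ∧ t + (-1) * δ < f (i + 1)) ∧
      (∀ᶠ δ : ℝ in 𝓝[>] 0, f i' < t + 1 * δ ∧ t + 1 * δ < f (i' + 1)) := by
    intro f t i i' h1 h2 h3 h4
    constructor
    · filter_upwards [Ioo_mem_nhdsGT (sub_pos.2 h1)] with δ hδ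
      constructor <;> linarith [hδ.1, hδ.2]
    · filter_upwards [Ioo_mem_nhdsGT (sub_pos.2 h2)] with δ hδ
      constructor <;> linarith [hδ.1, hδ.2]
  obtain ⟨ex1, ex2⟩ := ev x z.re i i' a1 a2 a3 a4
  obtain ⟨ey1, ey2⟩ := ev y z.im k k' b1 b2 b3 b4
  exact ⟨i, i', k, k', hi, hk, ⟨⟨a1, a2⟩, ⟨b1, b2⟩⟩,
    key i k (-1) (-1) (Or.inr rfl) (Or.inr rfl) ex1 ey1,
    key i' k 1 (-1) (Or.inl rfl) (Or.inr rfl) ex2 ey1,
    key i k' (-1) 1 (Or.inr rfl) (Or.inl rfl) ex1 ey2,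
    key i' k' 1 1 (Or.inl rfl) (Or.inl rfl) ex2 ey2⟩

theorem piece_idx {x : ℤ → ℝ} {i i' : ℤ} (hi : i' = i ∨ i' = i + 1) {t : ℝ}
    (h : t ∈ Ioo (x i) (x (i' + 1))) :
    ∃ j : ℤ, (j = i ∨ j = i') ∧ x j ≤ t ∧ t < x (j + 1) := by
  rcases hi with rfl | rfl
  · exact ⟨i', Or.inl rfl, h.1.le, h.2⟩
  · rcases lt_or_ge t (x (i + 1)) with h1 | h1
    · exact ⟨i, Or.inl rfl, h.1.le, h1⟩
    · exact ⟨i + 1, Or.inr rfl, h1, h.2⟩

theorem piece_subset {Q : Finset (ℤ × ℤ)} {x y : ℤ → ℝ} {i i' k k' : ℤ}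
    (hi : i' = i ∨ i' = i + 1) (hk : k' = k ∨ k' = k + 1)
    (h1 : (i, k) ∈ Q) (h2 : (i', k) ∈ Q) (h3 : (i, k') ∈ Q) (h4 : (i', k') ∈ Q) :
    Ioo (x i) (x (i' + 1)) ×ℂ Ioo (y k) (y (k' + 1)) ⊆ Omega Q x y := by
  refine interior_maximal ?_ (isOpen_Ioo.reProdIm isOpen_Ioo)
  intro w hw
  obtain ⟨j, hj, c1, c2⟩ := piece_idx hi hw.1
  obtain ⟨l, hl, d1, d2⟩ := piece_idx hk hw.2
  simp only [mem_iUnion, exists_prop, cell]
  refine ⟨(j, l), ?_, ⟨c1, c2.le⟩, ⟨d1, d2.le⟩⟩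
  rcases hj with rfl | rfl <;> rcases hl with rfl | rfl <;> assumption

theorem convex_rect (a b c d : ℝ) : Convex ℝ (Ioo a b ×ℂ Ioo c d) := by
  have h1 : Convex ℝ {z : ℂ | z.re ∈ Ioo a b} :=
    (convex_Ioo a b).linear_preimage Complex.reLm
  have h2 : Convex ℝ {z : ℂ | z.im ∈ Ioo c d} :=
    (convex_Ioo c d).linear_preimage Complex.imLm
  exact h1.inter h2

/-- The line integral of `f` along the segment `[p, q]`. -/
def J (f : ℂ → ℂ) (p q : ℂ) : ℂ := ∫ t in (0 : ℝ)..1, f (p + t * (q - p)) * (q - p)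

theorem J_eq {f g : ℂ → ℂ} {R : Set ℂ} (hR : Convex ℝ R) (hf : ContinuousOn f R)
    (hg : ∀ w ∈ R, HasDerivAt g (f w) w) {p q : ℂ} (hp : p ∈ R) (hq : q ∈ R) :
    J f p q = g q - g p := by
  have hmem : ∀ t ∈ [[(0 : ℝ), 1]], p + t * (q - p) ∈ R := by
    intro t ht
    rw [uIcc_of_le zero_le_one] at ht
    have := hR.add_smul_sub_mem hp hq ht
    simpa using this
  have h1 : ∀ t ∈ [[(0 : ℝ), 1]],
      HasDerivAt (fun t : ℝ => g (p + t * (q - p))) (f (p + t * (q - p)) * (q - p)) t := by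
    intro t ht
    have h2 : HasDerivAt (fun t : ℝ => p + (t : ℂ) * (q - p)) (q - p) t := by
      have := ((Complex.ofRealCLM.hasDerivAt (x := t)).mul_const (q - p)).const_add p
      simpa using this
    exact (hg _ (hmem t ht)).comp t h2
  have h3 : IntervalIntegrable (fun t : ℝ => f (p + t * (q - p)) * (q - p)) volume 0 1 := by
    apply ContinuousOn.intervalIntegrable
    exact (hf.comp (by fun_prop) hmem).mul continuousOn_const
  have h4 := intervalIntegral.integral_eq_sub_of_hasDerivAt h1 h3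
  rw [J, h4]
  simp

/-- **Primitives on polyominoes.** -/
theorem exists_primitive {Q : Finset (ℤ × ℤ)} {x y : ℤ → ℝ} (hx : StrictMono x)
    (hy : StrictMono y) (hQ : DiscreteExact Q) {f : ℂ → ℂ}
    (hf : DifferentiableOn ℂ f (Omega Q x y)) :
    ∃ Φ : ℂ → ℂ, ∀ z ∈ Omega Q x y, HasDerivAt Φ (f z) z := by
  classical
  -- centres of the cells
  set m : ℤ → ℤ → ℂ := fun i k => ⟨(x i + x (i + 1)) / 2, (y k + y (k + 1)) / 2⟩ with hm
  have hmid : ∀ (f : ℤ → ℝ), StrictMono f → ∀ i : ℤ, f i < (f i + f (i + 1)) / 2 ∧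
      (f i + f (i + 1)) / 2 < f (i + 1) := by
    intro f hf i
    have := hf (show i < i + 1 by omega)
    constructor <;> linarith
  have hmem : ∀ {i i' k k' j l : ℤ}, (i' = i ∨ i' = i + 1) → (k' = k ∨ k' = k + 1) →
      (j = i ∨ j = i') → (l = k ∨ l = k') →
      m j l ∈ Ioo (x i) (x (i' + 1)) ×ℂ Ioo (y k) (y (k' + 1)) := by
    intro i i' k k' j l hi hk hj hl
    have h1 : i ≤ j ∧ j ≤ i' := by omega
    have h2 : k ≤ l ∧ l ≤ k' := by omega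
    refine ⟨⟨?_, ?_⟩, ⟨?_, ?_⟩⟩
    · exact lt_of_le_of_lt (hx.monotone h1.1) (hmid x hx j).1
    · exact lt_of_lt_of_le (hmid x hx j).2 (hx.monotone (by omega))
    · exact lt_of_le_of_lt (hy.monotone h2.1) (hmid y hy l).1
    · exact lt_of_lt_of_le (hmid y hy l).2 (hy.monotone (by omega))
  -- primitives on pieces
  have hprim : ∀ {i i' k k' : ℤ}, (i' = i ∨ i' = i + 1) → (k' = k ∨ k' = k + 1) →
      (i, k) ∈ Q → (i', k) ∈ Q → (i, k') ∈ Q → (i', k') ∈ Q →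
      ∃ g : ℂ → ℂ, ∀ w ∈ Ioo (x i) (x (i' + 1)) ×ℂ Ioo (y k) (y (k' + 1)),
        HasDerivAt g (f w) w := by
    intro i i' k k' hi hk h1 h2 h3 h4
    have hsub := piece_subset (x := x) (y := y) hi hk h1 h2 h3 h4
    have hconv : Convex ℝ (Ioo (x i) (x (i' + 1)) ×ℂ Ioo (y k) (y (k' + 1))) :=
      convex_rect _ _ _ _
    obtain ⟨g, hg⟩ := hconv.exists_forall_hasDerivWithinAt (hf.mono hsub)
    exact ⟨g, fun w hw => (hg w hw).hasDerivAt ((isOpen_Ioo.reProdIm isOpen_Ioo).mem_nhds hw)⟩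
  have hJ : ∀ {i i' k k' : ℤ} (hi : i' = i ∨ i' = i + 1) (hk : k' = k ∨ k' = k + 1)
      (h1 : (i, k) ∈ Q) (h2 : (i', k) ∈ Q) (h3 : (i, k') ∈ Q) (h4 : (i', k') ∈ Q)
      {g : ℂ → ℂ} (hg : ∀ w ∈ Ioo (x i) (x (i' + 1)) ×ℂ Ioo (y k) (y (k' + 1)),
        HasDerivAt g (f w) w) {p q : ℂ}
      (hp : p ∈ Ioo (x i) (x (i' + 1)) ×ℂ Ioo (y k) (y (k' + 1)))
      (hq : q ∈ Ioo (x i) (x (i' + 1)) ×ℂ Ioo (y k) (y (k' + 1))), J f p q = g q - g p := by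
    intro i i' k k' hi hk h1 h2 h3 h4 g hg p q hp hq
    exact J_eq (convex_rect _ _ _ _)
      (hf.continuousOn.mono (piece_subset hi hk h1 h2 h3 h4)) hg hp hq
  obtain ⟨φ, hφ1, hφ2⟩ := hQ (fun i k => J f (m i k) (m (i + 1) k))
    (fun i k => J f (m i k) (m i (k + 1))) (by
      intro i k h1 h2 h3 h4
      obtain ⟨g, hg⟩ := hprim (i := i) (i' := i + 1) (k := k) (k' := k + 1) (Or.inr rfl)
        (Or.inr rfl) h1 h2 h3 h4
      have e1 := hJ (Or.inr rfl) (Or.inr rfl) h1 h2 h3 h4 hg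
        (hmem (Or.inr rfl) (Or.inr rfl) (Or.inl rfl) (Or.inl rfl))
        (hmem (Or.inr rfl) (Or.inr rfl) (Or.inr rfl) (Or.inl rfl))
      have e2 := hJ (Or.inr rfl) (Or.inr rfl) h1 h2 h3 h4 hg
        (hmem (Or.inr rfl) (Or.inr rfl) (Or.inr rfl) (Or.inl rfl))
        (hmem (Or.inr rfl) (Or.inr rfl) (Or.inr rfl) (Or.inr rfl))
      have e3 := hJ (Or.inr rfl) (Or.inr rfl) h1 h2 h3 h4 hg
        (hmem (Or.inr rfl) (Or.inr rfl) (Or.inl rfl) (Or.inl rfl))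
        (hmem (Or.inr rfl) (Or.inr rfl) (Or.inl rfl) (Or.inr rfl))
      have e4 := hJ (Or.inr rfl) (Or.inr rfl) h1 h2 h3 h4 hg
        (hmem (Or.inr rfl) (Or.inr rfl) (Or.inl rfl) (Or.inr rfl))
        (hmem (Or.inr rfl) (Or.inr rfl) (Or.inr rfl) (Or.inr rfl))
      simp only [e1, e2, e3, e4]
      ring)
  -- the index function
  set Ix : ℝ → ℤ := fun t => if h : ∃ i : ℤ, x i ≤ t ∧ t < x (i + 1) then h.choose else 0 with hIx
  set Iy : ℝ → ℤ := fun t => if h : ∃ i : ℤ, y i ≤ t ∧ t < y (i + 1) then h.choose else 0 with hIy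
  have hIx1 : ∀ {i : ℤ} {t : ℝ}, x i ≤ t → t < x (i + 1) → Ix t = i := by
    intro i t h1 h2
    have h : ∃ i : ℤ, x i ≤ t ∧ t < x (i + 1) := ⟨i, h1, h2⟩
    simp only [hIx, dif_pos h]
    exact idx_unique' hx h.choose_spec.1 h.choose_spec.2 h1 h2
  have hIy1 : ∀ {i : ℤ} {t : ℝ}, y i ≤ t → t < y (i + 1) → Iy t = i := by
    intro i t h1 h2
    have h : ∃ i : ℤ, y i ≤ t ∧ t < y (i + 1) := ⟨i, h1, h2⟩
    simp only [hIy, dif_pos h]
    exact idx_unique' hy h.choose_spec.1 h.choose_spec.2 h1 h2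
  refine ⟨fun z => J f (m (Ix z.re) (Iy z.im)) z + φ (Ix z.re) (Iy z.im), ?_⟩
  intro z hz
  obtain ⟨i, i', k, k', hi, hk, hzp, h1, h2, h3, h4⟩ := exists_piece hx hy hz
  obtain ⟨g, hg⟩ := hprim hi hk h1 h2 h3 h4
  -- the constant
  have hc : ∀ j l : ℤ, (j = i ∨ j = i') → (l = k ∨ l = k') →
      φ j l - g (m j l) = φ i k - g (m i k) := by
    have hrow : ∀ l : ℤ, (l = k ∨ l = k') → φ i' l - g (m i' l) = φ i l - g (m i l) := by
      intro l hl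
      rcases hi with rfl | rfl
      · rfl
      · have q1 : (i, l) ∈ Q := by rcases hl with rfl | rfl <;> assumption
        have q2 : (i + 1, l) ∈ Q := by rcases hl with rfl | rfl <;> assumption
        have e1 := hφ1 i l q1 q2
        have e2 := hJ (Or.inr rfl) hk h1 h2 h3 h4 hg
          (hmem (Or.inr rfl) hk (Or.inl rfl) hl) (hmem (Or.inr rfl) hk (Or.inr rfl) hl)
        simp only [e2] at e1
        linear_combination e1
    have hcol : φ i k' - g (m i k') = φ i k - g (m i k) := by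
      rcases hk with rfl | rfl
      · rfl
      · have e1 := hφ2 i k h1 h3
        have e2 := hJ hi (Or.inr rfl) h1 h2 h3 h4 hg
          (hmem hi (Or.inr rfl) (Or.inl rfl) (Or.inl rfl))
          (hmem hi (Or.inr rfl) (Or.inl rfl) (Or.inr rfl))
        simp only [e2] at e1
        linear_combination e1
    intro j l hj hl
    rcases hj with rfl | rfl
    · rcases hl with rfl | rfl
      · rfl
      · exact hcol
    · rw [hrow l hl]
      rcases hl with rfl | rfl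
      · rfl
      · exact hcol
  have hev : (fun z : ℂ => J f (m (Ix z.re) (Iy z.im)) z + φ (Ix z.re) (Iy z.im)) =ᶠ[𝓝 z]
      fun w => g w + (φ i k - g (m i k)) := by
    filter_upwards [(isOpen_Ioo.reProdIm isOpen_Ioo).mem_nhds hzp] with w hw
    obtain ⟨j, hj, c1, c2⟩ := piece_idx hi hw.1
    obtain ⟨l, hl, d1, d2⟩ := piece_idx hk hw.2
    rw [hIx1 c1 c2, hIy1 d1 d2, hJ hi hk h1 h2 h3 h4 hg (hmem hi hk hj hl) hw]
    have := hc j l hj hl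
    linear_combination this
  exact ((hg z hzp).add_const _).congr_of_eventuallyEq hev

end H33.Q1
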