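import Mathlib
import Pool.Agent.Q1.M6c.Dob
import Pool.Agent.Q1.M4.Dob
import Pool.Agent.Q1.M4.Walk

set_option autoImplicit false
open Finset

/-! # The tile frame and the tile polygons

Tile `(x, y)` (the unit square with lower left corner `(x, y)` in the grid of vertices and faces) is the
label `lt (x, y)`; `tt` is the inverse. `TL Q n` : labels of the tiles of the cells of `Q`, scaled by `n`;
`LY n s` : the labels of the outer layer along the side `s`; `TW P n` : the layer along the upper arc. -/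

namespace Pool.Agent.H33.Q1

open Pool.Agent.H75.Perc hiding WL CT hh
open Pool.Agent.H75.TwoArm Pool.Agent.H75.Four Pool.Agent.H69.Q1 Pool.Agent.Q1
open Pool.Agent.H5.Q1 (oc vx_oc ty_oc fi_oc oc_congr)
open Pool.Agent.Q1.M4 (Cell Good IsSide nextSide tail head PType Adj4 Conn4)

/-- tile to label -/
def lt (p : ℤ × ℤ) : ℤ × ℤ := (p.1 - p.2, p.1 + p.2 + 1)

/-- label to tile -/
def tt (e : ℤ × ℤ) : ℤ × ℤ := ((e.1 + e.2 - 1) / 2, (e.2 - e.1 - 1) / 2)

lemma lt_odd (p : ℤ × ℤ) : ((lt p).1 + (lt p).2) % 2 = 1 := by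
  unfold lt; simp only; omega

@[simp] lemma tt_lt (p : ℤ × ℤ) : tt (lt p) = p := by
  unfold lt tt
  refine Prod.ext ?_ ?_ <;> simp only <;> omega

lemma lt_tt {e : ℤ × ℤ} (he : (e.1 + e.2) % 2 = 1) : lt (tt e) = e := by
  unfold lt tt
  refine Prod.ext ?_ ?_ <;> simp only <;> omega

lemma lt_inj {p q : ℤ × ℤ} (h : lt p = lt q) : p = q := by
  rw [← tt_lt p, h, tt_lt]

/-- the cell of a tile at scale `n` -/
def ct (n : ℤ) (p : ℤ × ℤ) : Cell := (p.1 / n, p.2 / n)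

/-- labels of the tiles of the cells of `Q`, at scale `n` -/
noncomputable def TL (Q : Finset Cell) (n : ℤ) : Finset (ℤ × ℤ) :=
  Q.biUnion fun c => ((Ico (c.1 * n) (c.1 * n + n)) ×ˢ (Ico (c.2 * n) (c.2 * n + n))).image lt

lemma ct_eq {n : ℤ} (hn : 0 < n) {p : ℤ × ℤ} {c : Cell} : ct n p = c ↔
    (c.1 * n ≤ p.1 ∧ p.1 < c.1 * n + n) ∧ (c.2 * n ≤ p.2 ∧ p.2 < c.2 * n + n) := by
  unfold ct
  have key : ∀ a b : ℤ, a / n = b ↔ b * n ≤ a ∧ a < b * n + n := by
    intro a b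
    constructor
    · intro h
      have h1 := Int.ediv_mul_le a hn.ne'
      have h2 := Int.lt_ediv_add_one_mul_self a hn
      rw [h] at h1 h2
      constructor
      · exact h1
      · linarith
    · rintro ⟨h1, h2⟩
      exact le_antisymm (by
        have := Int.ediv_lt_of_lt_mul hn (show a < (b + 1) * n by linarith)
        omega) (Int.le_ediv_of_mul_le hn h1)
  rw [Prod.ext_iff]
  simp only [key]

lemma ct_of {n : ℤ} (hn : 0 < n) {p : ℤ × ℤ} {c : Cell} (h1 : c.1 * n ≤ p.1)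
    (h2 : p.1 < c.1 * n + n) (h3 : c.2 * n ≤ p.2) (h4 : p.2 < c.2 * n + n) : ct n p = c :=
  (ct_eq hn).2 ⟨⟨h1, h2⟩, h3, h4⟩

lemma mem_TL {Q : Finset Cell} {n : ℤ} (hn : 0 < n) {e : ℤ × ℤ} :
    e ∈ TL Q n ↔ (e.1 + e.2) % 2 = 1 ∧ ct n (tt e) ∈ Q := by
  unfold TL
  simp only [mem_biUnion, mem_image, mem_product, mem_Ico]
  constructor
  · rintro ⟨c, hc, p, hp, rfl⟩
    refine ⟨lt_odd p, ?_⟩
    rw [tt_lt, (ct_eq hn).2 hp]
    exact hc
  · rintro ⟨h1, h2⟩
    exact ⟨_, h2, tt e, (ct_eq hn).1 rfl, lt_tt h1⟩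

lemma lt_mem_TL {Q : Finset Cell} {n : ℤ} (hn : 0 < n) {p : ℤ × ℤ} :
    lt p ∈ TL Q n ↔ ct n p ∈ Q := by
  rw [mem_TL hn, tt_lt]
  exact ⟨fun h => h.2, fun h => ⟨lt_odd p, h⟩⟩

/-- the labels of the outer layer along the side `s` -/
noncomputable def LY (n : ℤ) (s : Cell × ℤ) : Finset (ℤ × ℤ) :=
  (TL {s.1 + dir (s.2 - 1)} n).filter fun e => ct n (tt e - dir (s.2 - 1)) = s.1

lemma mem_LY {n : ℤ} (hn : 0 < n) {s : Cell × ℤ} {e : ℤ × ℤ} : e ∈ LY n s ↔
    (e.1 + e.2) % 2 = 1 ∧ ct n (tt e) = s.1 + dir (s.2 - 1) ∧ ct n (tt e - dir (s.2 - 1)) = s.1 := by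
  unfold LY
  rw [mem_filter, mem_TL hn, mem_singleton]
  tauto

/-- the wired layer of a shape -/
noncomputable def TW (P : PType) (n : ℤ) : Finset (ℤ × ℤ) :=
  (Ico P.m P.N).biUnion fun i => LY n (P.side i)

lemma isSide_side' (P : PType) (i : ℕ) : IsSide P.Q (P.side i) :=
  M4.isSide_iter P.side0 i

lemma mem_TW {P : PType} {n : ℤ} {e : ℤ × ℤ} : e ∈ TW P n ↔
    ∃ i, (P.m ≤ i ∧ i < P.N) ∧ e ∈ LY n (P.side i) := by
  unfold TW
  simp only [mem_biUnion, mem_Ico]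

/-- a label of the layer is not a label of the domain, but one of its four neighbours is -/
lemma of_mem_TW {P : PType} {n : ℤ} (hn : 0 < n) {e : ℤ × ℤ} (he : e ∈ TW P n) :
    (e.1 + e.2) % 2 = 1 ∧ ct n (tt e) ∉ P.Q ∧ ∃ k, ct n (tt e - dir k) ∈ P.Q := by
  obtain ⟨i, -, h⟩ := mem_TW.1 he
  rw [mem_LY hn] at h
  obtain ⟨h1, h2, h3⟩ := h
  have hs := isSide_side' P i
  refine ⟨h1, by rw [h2]; exact hs.2, (P.side i).2 - 1, ?_⟩
  rw [h3]; exact hs.1

lemma disj_TL_TW {P : PType} {n : ℤ} (hn : 0 < n) : Disjoint (TL P.Q n) (TW P n) := by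
  rw [disjoint_left]
  intro e h1 h2
  exact (of_mem_TW hn h2).2.1 ((mem_TL hn).1 h1).2

/-- tiles away from the domain are closed -/
lemma notMem_of_far {P : PType} {n : ℤ} (hn : 0 < n) {p : ℤ × ℤ} (h0 : ct n p ∉ P.Q)
    (h : ∀ k, ct n (p - dir k) ∉ P.Q) : lt p ∉ TL P.Q n ∪ TW P n := by
  rw [mem_union, not_or]
  refine ⟨fun h1 => h0 ((lt_mem_TL hn).1 h1), fun h1 => ?_⟩
  obtain ⟨-, -, k, h2⟩ := of_mem_TW hn h1
  rw [tt_lt] at h2
  exact h k h2

/-! ### Faces in the tile frame -/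

/-- tile coordinates of a face -/
def tf (f : ℤ × ℤ) : ℤ × ℤ := (f.1 + f.2 - 1, f.2 - f.1)

/-- tile coordinates of a vertex -/
def tv (v : ℤ × ℤ) : ℤ × ℤ := (v.1 + v.2, v.2 - v.1)

section walk

variable {w : Finset (ℤ × ℤ)} {f : ℤ × ℤ}

lemma dco_up (h : lt (tf f) ∉ w) : DCo w f (f + (0, 1)) := by
  refine DCo.step (by unfold IsUnit4; simp) ?_
  convert h using 2
  unfold lt tf
  refine Prod.ext ?_ ?_ <;> simp <;> ring

lemma dco_right (h : lt (tf f - (0, 1)) ∉ w) : DCo w f (f + (1, 0)) := by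
  refine DCo.step (by unfold IsUnit4; simp) ?_
  convert h using 2
  unfold lt tf
  refine Prod.ext ?_ ?_ <;> simp <;> ring

lemma dco_down (h : lt (tf f - (1, 1)) ∉ w) : DCo w f (f - (0, 1)) := by
  refine DCo.step (by unfold IsUnit4; simp) ?_
  convert h using 2
  unfold lt tf
  refine Prod.ext ?_ ?_ <;> simp <;> ring

lemma dco_left (h : lt (tf f - (1, 0)) ∉ w) : DCo w f (f - (1, 0)) := by
  refine DCo.step (by unfold IsUnit4; simp) ?_
  convert h using 2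
  unfold lt tf
  refine Prod.ext ?_ ?_ <;> simp <;> ring

/-- walk in the direction `x` of the tile frame -/
lemma dco_moveX (k : ℕ) (h : ∀ i : ℤ, 0 ≤ i → i < 2 * k → lt (tf f + (i, 0)) ∉ w) :
    DCo w f (f + ((k : ℤ), (k : ℤ))) := by
  induction k with
  | zero =>
    have e0 : ∀ a b : ℤ, a = 0 → b = 0 → DCo w f (f + (a, b)) := by
      rintro a b rfl rfl
      have : f + ((0 : ℤ), (0 : ℤ)) = f := by refine Prod.ext ?_ ?_ <;> simp
      rw [this]; exact DCo.refl w f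
    exact e0 _ _ (by simp) (by simp)
  | succ k ih =>
    have h1 := ih fun i h1 h2 => h i h1 (by push_cast; omega)
    refine h1.trans ?_
    have e1 : tf (f + ((k : ℤ), (k : ℤ))) = tf f + (2 * (k : ℤ), 0) := by
      unfold tf; refine Prod.ext ?_ ?_ <;> simp <;> ring
    have e2 : tf (f + ((k : ℤ), (k : ℤ)) + (0, 1)) - (0, 1) = tf f + (2 * (k : ℤ) + 1, 0) := by
      unfold tf; refine Prod.ext ?_ ?_ <;> simp <;> ring
    have h2 := dco_up (w := w) (f := f + ((k : ℤ), (k : ℤ))) (by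
      rw [e1]; exact h _ (by positivity) (by push_cast; omega))
    have h3 := dco_right (w := w) (f := f + ((k : ℤ), (k : ℤ)) + (0, 1)) (by
      rw [e2]; exact h _ (by positivity) (by push_cast; omega))
    have e3 : f + (((k + 1 : ℕ) : ℤ), ((k + 1 : ℕ) : ℤ)) = f + ((k : ℤ), (k : ℤ)) + (0, 1) + (1, 0) := by
      refine Prod.ext ?_ ?_ <;> simp <;> ring
    rw [e3]
    exact h2.trans h3

/-- walk in the direction `y` of the tile frame -/
lemma dco_moveY (k : ℕ) (h : ∀ i : ℤ, 0 ≤ i → i < 2 * k → lt (tf f + (0, i)) ∉ w) :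
    DCo w f (f + (-(k : ℤ), (k : ℤ))) := by
  induction k with
  | zero =>
    have e0 : ∀ a b : ℤ, a = 0 → b = 0 → DCo w f (f + (a, b)) := by
      rintro a b rfl rfl
      have : f + ((0 : ℤ), (0 : ℤ)) = f := by refine Prod.ext ?_ ?_ <;> simp
      rw [this]; exact DCo.refl w f
    exact e0 _ _ (by simp) (by simp)
  | succ k ih =>
    have h1 := ih fun i h1 h2 => h i h1 (by push_cast; omega)
    refine h1.trans ?_
    have e1 : tf (f + (-(k : ℤ), (k : ℤ))) = tf f + (0, 2 * (k : ℤ)) := by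
      unfold tf; refine Prod.ext ?_ ?_ <;> simp <;> ring
    have e2 : tf (f + (-(k : ℤ), (k : ℤ)) + (0, 1)) - (1, 0) = tf f + (0, 2 * (k : ℤ) + 1) := by
      unfold tf; refine Prod.ext ?_ ?_ <;> simp <;> ring
    have h2 := dco_up (w := w) (f := f + (-(k : ℤ), (k : ℤ))) (by
      rw [e1]; exact h _ (by positivity) (by push_cast; omega))
    have h3 := dco_left (w := w) (f := f + (-(k : ℤ), (k : ℤ)) + (0, 1)) (by
      rw [e2]; exact h _ (by positivity) (by push_cast; omega))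
    have e3 : f + (-((k + 1 : ℕ) : ℤ), ((k + 1 : ℕ) : ℤ)) =
        f + (-(k : ℤ), (k : ℤ)) + (0, 1) - (1, 0) := by
      refine Prod.ext ?_ ?_ <;> simp <;> ring
    rw [e3]
    exact h2.trans h3

/-- diagonal walks -/
lemma dco_diag (k : ℕ) (d q : ℤ × ℤ) (hstep : ∀ f : ℤ × ℤ, lt (tf f - q) ∉ w → DCo w f (f + d))
    (h : ∀ i : ℤ, 0 ≤ i → i < k → lt (tf (f + (i * d.1, i * d.2)) - q) ∉ w) :
    DCo w f (f + ((k : ℤ) * d.1, (k : ℤ) * d.2)) := by
  induction k with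
  | zero =>
    have e0 : ∀ a b : ℤ, a = 0 → b = 0 → DCo w f (f + (a, b)) := by
      rintro a b rfl rfl
      have : f + ((0 : ℤ), (0 : ℤ)) = f := by refine Prod.ext ?_ ?_ <;> simp
      rw [this]; exact DCo.refl w f
    exact e0 _ _ (by simp) (by simp)
  | succ k ih =>
    refine (ih fun i h1 h2 => h i h1 (by push_cast; omega)).trans ?_
    have h2 := hstep (f + ((k : ℤ) * d.1, (k : ℤ) * d.2)) (h k (by positivity) (by push_cast; omega))
    convert h2 using 1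
    refine Prod.ext ?_ ?_ <;> simp <;> ring

end walk

end Pool.Agent.H33.Q1
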