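import Mathlib
import Pool.Agent.H33.Q1.Tile

set_option autoImplicit false
open Finset

/-! # The environment of a tile polygon

`tdob P h` : random labels = tiles of the shape `P` at scale `2 h`, the outer layer along the sides
`P.m ≤ i < P.N` is open, all other labels are closed; the root corner is the outer corner at the first
mark (`= sc` of the tile frame). The first mark is a convex corner, `3 ≤ h`. -/

namespace Pool.Agent.H33.Q1

open Pool.Agent.H75.Perc hiding WL CT hh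
open Pool.Agent.H75.TwoArm Pool.Agent.H75.Four Pool.Agent.H69.Q1 Pool.Agent.Q1
open Pool.Agent.H5.Q1 (oc vx_oc ty_oc fi_oc oc_congr)
open Pool.Agent.Q1.M4 (Cell Good IsSide nextSide tail head PType Adj4 Conn4)

/-- the labels of the environment and the wired ones -/
noncomputable def TD (P : PType) (h : ℕ) : Finset (ℤ × ℤ) := TL P.Q (2 * h) ∪ TW P (2 * h)

/-- the root vertex -/
def rv (P : PType) (h : ℕ) : ℤ × ℤ :=
  (h * ((tail P.s0).1 - (tail P.s0).2), h * ((tail P.s0).1 + (tail P.s0).2))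

/-- the root corner -/
def rc (P : PType) (h : ℕ) : ℤ × ℤ := oc (rv P h) (P.s0.2 + 1)

/-- the face near the centre of a cell -/
def cf (h : ℕ) (c : Cell) : ℤ × ℤ := (h * (c.1 - c.2) + 1, h * (c.1 + c.2 + 1) + 1)

lemma tf_cf (h : ℕ) (c : Cell) : tf (cf h c) = (2 * h * c.1 + h + 1, 2 * h * c.2 + h) := by
  unfold tf cf
  refine Prod.ext ?_ ?_ <;> simp only <;> ring

lemma tf_fi_oc (p : ℤ × ℤ) (k : ℤ) : tf (fi (oc p k)) = tv p + dir (k + 2) := by
  obtain ⟨h0, h1, h2, h3⟩ := fi_oc p k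
  unfold tf tv
  rcases dir_cases (k + 2) with ⟨a, e⟩ | ⟨a, e⟩ | ⟨a, e⟩ | ⟨a, e⟩ <;> rw [e]
  · rw [h2 (by omega)]; refine Prod.ext ?_ ?_ <;> simp <;> ring
  · rw [h3 (by omega)]; refine Prod.ext ?_ ?_ <;> simp <;> ring
  · rw [h0 (by omega)]; refine Prod.ext ?_ ?_ <;> simp; ring
  · rw [h1 (by omega)]; refine Prod.ext ?_ ?_ <;> simp <;> ring

lemma tv_rv (P : PType) (h : ℕ) : tv (rv P h) = (2 * h * (tail P.s0).1, 2 * h * (tail P.s0).2) := by
  unfold tv rv
  refine Prod.ext ?_ ?_ <;> simp only <;> ring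

/-- position of `plab` of a corner in the tile frame -/
lemma tt_plab_oc (p : ℤ × ℤ) (k : ℤ) : (k % 4 = 0 → tt (plab (oc p k)) = tv p - (1, 0)) ∧
    (k % 4 = 1 → tt (plab (oc p k)) = tv p - (1, 1)) ∧
    (k % 4 = 2 → tt (plab (oc p k)) = tv p - (0, 1)) ∧
    (k % 4 = 3 → tt (plab (oc p k)) = tv p) := by
  obtain ⟨x, y⟩ := p
  unfold tt tv plab oc
  refine ⟨fun h => ?_, fun h => ?_, fun h => ?_, fun h => ?_⟩ <;>
  · simp only [h]
    norm_num
    omega

section far

variable {P : PType} {h : ℕ} {c : Cell}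

/-- tiles inside two neighbouring cells of the complement, horizontally -/
lemma two_x (hh : 1 ≤ h) (h1 : c ∉ P.Q) (h2 : c + (1, 0) ∉ P.Q) {p : ℤ × ℤ}
    (hx : 2 * h * c.1 + 1 ≤ p.1 ∧ p.1 ≤ 2 * h * (c.1 + 2) - 2)
    (hy : 2 * h * c.2 + 1 ≤ p.2 ∧ p.2 ≤ 2 * h * (c.2 + 1) - 2) : lt p ∉ TD P h := by
  have hn : (0 : ℤ) < 2 * h := by positivity
  have key : ∀ q : ℤ × ℤ, 2 * h * c.1 ≤ q.1 → q.1 < 2 * h * (c.1 + 2) → 2 * h * c.2 ≤ q.2 →
      q.2 < 2 * h * (c.2 + 1) → ct (2 * h) q ∉ P.Q := by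
    intro q a1 a2 a3 a4
    by_cases hq : q.1 < 2 * h * (c.1 + 1)
    · rw [ct_of hn (c := c) (by linarith) (by linarith) (by linarith) (by linarith)]
      exact h1
    · push Not at hq
      rw [ct_of hn (c := c + (1, 0)) (by simp only [Prod.fst_add]; linarith)
        (by simp only [Prod.fst_add]; linarith) (by simp only [Prod.snd_add]; linarith)
        (by simp only [Prod.snd_add]; linarith)]
      exact h2
  refine notMem_of_far hn (key _ (by linarith) (by linarith) (by linarith) (by linarith)) ?_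
  intro k
  rcases dir_cases k with ⟨-, e⟩ | ⟨-, e⟩ | ⟨-, e⟩ | ⟨-, e⟩ <;> rw [e] <;>
    refine key _ ?_ ?_ ?_ ?_ <;> simp only [Prod.fst_sub, Prod.snd_sub] <;> linarith

/-- vertically -/
lemma two_y (hh : 1 ≤ h) (h1 : c ∉ P.Q) (h2 : c + (0, 1) ∉ P.Q) {p : ℤ × ℤ}
    (hx : 2 * h * c.1 + 1 ≤ p.1 ∧ p.1 ≤ 2 * h * (c.1 + 1) - 2)
    (hy : 2 * h * c.2 + 1 ≤ p.2 ∧ p.2 ≤ 2 * h * (c.2 + 2) - 2) : lt p ∉ TD P h := by
  have hn : (0 : ℤ) < 2 * h := by positivity
  have key : ∀ q : ℤ × ℤ, 2 * h * c.1 ≤ q.1 → q.1 < 2 * h * (c.1 + 1) → 2 * h * c.2 ≤ q.2 →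
      q.2 < 2 * h * (c.2 + 2) → ct (2 * h) q ∉ P.Q := by
    intro q a1 a2 a3 a4
    by_cases hq : q.2 < 2 * h * (c.2 + 1)
    · rw [ct_of hn (c := c) (by linarith) (by linarith) (by linarith) (by linarith)]
      exact h1
    · push Not at hq
      rw [ct_of hn (c := c + (0, 1)) (by simp only [Prod.fst_add]; linarith)
        (by simp only [Prod.fst_add]; linarith) (by simp only [Prod.snd_add]; linarith)
        (by simp only [Prod.snd_add]; linarith)]
      exact h2
  refine notMem_of_far hn (key _ (by linarith) (by linarith) (by linarith) (by linarith)) ?_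
  intro k
  rcases dir_cases k with ⟨-, e⟩ | ⟨-, e⟩ | ⟨-, e⟩ | ⟨-, e⟩ <;> rw [e] <;>
    refine key _ ?_ ?_ ?_ ?_ <;> simp only [Prod.fst_sub, Prod.snd_sub] <;> linarith

/-- the centres of neighbouring cells of the complement are joined by closed labels -/
lemma dco_adj (hh : 3 ≤ h) {d : Cell} (hc : c ∉ P.Q) (hd : d ∉ P.Q) (ha : Adj4 c d) :
    DCo (TD P h) (cf h c) (cf h d) := by
  have hh1 : 1 ≤ h := by omega
  have hhz : (3 : ℤ) ≤ h := by exact_mod_cast hh
  have hx : ∀ c : Cell, c ∉ P.Q → c + (1, 0) ∉ P.Q → DCo (TD P h) (cf h c) (cf h (c + (1, 0))) := by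
    intro c h1 h2
    have e : cf h (c + (1, 0)) = cf h c + ((h : ℤ), (h : ℤ)) := by
      unfold cf; refine Prod.ext ?_ ?_ <;> simp <;> ring
    rw [e]
    refine dco_moveX h fun i hi1 hi2 => ?_
    rw [tf_cf]
    refine two_x hh1 h1 h2 ?_ ?_ <;> simp only [Prod.fst_add, Prod.snd_add] <;>
      constructor <;> linarith
  have hy : ∀ c : Cell, c ∉ P.Q → c + (0, 1) ∉ P.Q → DCo (TD P h) (cf h c) (cf h (c + (0, 1))) := by
    intro c h1 h2
    have e : cf h (c + (0, 1)) = cf h c + (-(h : ℤ), (h : ℤ)) := by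
      unfold cf; refine Prod.ext ?_ ?_ <;> simp <;> ring
    rw [e]
    refine dco_moveY h fun i hi1 hi2 => ?_
    rw [tf_cf]
    refine two_y hh1 h1 h2 ?_ ?_ <;> simp only [Prod.fst_add, Prod.snd_add] <;>
      constructor <;> linarith
  obtain ⟨k, rfl⟩ := ha
  rcases dir_cases k with ⟨-, e⟩ | ⟨-, e⟩ | ⟨-, e⟩ | ⟨-, e⟩ <;> rw [e] at hd ⊢
  · exact hx c hc hd
  · exact hy c hc hd
  · have e2 : c + (-1, 0) + (1, 0) = c := by refine Prod.ext ?_ ?_ <;> simp
    have := hx (c + (-1, 0)) hd (by rw [e2]; exact hc)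
    rw [e2] at this
    exact this.symm
  · have e2 : c + (0, -1) + (0, 1) = c := by refine Prod.ext ?_ ?_ <;> simp
    have := hy (c + (0, -1)) hd (by rw [e2]; exact hc)
    rw [e2] at this
    exact this.symm

lemma dco_compl (hh : 3 ≤ h) {d : Cell} (hc : c ∉ P.Q) (hd : d ∉ P.Q) :
    DCo (TD P h) (cf h c) (cf h d) := by
  have h1 := P.good.conn_compl c (by simpa using hc) d (by simpa using hd)
  have key : ∀ d, Relation.ReflTransGen (fun a b => Adj4 a b ∧ b ∈ ((P.Q : Set Cell)ᶜ)) c d →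
      d ∉ P.Q ∧ DCo (TD P h) (cf h c) (cf h d) := by
    intro d hd
    induction hd with
    | refl => exact ⟨hc, DCo.refl _ _⟩
    | @tail a b _ hab ih =>
      have hb : b ∉ P.Q := by simpa using hab.2
      exact ⟨hb, ih.2.trans (dco_adj hh ih.1 hb hab.1)⟩
  exact (key d h1).2

end far

/-- no diagonal contact: the cell behind a convex corner -/
lemma diag_notMem {Q : Finset Cell} (hQ : Good Q) {c : Cell} {l : ℤ} (h0 : c ∈ Q)
    (h1 : c + dir (l - 1) ∉ Q) (h2 : c - dir l ∉ Q) : c + dir (l - 1) - dir l ∉ Q := by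
  intro h3
  obtain ⟨i, j⟩ := c
  rcases dir_cases l with ⟨a, e⟩ | ⟨a, e⟩ | ⟨a, e⟩ | ⟨a, e⟩ <;>
  rcases dir_cases (l - 1) with ⟨b, f⟩ | ⟨b, f⟩ | ⟨b, f⟩ | ⟨b, f⟩ <;>
  first
  | (exfalso; omega)
  | (rw [e, f] at h3
     rw [f] at h1
     rw [e] at h2
     simp only [Prod.mk_add_mk, Prod.mk_sub_mk, add_zero, sub_zero, zero_add, sub_neg_eq_add] at h1 h2 h3)
  · have h5 := hQ.diag1 (i - 1, j + -1) h3 (by simpa using h0)
    simp only [Prod.mk_add_mk, add_zero] at h5
    rcases h5 with h5 | h5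
    · exact h1 (by simpa using h5)
    · exact h2 (by simpa using h5)
  · have h5 := hQ.diag2 (i, j - 1) (by simpa using h3) (by simpa using h0)
    rcases h5 with h5 | h5
    · exact h2 h5
    · exact h1 (by simpa using h5)
  · have h5 := hQ.diag1 (i, j) h0 (by simpa using h3)
    simp only [Prod.mk_add_mk, add_zero] at h5
    rcases h5 with h5 | h5
    · exact h2 h5
    · exact h1 h5
  · have h5 := hQ.diag2 (i + -1, j) (by simpa using h0) (by simpa using h3)
    rcases h5 with h5 | h5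
    · exact h1 h5
    · exact h2 (by simpa using h5)

/-- the first mark is a convex corner -/
def Conv0 (P : PType) : Prop := P.s0.1 - dir P.s0.2 ∉ P.Q

section root

variable {P : PType} {h : ℕ}

lemma cell_behind (hc : Conv0 P) : P.s0.1 + dir (P.s0.2 - 1) - dir P.s0.2 ∉ P.Q :=
  diag_notMem P.good P.side0.1 P.side0.2 hc

lemma tail_eq (s : Cell × ℤ) : tail s = s.1 + (if s.2 % 4 = 0 then (0, 0) else if s.2 % 4 = 1 then
    (1, 0) else if s.2 % 4 = 2 then (1, 1) else (0, 1)) := by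
  unfold tail
  split_ifs <;> simp

/-- the root face is joined to the centre of the cell below the first side -/
lemma dco_root (hh : 3 ≤ h) (hc : Conv0 P) :
    DCo (TD P h) (fi (rc P h)) (cf h (P.s0.1 + dir (P.s0.2 - 1))) := by
  have hh1 : 1 ≤ h := by omega
  have hhz : (3 : ℤ) ≤ h := by exact_mod_cast hh
  have hbh := cell_behind hc
  have hout := P.side0.2
  have htf := tf_fi_oc (rv P h) (P.s0.2 + 1)
  rw [tv_rv] at htf
  set f := fi (rc P h) with hf
  have hf' : fi (oc (rv P h) (P.s0.2 + 1)) = f := rfl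
  rw [hf'] at htf
  set c := P.s0.1 with hcdef
  set l := P.s0.2 with hl
  have htail : tail P.s0 = c + (if l % 4 = 0 then (0, 0) else if l % 4 = 1 then
    (1, 0) else if l % 4 = 2 then (1, 1) else (0, 1)) := tail_eq P.s0
  have hinj : ∀ f g : ℤ × ℤ, tf f = tf g → f = g := by
    intro f g hg
    unfold tf at hg
    have e1 := congrArg Prod.fst hg
    have e2 := congrArg Prod.snd hg
    simp only at e1 e2
    exact Prod.ext (by omega) (by omega)
  have hcast : (((h - 1 : ℕ)) : ℤ) = h - 1 := by push_cast [Nat.cast_sub hh1]; ring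
  have e10 : ∀ g : ℤ × ℤ, g + (((1 : ℕ) : ℤ), ((1 : ℕ) : ℤ)) = g + (1, 1) := fun g => by norm_num
  rcases dir_cases l with ⟨a, e⟩ | ⟨a, e⟩ | ⟨a, e⟩ | ⟨a, e⟩
  · -- floor
    have e1 : dir (l - 1) = (0, -1) := by
      rcases dir_cases (l - 1) with ⟨b, e'⟩ | ⟨b, e'⟩ | ⟨b, e'⟩ | ⟨b, e'⟩ <;>
        first | (exfalso; omega) | exact e'
    have e3 : dir (l + 1 + 2) = (0, -1) := by
      rcases dir_cases (l + 1 + 2) with ⟨b, e'⟩ | ⟨b, e'⟩ | ⟨b, e'⟩ | ⟨b, e'⟩ <;>
        first | (exfalso; omega) | exact e'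
    rw [if_pos a] at htail
    rw [e1] at hout hbh ⊢
    rw [e] at hbh
    rw [e3, htail] at htf
    have hbh2 : c + (0, -1) + (-1, 0) ∉ P.Q := by
      convert hbh using 2
      refine Prod.ext ?_ ?_ <;> simp [sub_eq_add_neg]
    have hbh3 : c + (0, -1) + (-1, 0) + (1, 0) = c + (0, -1) := by
      refine Prod.ext ?_ ?_ <;> simp
    have g1 := dco_diag (w := TD P h) (f := f) (h - 1) (1, 0) (0, 1)
      (fun f hf => dco_right hf) (fun i hi1 hi2 => by
        rw [hcast] at hi2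
        have e5 : tf (f + (i * ((1, 0) : ℤ × ℤ).1, i * ((1, 0) : ℤ × ℤ).2)) = tf f + (i, -i) := by
          unfold tf; refine Prod.ext ?_ ?_ <;> simp <;> ring
        rw [e5, htf]
        refine two_x hh1 hbh2 (by rw [hbh3]; exact hout) ?_ ?_ <;>
          simp only [Prod.fst_add, Prod.snd_add, Prod.fst_sub, Prod.snd_sub] <;>
          constructor <;> linarith)
    set f1 := f + (((h - 1 : ℕ) : ℤ) * ((1, 0) : ℤ × ℤ).1, ((h - 1 : ℕ) : ℤ) * ((1, 0) : ℤ × ℤ).2)
      with hf1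
    have e6 : tf f1 = (2 * h * c.1 + h - 1, 2 * h * c.2 - h) := by
      have : tf f1 = tf f + ((h : ℤ) - 1, -((h : ℤ) - 1)) := by
        rw [hf1, hcast]; unfold tf; refine Prod.ext ?_ ?_ <;> simp <;> ring
      rw [this, htf]
      refine Prod.ext ?_ ?_ <;> simp <;> ring
    have g2 := dco_moveX (w := TD P h) (f := f1) 1 (fun i hi1 hi2 => by
      rw [e6]
      refine two_x hh1 hbh2 (by rw [hbh3]; exact hout) ?_ ?_ <;>
          simp only [Prod.fst_add, Prod.snd_add] <;>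
          constructor <;> push_cast at hi2 <;> linarith)
    have e7 : f1 + (((1 : ℕ) : ℤ), ((1 : ℕ) : ℤ)) = cf h (c + (0, -1)) := by
      apply hinj
      rw [tf_cf, e10]
      have : tf (f1 + (1, 1)) = tf f1 + (2, 0) := by
        unfold tf; refine Prod.ext ?_ ?_ <;> simp <;> ring
      rw [this, e6]
      refine Prod.ext ?_ ?_ <;> simp <;> ring
    rw [e7] at g2
    exact g1.trans g2
  · -- right wall
    have e1 : dir (l - 1) = (1, 0) := by
      rcases dir_cases (l - 1) with ⟨b, e'⟩ | ⟨b, e'⟩ | ⟨b, e'⟩ | ⟨b, e'⟩ <;>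
        first | (exfalso; omega) | exact e'
    have e3 : dir (l + 1 + 2) = (1, 0) := by
      rcases dir_cases (l + 1 + 2) with ⟨b, e'⟩ | ⟨b, e'⟩ | ⟨b, e'⟩ | ⟨b, e'⟩ <;>
        first | (exfalso; omega) | exact e'
    rw [if_neg (by omega), if_pos a] at htail
    rw [e1] at hout hbh ⊢
    rw [e] at hbh
    rw [e3, htail] at htf
    have hbh2 : c + (1, 0) + (0, -1) ∉ P.Q := by
      convert hbh using 2
      refine Prod.ext ?_ ?_ <;> simp [sub_eq_add_neg]
    have hbh3 : c + (1, 0) + (0, -1) + (0, 1) = c + (1, 0) := by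
      refine Prod.ext ?_ ?_ <;> simp
    have g1 := dco_diag (w := TD P h) (f := f) h (0, 1) (0, 0)
      (fun f hf => dco_up (by
        have e0 : tf f - (0, 0) = tf f := by refine Prod.ext ?_ ?_ <;> simp
        rwa [e0] at hf)) (fun i hi1 hi2 => by
        have e5 : tf (f + (i * ((0, 1) : ℤ × ℤ).1, i * ((0, 1) : ℤ × ℤ).2)) = tf f + (i, i) := by
          unfold tf; refine Prod.ext ?_ ?_ <;> simp <;> ring
        rw [e5, htf]
        refine two_y hh1 hbh2 (by rw [hbh3]; exact hout) ?_ ?_ <;>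
          simp only [Prod.fst_add, Prod.snd_add, Prod.fst_sub, Prod.snd_sub] <;>
          constructor <;> linarith)
    have e7 : f + ((h : ℤ) * ((0, 1) : ℤ × ℤ).1, (h : ℤ) * ((0, 1) : ℤ × ℤ).2) =
        cf h (c + (1, 0)) := by
      apply hinj
      rw [tf_cf]
      have : tf (f + ((h : ℤ) * ((0, 1) : ℤ × ℤ).1, (h : ℤ) * ((0, 1) : ℤ × ℤ).2)) =
          tf f + ((h : ℤ), (h : ℤ)) := by
        unfold tf; refine Prod.ext ?_ ?_ <;> simp <;> ring
      rw [this, htf]
      refine Prod.ext ?_ ?_ <;> simp <;> ring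
    rw [e7] at g1
    exact g1
  · -- ceiling
    have e1 : dir (l - 1) = (0, 1) := by
      rcases dir_cases (l - 1) with ⟨b, e'⟩ | ⟨b, e'⟩ | ⟨b, e'⟩ | ⟨b, e'⟩ <;>
        first | (exfalso; omega) | exact e'
    have e3 : dir (l + 1 + 2) = (0, 1) := by
      rcases dir_cases (l + 1 + 2) with ⟨b, e'⟩ | ⟨b, e'⟩ | ⟨b, e'⟩ | ⟨b, e'⟩ <;>
        first | (exfalso; omega) | exact e'
    rw [if_neg (by omega), if_neg (by omega), if_pos a] at htail
    rw [e1] at hout hbh ⊢
    rw [e] at hbh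
    rw [e3, htail] at htf
    have hbh2 : c + (0, 1) + (1, 0) ∉ P.Q := by
      convert hbh using 2
      refine Prod.ext ?_ ?_ <;> simp [sub_eq_add_neg]
    have g1 := dco_diag (w := TD P h) (f := f) (h - 1) (-1, 0) (1, 0)
      (fun f hf => by
        have := dco_left hf
        convert this using 1
        refine Prod.ext ?_ ?_ <;> simp [sub_eq_add_neg]) (fun i hi1 hi2 => by
        rw [hcast] at hi2
        have e5 : tf (f + (i * ((-1, 0) : ℤ × ℤ).1, i * ((-1, 0) : ℤ × ℤ).2)) = tf f + (-i, i) := by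
          unfold tf; refine Prod.ext ?_ ?_ <;> simp <;> ring
        rw [e5, htf]
        refine two_x hh1 hout hbh2 ?_ ?_ <;>
          simp only [Prod.fst_add, Prod.snd_add, Prod.fst_sub, Prod.snd_sub] <;>
          constructor <;> linarith)
    have e7 : f + (((h - 1 : ℕ) : ℤ) * ((-1, 0) : ℤ × ℤ).1, ((h - 1 : ℕ) : ℤ) *
        ((-1, 0) : ℤ × ℤ).2) = cf h (c + (0, 1)) := by
      apply hinj
      rw [tf_cf, hcast]
      have : tf (f + (((h : ℤ) - 1) * ((-1, 0) : ℤ × ℤ).1, ((h : ℤ) - 1) * ((-1, 0) : ℤ × ℤ).2)) =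
          tf f + (-((h : ℤ) - 1), (h : ℤ) - 1) := by
        unfold tf; refine Prod.ext ?_ ?_ <;> simp <;> ring
      rw [this, htf]
      refine Prod.ext ?_ ?_ <;> simp <;> ring
    rw [e7] at g1
    exact g1
  · -- left wall
    have e1 : dir (l - 1) = (-1, 0) := by
      rcases dir_cases (l - 1) with ⟨b, e'⟩ | ⟨b, e'⟩ | ⟨b, e'⟩ | ⟨b, e'⟩ <;>
        first | (exfalso; omega) | exact e'
    have e3 : dir (l + 1 + 2) = (-1, 0) := by
      rcases dir_cases (l + 1 + 2) with ⟨b, e'⟩ | ⟨b, e'⟩ | ⟨b, e'⟩ | ⟨b, e'⟩ <;>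
        first | (exfalso; omega) | exact e'
    rw [if_neg (by omega), if_neg (by omega), if_neg (by omega)] at htail
    rw [e1] at hout hbh ⊢
    rw [e] at hbh
    rw [e3, htail] at htf
    have hbh2 : c + (-1, 0) + (0, 1) ∉ P.Q := by
      convert hbh using 2
      refine Prod.ext ?_ ?_ <;> simp [sub_eq_add_neg]
    have g1 := dco_diag (w := TD P h) (f := f) h (0, -1) (1, 1)
      (fun f hf => by
        have := dco_down hf
        convert this using 1
        refine Prod.ext ?_ ?_ <;> simp [sub_eq_add_neg]) (fun i hi1 hi2 => by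
        have e5 : tf (f + (i * ((0, -1) : ℤ × ℤ).1, i * ((0, -1) : ℤ × ℤ).2)) = tf f + (-i, -i) := by
          unfold tf; refine Prod.ext ?_ ?_ <;> simp <;> ring
        rw [e5, htf]
        refine two_y hh1 hout hbh2 ?_ ?_ <;>
          simp only [Prod.fst_add, Prod.snd_add, Prod.fst_sub, Prod.snd_sub] <;>
          constructor <;> linarith)
    set f1 := f + ((h : ℤ) * ((0, -1) : ℤ × ℤ).1, (h : ℤ) * ((0, -1) : ℤ × ℤ).2) with hf1
    have e6 : tf f1 = (2 * h * c.1 - 1 - h, 2 * h * c.2 + h) := by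
      have : tf f1 = tf f + (-(h : ℤ), -(h : ℤ)) := by
        rw [hf1]; unfold tf; refine Prod.ext ?_ ?_ <;> simp <;> ring
      rw [this, htf]
      refine Prod.ext ?_ ?_ <;> simp <;> ring
    have g2 := dco_moveX (w := TD P h) (f := f1) 1 (fun i hi1 hi2 => by
      rw [e6]
      refine two_y hh1 hout hbh2 ?_ ?_ <;>
          simp only [Prod.fst_add, Prod.snd_add] <;>
          constructor <;> push_cast at hi2 <;> linarith)
    have e7 : f1 + (((1 : ℕ) : ℤ), ((1 : ℕ) : ℤ)) = cf h (c + (-1, 0)) := by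
      apply hinj
      rw [tf_cf, e10]
      have : tf (f1 + (1, 1)) = tf f1 + (2, 0) := by
        unfold tf; refine Prod.ext ?_ ?_ <;> simp <;> ring
      rw [this, e6]
      refine Prod.ext ?_ ?_ <;> simp <;> ring
    rw [e7] at g2
    exact g1.trans g2

lemma odd_TD {e : ℤ × ℤ} (hh : 1 ≤ h) (he : e ∈ TD P h) : (e.1 + e.2) % 2 = 1 := by
  have hn : (0 : ℤ) < 2 * h := by positivity
  rcases mem_union.1 he with h1 | h1
  · exact ((mem_TL hn).1 h1).1
  · exact (of_mem_TW hn h1).1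

lemma exists_low (hh : 3 ≤ h) (hc : Conv0 P) : ∃ g : ℤ × ℤ,
    DCo (TL P.Q (2 * h) ∪ TW P (2 * h)) (fi (rc P h)) g ∧
    ∀ v, Co (TL P.Q (2 * h) ∪ TW P (2 * h)) (vx (rc P h)) v → g.2 < v.2 := by
  classical
  have hhz : (3 : ℤ) ≤ h := by exact_mod_cast hh
  set D := TD P h with hD
  have hDe : TL P.Q (2 * h) ∪ TW P (2 * h) = D := rfl
  rw [hDe]
  set A : Finset (ℤ × ℤ) := insert (vx (rc P h)) (D.image eu ∪ D.image ev) with hA
  obtain ⟨M, hM⟩ := (A.image (fun v => - v.2) ∪ P.Q.image (fun c => - c.1)).exists_le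
  obtain ⟨N, hN1, hN2⟩ : ∃ N : ℤ, M < N ∧ 1 ≤ N := ⟨max (M + 1) 1, by omega, by omega⟩
  have hfar : ((-N, -N) : Cell) ∉ P.Q := by
    intro h1
    have := hM _ (mem_union_right _ (mem_image.2 ⟨_, h1, rfl⟩))
    simp only at this
    omega
  refine ⟨cf h (-N, -N), (dco_root hh hc).trans (dco_compl hh P.side0.2 hfar), ?_⟩
  intro v hv
  have hvA : v ∈ A := by
    rcases Relation.ReflTransGen.cases_tail hv with h1 | ⟨u, -, h1⟩
    · rw [h1]; exact mem_insert_self _ _
    · rw [hA, mem_insert, mem_union, mem_image, mem_image]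
      rcases ends_of_add h1.1 rfl with h2 | h2
      · exact Or.inr (Or.inr ⟨_, h1.2, h2.2.symm⟩)
      · exact Or.inr (Or.inl ⟨_, h1.2, h2.2.symm⟩)
  have := hM _ (mem_union_left _ (mem_image.2 ⟨_, hvA, rfl⟩))
  have e : (cf h (-N, -N)).2 = h * (1 - 2 * N) + 1 := by unfold cf; simp only; ring
  rw [e]
  nlinarith

lemma root_plab (hh : 3 ≤ h) (hc : Conv0 P) : plab (rc P h) ∉ TL P.Q (2 * h) := by
  have hn : (0 : ℤ) < 2 * h := by positivity
  have hhz : (3 : ℤ) ≤ h := by exact_mod_cast hh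
  have hbh := cell_behind hc
  rw [mem_TL hn]
  rintro ⟨-, h2⟩
  have htail := tail_eq P.s0
  obtain ⟨k0, k1, k2, k3⟩ := tt_plab_oc (rv P h) (P.s0.2 + 1)
  rw [tv_rv] at k0 k1 k2 k3
  apply hbh
  unfold rc at h2
  rcases dir_cases P.s0.2 with ⟨a, e⟩ | ⟨a, e⟩ | ⟨a, e⟩ | ⟨a, e⟩ <;>
  rcases dir_cases (P.s0.2 - 1) with ⟨b, f⟩ | ⟨b, f⟩ | ⟨b, f⟩ | ⟨b, f⟩ <;>
  first
  | (exfalso; omega)
  | skip
  · rw [k1 (by omega), htail, if_pos a, ct_of hn (c := P.s0.1 + (-1, -1))
      (by simp; linarith) (by simp; linarith) (by simp; linarith) (by simp; linarith)] at h2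
    rw [e, f]
    convert h2 using 1
    refine Prod.ext ?_ ?_ <;> simp [sub_eq_add_neg]
  · rw [k2 (by omega), htail, if_neg (by omega), if_pos a, ct_of hn (c := P.s0.1 + (1, -1))
      (by simp; linarith) (by simp; linarith) (by simp; linarith) (by simp; linarith)] at h2
    rw [e, f]
    convert h2 using 1
    refine Prod.ext ?_ ?_ <;> simp [sub_eq_add_neg]
  · rw [k3 (by omega), htail, if_neg (by omega), if_neg (by omega), if_pos a,
      ct_of hn (c := P.s0.1 + (1, 1))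
      (by simp; linarith) (by simp; linarith) (by simp; linarith) (by simp; linarith)] at h2
    rw [e, f]
    convert h2 using 1
    refine Prod.ext ?_ ?_ <;> simp [sub_eq_add_neg]
  · rw [k0 (by omega), htail, if_neg (by omega), if_neg (by omega), if_neg (by omega),
      ct_of hn (c := P.s0.1 + (-1, 1))
      (by simp; linarith) (by simp; linarith) (by simp; linarith) (by simp; linarith)] at h2
    rw [e, f]
    convert h2 using 1
    refine Prod.ext ?_ ?_ <;> simp [sub_eq_add_neg]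

/-- **The environment of the tile polygon** of the shape `P` at scale `2 h` (parity `0`). -/
noncomputable def tdob (P : PType) (h : ℕ) (hh : 3 ≤ h) (hc : Conv0 P) : Env :=
  Env.plane (TL P.Q (2 * h)) (TW P (2 * h)) (rc P h) (P.s0.2 + 1) (exists_low hh hc).choose
    (fun _ he => ((mem_TL (by positivity)).1 he).1) (disj_TL_TW (by positivity))
    (by unfold rc; rw [ty_oc]) (root_plab hh hc) (exists_low hh hc).choose_spec.1
    (exists_low hh hc).choose_spec.2

variable {hh : 3 ≤ h} {hc : Conv0 P}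

@[simp] lemma tdob_E : (tdob P h hh hc).E = TL P.Q (2 * h) := rfl
@[simp] lemma tdob_c0 : (tdob P h hh hc).c0 = rc P h := rfl
@[simp] lemma tdob_k0 : (tdob P h hh hc).k0 = P.s0.2 + 1 := rfl
@[simp] lemma tdob_T : (tdob P h hh hc).T = 4 := rfl

theorem planeEnv_tdob : M6c.PlaneEnv (tdob P h hh hc) (TW P (2 * h)) :=
  M6c.planeEnv_plane fun _ he => (of_mem_TW (by positivity) he).1

end root

end Pool.Agent.H33.Q1
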