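import Mathlib

/-!
# Schwarz reflection (for Q1_M4: from the primitive `h` to its derivative up to straight sides)

`glue_line`: a function continuous on an open set and holomorphic off a horizontal line is
holomorphic.  `reflect_core`: Schwarz reflection in the unit-direction normal form.
-/

open Complex Metric Set Topology MeasureTheory Filter
open scoped Interval ComplexConjugate

noncomputable section

namespace H33.Q1

/-- A function which is continuous on an open set and holomorphic off the line `Im z = a`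
is holomorphic. -/
theorem glue_line {U : Set ℂ} (hU : IsOpen U) {g : ℂ → ℂ} {a : ℝ} (hc : ContinuousOn g U)
    (hd : ∀ z ∈ U, z.im ≠ a → DifferentiableAt ℂ g z) : DifferentiableOn ℂ g U := by
  refine (isConservativeOn_and_continuousOn_iff_isDifferentiableOn hU).1 ⟨?_, hc⟩
  intro z w hzw
  -- the rectangle identity for a rectangle whose open part misses the line
  have key : ∀ p q : ℝ, p ∈ [[z.im, w.im]] → q ∈ [[z.im, w.im]] →
      (∀ y ∈ Ioo (min p q) (max p q), y ≠ a) →
      (∫ x : ℝ in z.re..w.re, g (x + p * I)) - (∫ x : ℝ in z.re..w.re, g (x + q * I)) +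
        I • (∫ y : ℝ in p..q, g (w.re + y * I)) - I • (∫ y : ℝ in p..q, g (z.re + y * I)) = 0 := by
    intro p q hp hq hy
    have hsub : [[p, q]] ⊆ [[z.im, w.im]] := uIcc_subset_uIcc hp hq
    have hR : [[z.re, w.re]] ×ℂ [[p, q]] ⊆ U := by
      intro x hx
      exact hzw ⟨hx.1, hsub hx.2⟩
    have h1 := integral_boundary_rect_eq_zero_of_continuousOn_of_differentiableOn g
      (⟨z.re, p⟩ : ℂ) (⟨w.re, q⟩ : ℂ) (hc.mono hR) (by
        intro x hx
        have hxU : x ∈ U := hR ⟨Ioo_subset_Icc_self hx.1, Ioo_subset_Icc_self hx.2⟩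
        exact (hd x hxU (hy _ hx.2)).differentiableWithinAt)
    simpa using h1
  have hall : (∫ x : ℝ in z.re..w.re, g (x + z.im * I)) -
      (∫ x : ℝ in z.re..w.re, g (x + w.im * I)) +
      I • (∫ y : ℝ in z.im..w.im, g (w.re + y * I)) -
      I • (∫ y : ℝ in z.im..w.im, g (z.re + y * I)) = 0 := by
    by_cases ha : a ∈ Ioo (min z.im w.im) (max z.im w.im)
    · have ha' : a ∈ [[z.im, w.im]] := Ioo_subset_Icc_self ha
      have h1 := key z.im a left_mem_uIcc ha' (by
        intro y hy
        rcases le_total z.im w.im with h | h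
        · simp only [min_eq_left h, max_eq_right h, mem_Ioo] at ha
          rw [min_eq_left ha.1.le, max_eq_right ha.1.le] at hy
          exact ne_of_lt hy.2
        · simp only [min_eq_right h, max_eq_left h, mem_Ioo] at ha
          rw [min_eq_right ha.2.le, max_eq_left ha.2.le] at hy
          exact ne_of_gt hy.1)
      have h2 := key a w.im ha' right_mem_uIcc (by
        intro y hy
        rcases le_total z.im w.im with h | h
        · simp only [min_eq_left h, max_eq_right h, mem_Ioo] at ha
          rw [min_eq_left ha.2.le, max_eq_right ha.2.le] at hy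
          exact ne_of_gt hy.1
        · simp only [min_eq_right h, max_eq_left h, mem_Ioo] at ha
          rw [min_eq_right ha.1.le, max_eq_left ha.1.le] at hy
          exact ne_of_lt hy.2)
      have hint : ∀ t : ℝ, t ∈ [[z.re, w.re]] → ∀ p q : ℝ, p ∈ [[z.im, w.im]] →
          q ∈ [[z.im, w.im]] → IntervalIntegrable (fun y : ℝ => g (t + y * I)) volume p q := by
        intro t ht p q hp hq
        apply ContinuousOn.intervalIntegrable
        have hsub : [[p, q]] ⊆ [[z.im, w.im]] := uIcc_subset_uIcc hp hq
        refine hc.comp (by fun_prop) ?_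
        intro y hy
        refine hzw ⟨?_, ?_⟩
        · simpa using ht
        · simpa using hsub hy
      have e1 := intervalIntegral.integral_add_adjacent_intervals
        (hint w.re right_mem_uIcc z.im a left_mem_uIcc ha')
        (hint w.re right_mem_uIcc a w.im ha' right_mem_uIcc)
      have e2 := intervalIntegral.integral_add_adjacent_intervals
        (hint z.re left_mem_uIcc z.im a left_mem_uIcc ha')
        (hint z.re left_mem_uIcc a w.im ha' right_mem_uIcc)
      rw [← e1, ← e2, smul_add, smul_add]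
      linear_combination h1 + h2
    · exact key z.im w.im left_mem_uIcc right_mem_uIcc (fun y hy h => ha (h ▸ hy))
  have := wedgeIntegral_add_wedgeIntegral_eq z w g
  rw [hall] at this
  exact eq_neg_of_add_eq_zero_left this

/-- Schwarz reflection in normal form. -/
theorem reflect_core {r : ℝ} {h : ℂ → ℂ}
    (hc : ContinuousOn h {z | z ∈ ball (0 : ℂ) r ∧ 0 ≤ z.im})
    (hd : ∀ z ∈ ball (0 : ℂ) r, 0 < z.im → DifferentiableAt ℂ h z)
    (hre : ∀ z ∈ ball (0 : ℂ) r, z.im = 0 → (h z).im = 0) :
    ∃ g : ℂ → ℂ, DifferentiableOn ℂ g (ball 0 r) ∧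
      (∀ z ∈ ball (0 : ℂ) r, 0 ≤ z.im → g z = h z) ∧
      (∀ z ∈ ball (0 : ℂ) r, g (conj z) = conj (g z)) := by
  classical
  set g : ℂ → ℂ := fun z => if 0 ≤ z.im then h z else conj (h (conj z)) with hg
  have hball : ∀ z : ℂ, z ∈ ball (0 : ℂ) r → conj z ∈ ball (0 : ℂ) r := by
    intro z hz
    simpa [mem_ball_zero_iff] using hz
  have g1 : ∀ z : ℂ, 0 ≤ z.im → g z = h z := fun z hz => by simp [hg, hz]
  have g2 : ∀ z ∈ ball (0 : ℂ) r, z.im ≤ 0 → g z = conj (h (conj z)) := by
    intro z hz him
    rcases him.lt_or_eq with h1 | h1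
    · simp [hg, not_le.2 h1]
    · have hcz : conj z = z := Complex.conj_eq_iff_im.2 h1
      rw [g1 z h1.ge, hcz]
      exact (Complex.conj_eq_iff_im.2 (hre z hz h1)).symm
  have hcont : ContinuousOn g (ball 0 r) := by
    have hA : ContinuousOn g {z | z ∈ ball (0 : ℂ) r ∧ 0 ≤ z.im} :=
      hc.congr fun z hz => g1 z hz.2
    have hB : ContinuousOn g {z | z ∈ ball (0 : ℂ) r ∧ z.im ≤ 0} := by
      have h3 : ContinuousOn (fun z => conj (h (conj z))) {z | z ∈ ball (0 : ℂ) r ∧ z.im ≤ 0} := by
        refine Complex.continuous_conj.comp_continuousOn (hc.comp (by fun_prop) ?_)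
        intro z hz
        exact ⟨hball z hz.1, by simpa using hz.2⟩
      exact h3.congr fun z hz => g2 z hz.1 hz.2
    have hU : ball (0 : ℂ) r =
        {z | z ∈ ball (0 : ℂ) r ∧ 0 ≤ z.im} ∪ {z | z ∈ ball (0 : ℂ) r ∧ z.im ≤ 0} := by
      ext z
      constructor
      · intro hz
        rcases le_total 0 z.im with h4 | h4
        · exact Or.inl ⟨hz, h4⟩
        · exact Or.inr ⟨hz, h4⟩
      · rintro (h4 | h4) <;> exact h4.1
    intro z hz
    have c1 : ContinuousWithinAt g {z | z ∈ ball (0 : ℂ) r ∧ 0 ≤ z.im} z := by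
      by_cases h4 : 0 ≤ z.im
      · exact hA z ⟨hz, h4⟩
      · refine continuousWithinAt_of_notMem_closure ?_
        have : closure {z : ℂ | z ∈ ball (0 : ℂ) r ∧ 0 ≤ z.im} ⊆ {z : ℂ | 0 ≤ z.im} :=
          closure_minimal (fun w hw => hw.2) (isClosed_le continuous_const Complex.continuous_im)
        exact fun h5 => h4 (this h5)
    have c2 : ContinuousWithinAt g {z | z ∈ ball (0 : ℂ) r ∧ z.im ≤ 0} z := by
      by_cases h4 : z.im ≤ 0
      · exact hB z ⟨hz, h4⟩
      · refine continuousWithinAt_of_notMem_closure ?_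
        have : closure {z : ℂ | z ∈ ball (0 : ℂ) r ∧ z.im ≤ 0} ⊆ {z : ℂ | z.im ≤ 0} :=
          closure_minimal (fun w hw => hw.2) (isClosed_le Complex.continuous_im continuous_const)
        exact fun h5 => h4 (this h5)
    rw [hU]
    exact c1.union c2
  refine ⟨g, glue_line isOpen_ball (a := 0) hcont ?_, fun z _ hz => g1 z hz, ?_⟩
  · intro z hz hne
    rcases lt_or_gt_of_ne hne with h4 | h4
    · have hn : ∀ᶠ w in 𝓝 z, g w = conj (h (conj w)) := by
        filter_upwards [isOpen_ball.mem_nhds hz,
          (isOpen_lt Complex.continuous_im continuous_const).mem_nhds h4] with w hw hw2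
        exact g2 w hw (le_of_lt hw2)
      have hd1 : DifferentiableAt ℂ h (conj z) := hd _ (hball z hz) (by simpa using h4)
      have hd2 : DifferentiableAt ℂ (fun w => conj (h (conj w))) z := by
        have h6 := hd1.conj_conj
        rwa [Complex.conj_conj] at h6
      exact hd2.congr_of_eventuallyEq hn
    · have hn : ∀ᶠ w in 𝓝 z, g w = h w := by
        filter_upwards [(isOpen_lt continuous_const Complex.continuous_im).mem_nhds h4] with w hw
        exact g1 w (le_of_lt hw)
      exact (hd z hz h4).congr_of_eventuallyEq hn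
  · intro z hz
    rcases le_total 0 z.im with h4 | h4
    · rw [g2 (conj z) (hball z hz) (by simpa using h4), g1 z h4]
      simp
    · rw [g2 z hz h4, g1 (conj z) (by simpa using h4)]
      simp

/-- Schwarz reflection in a half disc with centre `x` and unit tangent `u`: the values of `h` on
the diameter lie in the line through `h x` with direction `1 / w`. -/
theorem reflect {x u w : ℂ} {r : ℝ} (hu : ‖u‖ = 1) (hw : ‖w‖ = 1) {h : ℂ → ℂ}
    (hc : ContinuousOn h {z | z ∈ ball x r ∧ 0 ≤ ((z - x) / u).im})
    (hd : ∀ z ∈ ball x r, 0 < ((z - x) / u).im → DifferentiableAt ℂ h z)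
    (hre : ∀ z ∈ ball x r, ((z - x) / u).im = 0 → (w * (h z - h x)).im = 0) :
    ∃ g : ℂ → ℂ, DifferentiableOn ℂ g (ball x r) ∧
      (∀ z ∈ ball x r, 0 ≤ ((z - x) / u).im → g z = h z) ∧
      (∀ z ∈ ball x r, ((z - x) / u).im = 0 → (w * u * deriv g z).im = 0) ∧
      (∀ (c : ℂ) (M : ℝ), (∀ z ∈ ball x r, 0 ≤ ((z - x) / u).im → ‖h z - c‖ ≤ M) →
        ∀ z ∈ ball x r, ‖g z - h x‖ ≤ 2 * M) := by
  have hu0 : u ≠ 0 := by
    intro h0
    simp [h0] at hu
  have hw0 : w ≠ 0 := by
    intro h0
    simp [h0] at hw
  have hb1 : ∀ z : ℂ, z ∈ ball (0 : ℂ) r → x + u * z ∈ ball x r := by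
    intro z hz
    rw [mem_ball_zero_iff] at hz
    simpa [mem_ball, dist_eq_norm, hu] using hz
  have hb2 : ∀ z : ℂ, z ∈ ball x r → (z - x) / u ∈ ball (0 : ℂ) r := by
    intro z hz
    rw [mem_ball, dist_eq_norm] at hz
    simpa [mem_ball_zero_iff, hu] using hz
  have hq : ∀ z : ℂ, (x + u * z - x) / u = z := by
    intro z
    field_simp
    ring
  obtain ⟨g, g1, g2, g3⟩ := reflect_core (r := r) (h := fun z => w * (h (x + u * z) - h x))
    (by
      refine ContinuousOn.mul continuousOn_const (ContinuousOn.sub (hc.comp (by fun_prop) ?_)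
        continuousOn_const)
      intro z hz
      refine ⟨hb1 z hz.1, ?_⟩
      rw [hq]
      exact hz.2)
    (by
      intro z hz him
      have h1 : DifferentiableAt ℂ h (x + u * z) := hd _ (hb1 z hz) (by rw [hq]; exact him)
      have h2 : DifferentiableAt ℂ (fun z : ℂ => x + u * z) z := by fun_prop
      have h3 : DifferentiableAt ℂ (fun z : ℂ => h (x + u * z)) z := h1.comp z h2
      exact (h3.sub_const _).const_mul _)
    (by
      intro z hz him
      exact hre _ (hb1 z hz) (by rw [hq]; exact him))
  set k : ℂ → ℂ := fun z => h x + w⁻¹ * g ((z - x) / u) with hk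
  have kd : ∀ z ∈ ball x r, HasDerivAt k (w⁻¹ * (deriv g ((z - x) / u) * u⁻¹)) z := by
    intro z hz
    have h1 : HasDerivAt g (deriv g ((z - x) / u)) ((z - x) / u) :=
      (g1.differentiableAt (isOpen_ball.mem_nhds (hb2 z hz))).hasDerivAt
    have h2 : HasDerivAt (fun z : ℂ => (z - x) / u) u⁻¹ z := by
      have := ((hasDerivAt_id z).sub_const x).div_const u
      simpa using this
    have h3 : HasDerivAt (fun z : ℂ => g ((z - x) / u)) (deriv g ((z - x) / u) * u⁻¹) z :=
      h1.comp z h2
    exact (h3.const_mul w⁻¹).const_add (h x)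
  have kn : ∀ z : ℂ, k z - h x = w⁻¹ * g ((z - x) / u) := by
    intro z
    simp [hk]
  refine ⟨k, fun z hz => (kd z hz).differentiableAt.differentiableWithinAt, ?_, ?_, ?_⟩
  · intro z hz him
    have h1 := g2 _ (hb2 z hz) him
    have h2 : x + u * ((z - x) / u) = z := by
      field_simp
      ring
    simp only [hk, h1, h2]
    field_simp
    ring
  · intro z hz him
    rw [(kd z hz).deriv]
    have hgz : ((z - x) / u) ∈ ball (0 : ℂ) r := hb2 z hz
    -- the derivative of `g` at real points is real
    have h1 : HasDerivAt g (deriv g ((z - x) / u)) ((z - x) / u) :=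
      (g1.differentiableAt (isOpen_ball.mem_nhds hgz)).hasDerivAt
    have h2 := h1.conj_conj
    have hreal : (conj ((z - x) / u)) = (z - x) / u := Complex.conj_eq_iff_im.2 him
    rw [hreal] at h2
    have h3 : (conj ∘ g ∘ conj) =ᶠ[𝓝 ((z - x) / u)] g := by
      filter_upwards [isOpen_ball.mem_nhds hgz] with y hy
      simp [g3 y hy]
    have h4 : deriv g ((z - x) / u) = conj (deriv g ((z - x) / u)) :=
      h1.unique (h3.hasDerivAt_iff.1 h2)
    have h5 : (deriv g ((z - x) / u)).im = 0 := Complex.conj_eq_iff_im.1 h4.symm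
    have h6 : w * u * (w⁻¹ * (deriv g ((z - x) / u) * u⁻¹)) = deriv g ((z - x) / u) := by
      field_simp
    rw [h6]
    exact h5
  · intro c M hM z hz
    have hx : x ∈ ball x r := by
      rw [mem_ball] at hz ⊢
      rw [dist_self]
      exact lt_of_le_of_lt dist_nonneg hz
    have hcx : ‖h x - c‖ ≤ M := hM x hx (by simp)
    have key : ∀ y ∈ ball (0 : ℂ) r, 0 ≤ y.im → ‖g y‖ ≤ 2 * M := by
      intro y hy him
      rw [g2 y hy him, norm_mul, hw, one_mul]
      have h1 := hM (x + u * y) (hb1 y hy) (by rw [hq]; exact him)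
      calc ‖h (x + u * y) - h x‖ = ‖(h (x + u * y) - c) - (h x - c)‖ := by ring_nf
        _ ≤ ‖h (x + u * y) - c‖ + ‖h x - c‖ := norm_sub_le _ _
        _ ≤ 2 * M := by linarith
    rw [kn, norm_mul, norm_inv, hw, inv_one, one_mul]
    rcases le_total 0 ((z - x) / u).im with h4 | h4
    · exact key _ (hb2 z hz) h4
    · have h5 := key (conj ((z - x) / u))
        (by rw [mem_ball_zero_iff, Complex.norm_conj, ← mem_ball_zero_iff]; exact hb2 z hz)
        (by rw [Complex.conj_im]; linarith)
      rw [g3 _ (hb2 z hz), Complex.norm_conj] at h5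
      exact h5

/-- Cauchy estimate used everywhere: half of the radius, factor 4. -/
theorem deriv_le_of_ball {g : ℂ → ℂ} {x z : ℂ} {r M : ℝ} (hr : 0 < r)
    (hg : DifferentiableOn ℂ g (ball x r)) (hz : dist z x ≤ r / 2) {c : ℂ}
    (hM : ∀ y ∈ ball x r, ‖g y - c‖ ≤ M) : ‖deriv g z‖ ≤ 4 * M / r := by
  have hsub : closedBall z (r / 4) ⊆ ball x r := by
    intro y hy
    rw [mem_closedBall] at hy
    rw [mem_ball]
    calc dist y x ≤ dist y z + dist z x := dist_triangle _ _ _
      _ < r := by linarith
  have h1 : ‖deriv (fun y => g y - c) z‖ ≤ M / (r / 4) := by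
    refine Complex.norm_deriv_le_of_forall_mem_sphere_norm_le (by positivity) ?_ ?_
    · refine DifferentiableOn.diffContOnCl ?_
      rw [closure_ball z (by positivity)]
      exact (hg.sub_const c).mono hsub
    · intro y hy
      exact hM y (hsub (sphere_subset_closedBall hy))
  have h2 : deriv (fun y => g y - c) z = deriv g z := by simp
  rw [h2] at h1
  calc ‖deriv g z‖ ≤ M / (r / 4) := h1
    _ = 4 * M / r := by field_simp

/-- In a half-disc neighbourhood the closure is the closed half disc. -/
theorem mem_closure_half {P : Set ℂ} {x u : ℂ} {r : ℝ} (hu : ‖u‖ = 1)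
    (hP : ∀ z ∈ ball x r, z ∈ P ↔ 0 < ((z - x) / u).im) {z : ℂ} (hz : z ∈ ball x r) :
    z ∈ closure P ↔ 0 ≤ ((z - x) / u).im := by
  have hu0 : u ≠ 0 := by
    intro h0
    simp [h0] at hu
  have hcont : Continuous fun y : ℂ => ((y - x) / u).im := by fun_prop
  constructor
  · intro h1
    by_contra h2
    push Not at h2
    have h3 : ∀ᶠ y in 𝓝 z, y ∉ P := by
      filter_upwards [isOpen_ball.mem_nhds hz,
        (isOpen_lt hcont continuous_const).mem_nhds h2] with y hy hy2 hy3
      exact absurd ((hP y hy).1 hy3) (not_lt.2 (le_of_lt hy2))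
    exact (mem_closure_iff_frequently.1 h1) h3
  · intro h1
    rw [mem_closure_iff_frequently]
    intro h2
    have h3 : Tendsto (fun t : ℝ => z + u * (t * I)) (𝓝[>] 0) (𝓝 z) := by
      have : Tendsto (fun t : ℝ => z + u * (t * I)) (𝓝 0) (𝓝 (z + u * ((0 : ℝ) * I))) := by
        apply Continuous.tendsto
        fun_prop
      simp only [ofReal_zero, zero_mul, mul_zero, add_zero] at this
      exact this.mono_left nhdsWithin_le_nhds
    have h4 : ∀ᶠ t : ℝ in 𝓝[>] 0, z + u * (t * I) ∉ P := h3.eventually h2
    have h5 : ∀ᶠ t : ℝ in 𝓝[>] 0, z + u * (t * I) ∈ ball x r :=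
      h3.eventually (isOpen_ball.mem_nhds hz)
    obtain ⟨t, h6, h7, h8⟩ := (h4.and (h5.and self_mem_nhdsWithin)).exists
    refine h6 ((hP _ h7).2 ?_)
    have h9 : (z + u * (t * I) - x) / u = (z - x) / u + t * I := by
      field_simp
      ring
    rw [h9]
    have : (0 : ℝ) < t := h8
    simp only [add_im, mul_im, ofReal_re, I_im, mul_one, ofReal_im, I_re, mul_zero, add_zero]
    linarith

/-- **Gradient bound up to straight sides.** `P` open, `E` the exceptional set (corners and
marks); every boundary point `x` at positive distance of `E` has the half-disc neighbourhood of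
radius `κ · dist(x, E)`, and `h` maps the diameter into a line. If `‖h - c‖ ≤ M` on the part of
`closure P` in the ball of radius `dist(z, E)` around `z ∈ P`, then
`‖h' z‖ ≤ (100 / κ) M / dist(z, E)`. -/
theorem deriv_bound {P E : Set ℂ} {κ : ℝ} (hκ : 0 < κ) (hκ1 : κ ≤ 1)
    (hPo : IsOpen P) {h : ℂ → ℂ} (hc : ContinuousOn h (closure P)) (hd : DifferentiableOn ℂ h P)
    (side : ∀ x ∈ frontier P, 0 < infDist x E → ∃ u w : ℂ, ‖u‖ = 1 ∧ ‖w‖ = 1 ∧
      (∀ z ∈ ball x (κ * infDist x E), z ∈ P ↔ 0 < ((z - x) / u).im) ∧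
      (∀ z ∈ ball x (κ * infDist x E), ((z - x) / u).im = 0 → (w * (h z - h x)).im = 0))
    {z : ℂ} (hz : z ∈ P) (hz0 : 0 < infDist z E) {M : ℝ} {c : ℂ}
    (hM : ∀ y ∈ closure P, dist y z < infDist z E → ‖h y - c‖ ≤ M) :
    ‖deriv h z‖ ≤ 100 / κ * M / infDist z E := by
  set d := infDist z E with hd0
  have hM0 : 0 ≤ M := (norm_nonneg _).trans (hM z (subset_closure hz) (by simpa using hz0))
  set δ := κ * d / 8 with hδ
  have hδ0 : 0 < δ := by positivity
  have hδd : 8 * δ ≤ d := by
    rw [hδ]
    nlinarith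
  by_cases hin : ball z δ ⊆ P
  · have h1 := deriv_le_of_ball (g := h) (x := z) (z := z) (r := δ) (M := M) (c := c) hδ0
      (hd.mono hin) (by simp; positivity) (fun y hy => hM y (subset_closure (hin hy)) (by
        rw [mem_ball] at hy
        linarith))
    refine h1.trans ?_
    have h2 : 4 * M / δ = 32 / κ * M / d := by
      rw [hδ]
      field_simp
      ring
    rw [h2]
    gcongr
    norm_num
  · -- a boundary point within distance `δ`
    obtain ⟨x, hx1, hx2⟩ : ∃ x ∈ frontier P, dist x z < δ := by
      obtain ⟨y, hy1, hy2⟩ := not_subset.1 hin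
      have hconn : IsPreconnected (closedBall z (dist y z)) :=
        (convex_closedBall z (dist y z)).isPreconnected
      have hne : (closedBall z (dist y z) ∩ frontier P).Nonempty := by
        by_contra hcon
        rw [not_nonempty_iff_eq_empty] at hcon
        have hcl : closedBall z (dist y z) ⊆ P ∪ (closure P)ᶜ := by
          intro v hv
          by_cases h1 : v ∈ P
          · exact Or.inl h1
          · right
            intro h2
            have : v ∈ closedBall z (dist y z) ∩ frontier P := by
              refine ⟨hv, ?_⟩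
              rw [hPo.frontier_eq]
              exact ⟨h2, h1⟩
            rw [hcon] at this
            exact this
        have h3 := hconn P (closure P)ᶜ hPo isClosed_closure.isOpen_compl hcl
          ⟨z, mem_closedBall_self dist_nonneg, hz⟩
          (by
            refine ⟨y, mem_closedBall.2 le_rfl, ?_⟩
            have := hcl (mem_closedBall.2 (le_refl (dist y z)))
            rcases this with h4 | h4
            · exact absurd h4 hy2
            · exact h4)
        obtain ⟨v, _, hv1, hv2⟩ := h3
        exact hv2 (subset_closure hv1)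
      obtain ⟨x, hx⟩ := hne
      exact ⟨x, hx.2, lt_of_le_of_lt (mem_closedBall.1 hx.1) (mem_ball.1 hy1)⟩
    -- reflection at `x`
    have hdx : d - δ ≤ infDist x E := by
      have := infDist_le_infDist_add_dist (s := E) (x := z) (y := x)
      rw [dist_comm z x] at this
      linarith
    have hx0 : 0 < infDist x E := by linarith
    obtain ⟨u, w, hu, hw, hP, hl⟩ := side x hx1 hx0
    set r := 6 * δ with hr
    have hr0 : 0 < r := by positivity
    have hrx : r ≤ κ * infDist x E := by
      have h1 : κ * (d - δ) ≤ κ * infDist x E := by gcongr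
      have h2 : κ * d = 8 * δ := by rw [hδ]; ring
      have h3 : κ * δ ≤ δ := by nlinarith
      rw [hr]
      nlinarith
    have hbr : ball x r ⊆ ball x (κ * infDist x E) := ball_subset_ball hrx
    have hin2 : ∀ y ∈ ball x r, dist y z < d := by
      intro y hy
      rw [mem_ball] at hy
      calc dist y z ≤ dist y x + dist x z := dist_triangle _ _ _
        _ < r + δ := by linarith
        _ ≤ d := by rw [hr]; linarith
    have hclo : ∀ y ∈ ball x r, 0 ≤ ((y - x) / u).im → y ∈ closure P := fun y hy him =>
      (mem_closure_half hu hP (hbr hy)).2 him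
    obtain ⟨g, g1, g2, -, g4⟩ := reflect (x := x) (u := u) (w := w) (r := r) hu hw (h := h)
      (hc.mono fun y hy => hclo y hy.1 hy.2)
      (fun y hy him => hd.differentiableAt (hPo.mem_nhds ((hP y (hbr hy)).2 him)))
      (fun y hy him => hl y (hbr hy) him)
    have hzx : dist z x ≤ r / 2 := by
      rw [dist_comm, hr]
      linarith
    have hzb : z ∈ ball x r := by
      rw [mem_ball]
      linarith
    have h1 := deriv_le_of_ball (c := h x) hr0 g1 hzx (g4 c M (fun y hy him =>
      hM y (hclo y hy him) (hin2 y hy)))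
    have h2 : deriv g z = deriv h z := by
      apply EventuallyEq.deriv_eq
      filter_upwards [isOpen_ball.mem_nhds hzb, hPo.mem_nhds hz] with y hy hyP
      exact g2 y hy ((hP y (hbr hy)).1 hyP).le
    rw [h2] at h1
    refine h1.trans ?_
    have h3 : 4 * (2 * M) / r = 32 / 3 / κ * M / d := by
      rw [hr, hδ]
      field_simp
      ring
    rw [h3]
    gcongr
    norm_num

end H33.Q1
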