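import Mathlib
import Pool.Agent.H33.Q1.TileEnv

set_option autoImplicit false
open Finset

/-! # Wall points and outer layers of a tile polygon

For a side `s` (domain on the left) at scale `n`: `wp n s j` = `j`-th wall point (tile grid coordinates,
`j = 0` the tail, `j = n` the head); `it`, `ot`, `ot2` = inner tile, first and second outer tile between
the wall points `j` and `j + 1`. `ot n s n` is the diagonal tile at a convex head, `ot n s (-1)` the one at
a convex tail. `vtx`, `fct` = vertex, face of a tile grid point. -/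

namespace Pool.Agent.H33.Q1

open Pool.Agent.H75.Perc hiding WL CT hh
open Pool.Agent.H75.TwoArm Pool.Agent.H75.Four Pool.Agent.H69.Q1 Pool.Agent.Q1
open Pool.Agent.Q1.M4 (Cell Good IsSide nextSide tail head PType Adj4 Conn4)

/-- wall point -/
def wp (n : ℤ) (s : Cell × ℤ) (j : ℤ) : ℤ × ℤ :=
  (n * (tail s).1 + j * (dir s.2).1, n * (tail s).2 + j * (dir s.2).2)

/-- offset of the inner tile -/
def io (l : ℤ) : ℤ × ℤ :=
  if l % 4 = 0 then (0, 0) else if l % 4 = 1 then (-1, 0) else if l % 4 = 2 then (-1, -1) else (0, -1)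

/-- inner tile between the wall points `j`, `j + 1` -/
def it (n : ℤ) (s : Cell × ℤ) (j : ℤ) : ℤ × ℤ := wp n s j + io s.2

/-- first outer tile between the wall points `j`, `j + 1` -/
def ot (n : ℤ) (s : Cell × ℤ) (j : ℤ) : ℤ × ℤ := it n s j + dir (s.2 - 1)

/-- second outer tile -/
def ot2 (n : ℤ) (s : Cell × ℤ) (j : ℤ) : ℤ × ℤ := ot n s j + dir (s.2 - 1)

lemma io_dir (l : ℤ) : (l % 4 = 0 ∧ io l = (0, 0) ∧ dir l = (1, 0) ∧ dir (l - 1) = (0, -1)) ∨
    (l % 4 = 1 ∧ io l = (-1, 0) ∧ dir l = (0, 1) ∧ dir (l - 1) = (1, 0)) ∨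
    (l % 4 = 2 ∧ io l = (-1, -1) ∧ dir l = (-1, 0) ∧ dir (l - 1) = (0, 1)) ∨
    (l % 4 = 3 ∧ io l = (0, -1) ∧ dir l = (0, -1) ∧ dir (l - 1) = (-1, 0)) := by
  rcases dir_cases l with ⟨a, e⟩ | ⟨a, e⟩ | ⟨a, e⟩ | ⟨a, e⟩ <;>
  rcases dir_cases (l - 1) with ⟨b, f⟩ | ⟨b, f⟩ | ⟨b, f⟩ | ⟨b, f⟩ <;>
  first
  | (exfalso; omega)
  | skip
  · left; exact ⟨a, by unfold io; rw [if_pos a], e, f⟩
  · right; left; exact ⟨a, by unfold io; rw [if_neg (by omega), if_pos a], e, f⟩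
  · right; right; left
    exact ⟨a, by unfold io; rw [if_neg (by omega), if_neg (by omega), if_pos a], e, f⟩
  · right; right; right
    exact ⟨a, by unfold io; rw [if_neg (by omega), if_neg (by omega), if_neg (by omega)], e, f⟩

/-- the tail, by cases -/
lemma tail_io (s : Cell × ℤ) : tail s = s.1 - io s.2 := by
  rw [tail_eq]
  unfold io
  split_ifs <;> refine Prod.ext ?_ ?_ <;> simp

/-- explicit form of the outer tile -/
lemma ot_eq (n : ℤ) (s : Cell × ℤ) (j : ℤ) :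
    (s.2 % 4 = 0 → ot n s j = wp n s j + (0, -1)) ∧ (s.2 % 4 = 1 → ot n s j = wp n s j) ∧
    (s.2 % 4 = 2 → ot n s j = wp n s j + (-1, 0)) ∧ (s.2 % 4 = 3 → ot n s j = wp n s j + (-1, -1)) := by
  unfold ot it
  rcases io_dir s.2 with ⟨a, b, -, d⟩ | ⟨a, b, -, d⟩ | ⟨a, b, -, d⟩ | ⟨a, b, -, d⟩ <;>
    rw [b, d] <;> refine ⟨fun h => ?_, fun h => ?_, fun h => ?_, fun h => ?_⟩ <;>
    first
    | (exfalso; omega)
    | (refine Prod.ext ?_ ?_ <;> simp)

lemma ct_it {n : ℤ} (s : Cell × ℤ) {j : ℤ} (h0 : 0 ≤ j) (h1 : j < n) :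
    ct n (it n s j) = s.1 := by
  have hn : 0 < n := by omega
  rw [ct_eq hn]
  unfold it wp
  rw [tail_io]
  rcases io_dir s.2 with ⟨-, b, c, -⟩ | ⟨-, b, c, -⟩ | ⟨-, b, c, -⟩ | ⟨-, b, c, -⟩ <;>
    rw [b, c] <;> simp only [Prod.fst_add, Prod.snd_add, Prod.fst_sub, Prod.snd_sub] <;>
    refine ⟨⟨?_, ?_⟩, ?_, ?_⟩ <;> nlinarith

lemma ct_add_dir {n : ℤ} (hn : 0 < n) {p : ℤ × ℤ} {c : Cell} {k : ℤ}
    (h : ct n (p + dir k) = c) : ct n p = c ∨ ct n p = c - dir k := by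
  rw [ct_eq hn] at h
  rcases dir_cases k with ⟨-, e⟩ | ⟨-, e⟩ | ⟨-, e⟩ | ⟨-, e⟩ <;> rw [e] at h ⊢ <;>
    simp only [Prod.fst_add, Prod.snd_add] at h <;> rw [ct_eq hn, ct_eq hn] <;>
    simp only [Prod.fst_sub, Prod.snd_sub]
  · by_cases h1 : c.1 * n ≤ p.1
    · left; omega
    · right; refine ⟨⟨?_, ?_⟩, ?_, ?_⟩ <;> nlinarith
  · by_cases h1 : c.2 * n ≤ p.2
    · left; omega
    · right; refine ⟨⟨?_, ?_⟩, ?_, ?_⟩ <;> nlinarith
  · by_cases h1 : p.1 < c.1 * n + n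
    · left; omega
    · right; refine ⟨⟨?_, ?_⟩, ?_, ?_⟩ <;> nlinarith
  · by_cases h1 : p.2 < c.2 * n + n
    · left; omega
    · right; refine ⟨⟨?_, ?_⟩, ?_, ?_⟩ <;> nlinarith

lemma ct_ot {n : ℤ} (s : Cell × ℤ) {j : ℤ} (h0 : 0 ≤ j) (h1 : j < n) :
    ct n (ot n s j) = s.1 + dir (s.2 - 1) := by
  have hn : 0 < n := by omega
  rw [ct_eq hn]
  unfold ot it wp
  rw [tail_io]
  rcases io_dir s.2 with ⟨-, b, c, d⟩ | ⟨-, b, c, d⟩ | ⟨-, b, c, d⟩ | ⟨-, b, c, d⟩ <;>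
    rw [b, c, d] <;> simp only [Prod.fst_add, Prod.snd_add, Prod.fst_sub, Prod.snd_sub] <;>
    refine ⟨⟨?_, ?_⟩, ?_, ?_⟩ <;> nlinarith

/-- **The first outer layer.** -/
theorem mem_LY' {n : ℤ} (hn : 0 < n) {s : Cell × ℤ} {e : ℤ × ℤ} :
    e ∈ LY n s ↔ ∃ j, (0 ≤ j ∧ j < n) ∧ e = lt (ot n s j) := by
  rw [mem_LY hn]
  constructor
  · rintro ⟨h1, h2, h3⟩
    have key : ∃ j, (0 ≤ j ∧ j < n) ∧ tt e = ot n s j := by
      rw [ct_eq hn] at h2 h3
      unfold ot it wp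
      rw [tail_io]
      rcases io_dir s.2 with ⟨-, b, c, d⟩ | ⟨-, b, c, d⟩ | ⟨-, b, c, d⟩ | ⟨-, b, c, d⟩ <;>
        rw [d] at h2 h3 <;> rw [b, c, d] <;>
        simp only [Prod.fst_add, Prod.snd_add, Prod.fst_sub, Prod.snd_sub] at h2 h3
      · refine ⟨(tt e).1 - s.1.1 * n, ⟨by omega, by omega⟩, Prod.ext ?_ ?_⟩ <;>
          simp only [Prod.fst_add, Prod.snd_add, Prod.fst_sub, Prod.snd_sub]
        · ring
        · have e1 : (s.1.2 + -1) * n = s.1.2 * n - n := by ring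
          have e2 : n * s.1.2 = s.1.2 * n := by ring
          rw [e1] at h2
          simp only [sub_zero, mul_zero, add_zero, e2]
          omega
      · refine ⟨(tt e).2 - s.1.2 * n, ⟨by omega, by omega⟩, Prod.ext ?_ ?_⟩ <;>
          simp only [Prod.fst_add, Prod.snd_add, Prod.fst_sub, Prod.snd_sub]
        · have e1 : (s.1.1 + 1) * n = s.1.1 * n + n := by ring
          have e2 : n * (s.1.1 - -1) = s.1.1 * n + n := by ring
          rw [e1] at h2
          rw [e2]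
          omega
        · ring
      · refine ⟨s.1.1 * n + n - 1 - (tt e).1, ⟨by omega, by omega⟩, Prod.ext ?_ ?_⟩ <;>
          simp only [Prod.fst_add, Prod.snd_add, Prod.fst_sub, Prod.snd_sub]
        · ring
        · have e1 : (s.1.2 + 1) * n = s.1.2 * n + n := by ring
          have e2 : n * (s.1.2 - -1) = s.1.2 * n + n := by ring
          rw [e1] at h2
          rw [e2]
          omega
      · refine ⟨s.1.2 * n + n - 1 - (tt e).2, ⟨by omega, by omega⟩, Prod.ext ?_ ?_⟩ <;>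
          simp only [Prod.fst_add, Prod.snd_add, Prod.fst_sub, Prod.snd_sub]
        · have e1 : (s.1.1 + -1) * n = s.1.1 * n - n := by ring
          have e2 : n * s.1.1 = s.1.1 * n := by ring
          rw [e1] at h2
          simp only [sub_zero, mul_zero, add_zero, e2]
          omega
        · ring
    obtain ⟨j, hj, h4⟩ := key
    exact ⟨j, hj, by rw [← h4, lt_tt h1]⟩
  · rintro ⟨j, ⟨h1, h2⟩, rfl⟩
    rw [tt_lt]
    refine ⟨lt_odd _, ct_ot s h1 h2, ?_⟩
    have : ot n s j - dir (s.2 - 1) = it n s j := by unfold ot; rw [add_sub_cancel_right]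
    rw [this]
    exact ct_it s h1 h2

/-! ### Vertices and faces of tile grid points -/

/-- vertex of a tile grid point with even sum -/
def vtx (p : ℤ × ℤ) : ℤ × ℤ := ((p.1 - p.2) / 2, (p.1 + p.2) / 2)

/-- face of a tile grid point with odd sum -/
def fct (p : ℤ × ℤ) : ℤ × ℤ := ((p.1 - p.2 + 1) / 2, (p.1 + p.2 + 1) / 2)

lemma tv_vtx {p : ℤ × ℤ} (h : (p.1 + p.2) % 2 = 0) : tv (vtx p) = p := by
  unfold tv vtx
  refine Prod.ext ?_ ?_ <;> simp only <;> omega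

lemma vtx_tv (v : ℤ × ℤ) : vtx (tv v) = v := by
  unfold tv vtx
  refine Prod.ext ?_ ?_ <;> simp only <;> omega

lemma tf_fct {p : ℤ × ℤ} (h : (p.1 + p.2) % 2 = 1) : tf (fct p) = p := by
  unfold tf fct
  refine Prod.ext ?_ ?_ <;> simp only <;> omega

lemma fct_tf (f : ℤ × ℤ) : fct (tf f) = f := by
  unfold tf fct
  refine Prod.ext ?_ ?_ <;> simp only <;> omega

/-- the ends of the label of a tile -/
lemma ends_lt (p : ℤ × ℤ) : ((p.1 + p.2) % 2 = 0 → eu (lt p) = vtx p ∧ ev (lt p) = vtx (p + (1, 1))) ∧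
    ((p.1 + p.2) % 2 = 1 → eu (lt p) = vtx (p + (0, 1)) ∧ ev (lt p) = vtx (p + (1, 0))) := by
  unfold eu ev lt vtx
  refine ⟨fun h => ⟨?_, ?_⟩, fun h => ⟨?_, ?_⟩⟩ <;> refine Prod.ext ?_ ?_ <;>
    simp only [Prod.fst_add, Prod.snd_add] <;> omega

/-- an open tile joins its two vertices -/
lemma co_tile {w : Finset (ℤ × ℤ)} {p : ℤ × ℤ} (h : lt p ∈ w) :
    ((p.1 + p.2) % 2 = 0 → Co w (vtx p) (vtx (p + (1, 1)))) ∧
    ((p.1 + p.2) % 2 = 1 → Co w (vtx (p + (0, 1))) (vtx (p + (1, 0)))) := by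
  have ho := lt_odd p
  have hee := Pool.Agent.H75.Four.PivAux.eu_ev ho
  have hco : Co w (eu (lt p)) (ev (lt p)) :=
    Relation.ReflTransGen.single ⟨hee.1, by rw [hee.2]; exact h⟩
  obtain ⟨h0, h1⟩ := ends_lt p
  refine ⟨fun h2 => ?_, fun h2 => ?_⟩
  · rw [← (h0 h2).1, ← (h0 h2).2]; exact hco
  · rw [← (h1 h2).1, ← (h1 h2).2]; exact hco

/-- a closed tile joins its two faces -/
lemma dco_tile {w : Finset (ℤ × ℤ)} {p : ℤ × ℤ} (h : lt p ∉ w) :
    ((p.1 + p.2) % 2 = 1 → DCo w (fct p) (fct (p + (1, 1)))) ∧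
    ((p.1 + p.2) % 2 = 0 → DCo w (fct (p + (0, 1))) (fct (p + (1, 0)))) := by
  refine ⟨fun h2 => DCo.step ?_ ?_, fun h2 => DCo.step ?_ ?_⟩
  · unfold IsUnit4 fct
    simp only [Prod.ext_iff, Prod.fst_add, Prod.snd_add, Prod.fst_sub, Prod.snd_sub]
    omega
  · convert h using 2
    unfold fct lt
    refine Prod.ext ?_ ?_ <;> simp only [Prod.fst_add, Prod.snd_add, Prod.fst_sub, Prod.snd_sub] <;> omega
  · unfold IsUnit4 fct
    simp only [Prod.ext_iff, Prod.fst_add, Prod.snd_add, Prod.fst_sub, Prod.snd_sub]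
    omega
  · convert h using 2
    unfold fct lt
    refine Prod.ext ?_ ?_ <;> simp only [Prod.fst_add, Prod.snd_add, Prod.fst_sub, Prod.snd_sub] <;> omega

lemma wp_add (n : ℤ) (s : Cell × ℤ) (j i : ℤ) :
    wp n s (j + i) = wp n s j + (i * (dir s.2).1, i * (dir s.2).2) := by
  unfold wp
  refine Prod.ext ?_ ?_ <;> simp only [Prod.fst_add, Prod.snd_add] <;> ring

/-- two successive outer tiles, first open: from a wall vertex to the outer vertex -/
lemma co_ot {w : Finset (ℤ × ℤ)} {n : ℤ} {s : Cell × ℤ} {j : ℤ} (h : lt (ot n s j) ∈ w) :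
    (((wp n s j).1 + (wp n s j).2) % 2 = 0 →
      Co w (vtx (wp n s j)) (vtx (wp n s (j + 1) + dir (s.2 - 1)))) ∧
    (((wp n s j).1 + (wp n s j).2) % 2 = 1 →
      Co w (vtx (wp n s j + dir (s.2 - 1))) (vtx (wp n s (j + 1)))) := by
  obtain ⟨o0, o1, o2, o3⟩ := ot_eq n s j
  rw [wp_add]
  set p := wp n s j with hp
  rcases io_dir s.2 with ⟨a, -, c, d⟩ | ⟨a, -, c, d⟩ | ⟨a, -, c, d⟩ | ⟨a, -, c, d⟩ <;> rw [c, d]
  · rw [o0 a] at h
    obtain ⟨t0, t1⟩ := co_tile h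
    constructor <;> intro h2
    · have := t1 (by simp only [Prod.fst_add, Prod.snd_add]; omega)
      convert this using 2 <;> refine Prod.ext ?_ ?_ <;> simp
    · have := t0 (by simp only [Prod.fst_add, Prod.snd_add]; omega)
      convert this using 2 <;> refine Prod.ext ?_ ?_ <;> simp
  · rw [o1 a] at h
    obtain ⟨t0, t1⟩ := co_tile h
    constructor <;> intro h2
    · have := t0 h2
      convert this using 2 <;> refine Prod.ext ?_ ?_ <;> simp
    · have := (t1 h2).symm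
      convert this using 2 <;> refine Prod.ext ?_ ?_ <;> simp
  · rw [o2 a] at h
    obtain ⟨t0, t1⟩ := co_tile h
    constructor <;> intro h2
    · have := (t1 (by simp only [Prod.fst_add, Prod.snd_add]; omega)).symm
      convert this using 2 <;> refine Prod.ext ?_ ?_ <;> simp
    · have := (t0 (by simp only [Prod.fst_add, Prod.snd_add]; omega)).symm
      convert this using 2 <;> refine Prod.ext ?_ ?_ <;> simp
  · rw [o3 a] at h
    obtain ⟨t0, t1⟩ := co_tile h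
    constructor <;> intro h2
    · have := (t0 (by simp only [Prod.fst_add, Prod.snd_add]; omega)).symm
      convert this using 2 <;> refine Prod.ext ?_ ?_ <;> simp
    · have := t1 (by simp only [Prod.fst_add, Prod.snd_add]; omega)
      convert this using 2 <;> refine Prod.ext ?_ ?_ <;> simp

end Pool.Agent.H33.Q1
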