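import Mathlib
import Pool.Agent.Q1.M6c.Uniq
import Pool.Agent.Q1.M6c.Flat
import Pool.Agent.H77.Q1.K3e

set_option autoImplicit false
open Finset

/-! # Solid flattening, deterministic half

`S` is a connected set of labels, `A`, `A'` are two configurations outside `S`. If the arcs of the
exploration outside `S` are the same for `A` and `A'`, the corners of `S` on the loop of a corner `ct`
of `S` are the same for `η ∪ A` and `η ∪ A'`, for every `η ⊆ S`. By uniqueness of the entrance the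
arcs are the same if no exit is newly joined to the wall. -/

namespace Pool.Agent.H33.Q1

open Pool.Agent.H75.Perc Pool.Agent.H75.TwoArm Pool.Agent.H75.Four Pool.Agent.H69.Q1 Pool.Agent.Q1
open Pool.Agent.H75.TwoArm.StrandAux hiding vx_nxC
open Pool.Agent.Q1.Env (TConn TAdj)

/-- The strand from `y` enters `S` at `c`. -/
def Arc (S A : Finset (ℤ × ℤ)) (y c : ℤ × ℤ) : Prop :=
  ∃ n, (∀ j < n, lab ((nx A)^[j] y) ∉ S) ∧ (nx A)^[n] y = c ∧ lab c ∈ S

lemma Arc.unique {S A : Finset (ℤ × ℤ)} {y c c' : ℤ × ℤ} (h : Arc S A y c) (h' : Arc S A y c') :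
    c = c' := by
  obtain ⟨n, h1, h2, h3⟩ := h
  obtain ⟨m, k1, k2, k3⟩ := h'
  rcases lt_trichotomy n m with h4 | h4 | h4
  · exact absurd (by rw [h2]; exact h3) (k1 n h4)
  · rw [← h2, ← k2, h4]
  · exact absurd (by rw [k2]; exact k3) (h1 m h4)

/-- The strand which leaves `S` comes back to `S`. -/
lemma exists_arc {S A : Finset (ℤ × ℤ)} {y : ℤ × ℤ} (hy : plab y ∈ S) : ∃ c, Arc S A y c := by
  classical
  obtain ⟨L, hL⟩ := exists_orb_nx A y
  have hex : ∃ n, lab ((nx A)^[n] y) ∈ S := by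
    refine ⟨L - 1, ?_⟩
    have h1 : nx A ((nx A)^[L - 1] y) = y := by
      rw [← Function.iterate_succ_apply' (nx A), Nat.succ_eq_add_one, Nat.sub_add_cancel hL.pos]
      exact hL.per
    have h2 := plab_nx A ((nx A)^[L - 1] y)
    rw [h1] at h2
    rw [← h2]; exact hy
  exact ⟨(nx A)^[Nat.find hex] y, Nat.find hex, fun j hj => Nat.find_min hex hj, rfl,
    Nat.find_spec hex⟩

lemma Arc.plab_notMem {S A : Finset (ℤ × ℤ)} {y c : ℤ × ℤ} (h : Arc S A y c) (hy : lab y ∉ S) :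
    plab c ∉ S := by
  obtain ⟨n, h1, h2, h3⟩ := h
  rcases Nat.eq_zero_or_pos n with h4 | h4
  · subst h4
    exact absurd (by rw [← h2] at h3; exact h3) hy
  · have h5 : n = (n - 1) + 1 := by omega
    rw [h5, Function.iterate_succ_apply'] at h2
    rw [← h2, plab_nx]
    exact h1 _ (by omega)

lemma Arc.co {S A : Finset (ℤ × ℤ)} {y c : ℤ × ℤ} (h : Arc S A y c) : Co A (vx y) (vx c) := by
  obtain ⟨n, -, rfl, -⟩ := h
  exact co_orb A y n

/-- dual connection along an arc -/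
lemma Arc.dual {S A B : Finset (ℤ × ℤ)} {y c : ℤ × ℤ} (h : Arc S A y c)
    (hB : ∀ j, lab ((nx A)^[j] y) ∈ B) : Co (du B (A ∪ S)) (fi y) (fi c) := by
  obtain ⟨n, h1, rfl, -⟩ := h
  have key : ∀ j ≤ n, Co (du B (A ∪ S)) (fi y) (fi ((nx A)^[j] y)) := by
    intro j
    induction j with
    | zero => intro _; exact Co.refl _ _
    | succ j ih =>
      intro hj
      have ih := ih (by omega)
      have hS := h1 j (by omega)
      have hb := hB j
      rw [Function.iterate_succ_apply']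
      set z := (nx A)^[j] y
      by_cases hl : lab z ∈ A
      · have h2 : nx A z = nxO z := by unfold nx; rw [if_pos hl]
        rw [h2, fi_nxO]
        exact ih
      · have h2 : nx A z = nxC z := by unfold nx; rw [if_neg hl]
        rw [h2]
        refine ih.tail (Pool.Agent.H77.Q1.ad_du.2 ⟨(fi_nxC z).1, ?_, ?_⟩)
        · rw [Pool.Agent.H77.Q1.lbf_nxC]; exact hb
        · rw [Pool.Agent.H77.Q1.lbf_nxC, mem_union, not_or]
          exact ⟨hl, hS⟩
  exact key n le_rfl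

lemma Arc.dco {S A : Finset (ℤ × ℤ)} {y c : ℤ × ℤ} (h : Arc S A y c) :
    DCo (A ∪ S) (fi y) (fi c) := by
  classical
  obtain ⟨L, hL⟩ := exists_orb_nx A y
  refine ⟨(range L).image fun j => lab ((nx A)^[j] y), h.dual fun j => ?_⟩
  rw [mem_image]
  obtain ⟨i, hi, hij⟩ := (hL.inOrb_iff ((nx A)^[j] y)).1 ⟨j, rfl⟩
  exact ⟨i, mem_range.2 hi, by rw [hij]⟩

/-- The arcs outside `S` are the same. -/
def SameArcs (S A A' : Finset (ℤ × ℤ)) : Prop :=
  ∀ y c, plab y ∈ S → lab y ∉ S → Arc S A' y c → Arc S A y c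

/-- If the arcs agree, the orbits inside `S` agree. -/
theorem SameArcs.inOrb {S A A' : Finset (ℤ × ℤ)} (h : SameArcs S A A') {ct : ℤ × ℤ}
    (hct : lab ct ∈ S) {η : Finset (ℤ × ℤ)} (hη : η ⊆ S) (dA : Disjoint A S) (dA' : Disjoint A' S) :
    ∀ n, lab ((nx (η ∪ A'))^[n] ct) ∈ S → InOrb (nx (η ∪ A)) ct ((nx (η ∪ A'))^[n] ct) := by
  intro n
  induction n using Nat.strong_induction_on with
  | _ n ih =>
  intro hn
  rcases Nat.eq_zero_or_pos n with h0 | h0
  · subst h0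
    exact ⟨0, rfl⟩
  -- the last corner of `S` before `n`
  have hex : ∃ m < n, lab ((nx (η ∪ A'))^[m] ct) ∈ S ∧
      ∀ j, m < j → j < n → lab ((nx (η ∪ A'))^[j] ct) ∉ S := by
    classical
    have hne : ((range n).filter fun m => lab ((nx (η ∪ A'))^[m] ct) ∈ S).Nonempty :=
      ⟨0, mem_filter.2 ⟨mem_range.2 h0, hct⟩⟩
    obtain ⟨m, h1, h2⟩ := exists_max_image _ id hne
    rw [mem_filter, mem_range] at h1
    refine ⟨m, h1.1, h1.2, fun j hj1 hj2 hj3 => ?_⟩
    have := h2 j (mem_filter.2 ⟨mem_range.2 hj2, hj3⟩)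
    simp only [id_eq] at this
    omega
  obtain ⟨m, hmn, hm, hmj⟩ := hex
  have ih := ih m hmn hm
  set z := (nx (η ∪ A'))^[m] ct with hz
  have hmem : (lab z ∈ η ∪ A ↔ lab z ∈ η ∪ A') := by
    rw [mem_union, mem_union]
    have h1 : lab z ∉ A := fun h2 => disjoint_left.1 dA h2 hm
    have h2 : lab z ∉ A' := fun h2 => disjoint_left.1 dA' h2 hm
    tauto
  have hnx : nx (η ∪ A) z = nx (η ∪ A') z := nx_congr hmem
  set y := nx (η ∪ A') z with hy
  have hy1 : InOrb (nx (η ∪ A)) ct y := by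
    have h1 := inOrb_trans ih (inOrb_nx (η ∪ A) z)
    rwa [hnx] at h1
  have hpy : plab y ∈ S := by rw [hy, plab_nx]; exact hm
  have hyn : (nx (η ∪ A'))^[n] ct = (nx (η ∪ A'))^[n - m - 1] y := by
    have h1 : n = (n - m - 1) + (m + 1) := by omega
    conv_lhs => rw [h1]
    rw [Function.iterate_add_apply, Function.iterate_succ_apply']
  rcases Nat.lt_or_ge (m + 1) n with h1 | h1
  · have hly : lab y ∉ S := by
      have := hmj (m + 1) (by omega) h1
      rwa [Function.iterate_succ_apply'] at this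
    -- iterates of `nx (η ∪ A')` and of `nx A'` agree until the entrance
    have hcong : ∀ {A : Finset (ℤ × ℤ)} {k : ℕ},
        (∀ j < k, lab ((nx A)^[j] y) ∉ S) → ∀ j ≤ k, (nx (η ∪ A))^[j] y = (nx A)^[j] y := by
      intro A k hk j
      induction j with
      | zero => intro _; rfl
      | succ j ih =>
        intro hj
        rw [Function.iterate_succ_apply', Function.iterate_succ_apply', ih (by omega)]
        apply nx_congr
        rw [mem_union]
        have := hk j (by omega)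
        have h2 : lab ((nx A)^[j] y) ∉ η := fun h3 => this (hη h3)
        tauto
    have hcong' : ∀ {A : Finset (ℤ × ℤ)} {k : ℕ},
        (∀ j < k, lab ((nx (η ∪ A))^[j] y) ∉ S) →
          ∀ j ≤ k, (nx (η ∪ A))^[j] y = (nx A)^[j] y := by
      intro A k hk j
      induction j with
      | zero => intro _; rfl
      | succ j ih =>
        intro hj
        have ih := ih (by omega)
        have := hk j (by omega)
        rw [ih] at this
        rw [Function.iterate_succ_apply', Function.iterate_succ_apply', ih]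
        apply nx_congr
        rw [mem_union]
        have h2 : lab ((nx A)^[j] y) ∉ η := fun h3 => this (hη h3)
        tauto
    have hj' : ∀ j < n - m - 1, lab ((nx (η ∪ A'))^[j] y) ∉ S := by
      intro j hj
      have := hmj (m + 1 + j) (by omega) (by omega)
      have h2 : (nx (η ∪ A'))^[m + 1 + j] ct = (nx (η ∪ A'))^[j] y := by
        rw [Nat.add_comm, Function.iterate_add_apply, Function.iterate_succ_apply']
      rwa [h2] at this
    have hc1 := hcong' hj'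
    have harc : Arc S A' y ((nx (η ∪ A'))^[n] ct) := by
      refine ⟨n - m - 1, ?_, ?_, hn⟩
      · intro j hj
        rw [← hc1 j hj.le]; exact hj' j hj
      · rw [hyn, hc1 _ le_rfl]
    obtain ⟨k, k1, k2, k3⟩ := h y _ hpy hly harc
    have hc2 := hcong k1 k le_rfl
    rw [k2] at hc2
    exact inOrb_trans hy1 ⟨k, hc2⟩
  · have h2 : n - m - 1 = 0 := by omega
    rw [hyn, h2]
    exact hy1

lemma SameArcs.symm {S A A' : Finset (ℤ × ℤ)} (h : SameArcs S A A') : SameArcs S A' A := by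
  intro y c h1 h2 h3
  obtain ⟨c', hc'⟩ := exists_arc (A := A') h1
  have := h y c' h1 h2 hc'
  rw [h3.unique this]
  exact hc'

/-- If the arcs agree, being on the loop of `ct` is the same for the corners of `S`. -/
theorem SameArcs.inOrb_iff {S A A' : Finset (ℤ × ℤ)} (h : SameArcs S A A') {ct : ℤ × ℤ}
    (hct : lab ct ∈ S) {η : Finset (ℤ × ℤ)} (hη : η ⊆ S) (dA : Disjoint A S) (dA' : Disjoint A' S)
    {z : ℤ × ℤ} (hz : lab z ∈ S ∨ plab z ∈ S) :
    InOrb (nx (η ∪ A)) ct z ↔ InOrb (nx (η ∪ A')) ct z := by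
  have one : ∀ {A A' : Finset (ℤ × ℤ)}, SameArcs S A A' → Disjoint A S → Disjoint A' S →
      InOrb (nx (η ∪ A')) ct z → InOrb (nx (η ∪ A)) ct z := by
    intro A A' h dA dA' ho
    rcases hz with hz | hz
    · obtain ⟨n, rfl⟩ := ho
      exact h.inOrb hct hη dA dA' n hz
    · set z' := pv (η ∪ A') z with hz'
      have h1 : nx (η ∪ A') z' = z := nx_pv _ _
      have h2 : lab z' ∈ S := by rw [hz', lab_pv]; exact hz
      have h3 : InOrb (nx (η ∪ A')) ct z' := by
        refine inOrb_trans ho (inOrb_symm ?_)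
        have := inOrb_nx (η ∪ A') z'
        rwa [h1] at this
      obtain ⟨n, hn⟩ := h3
      have h4 := h.inOrb hct hη dA dA' n (by rw [hn]; exact h2)
      rw [hn] at h4
      have h5 : nx (η ∪ A) z' = nx (η ∪ A') z' := by
        apply nx_congr
        rw [mem_union, mem_union]
        have k1 : lab z' ∉ A := fun h6 => disjoint_left.1 dA h6 h2
        have k2 : lab z' ∉ A' := fun h6 => disjoint_left.1 dA' h6 h2
        tauto
      have h6 := inOrb_trans h4 (inOrb_nx (η ∪ A) z')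
      rwa [h5, h1] at h6
  exact ⟨one h.symm dA' dA, one h dA dA'⟩

/-- **Same arcs from uniqueness of the entrance.** -/
theorem sameArcs_of {S A A' : Finset (ℤ × ℤ)} (hS : TConn S)
    (hodd : ∀ e ∈ S, (e.1 + e.2) % 2 = 1) (dA : Disjoint A S)
    (h : ∀ y c, plab y ∈ S → lab y ∉ S → lab c ∈ S → plab c ∉ S → Arc S A' y c →
      Co A (vx y) (vx c) ∧ DCo (A ∪ S) (fi y) (fi c)) : SameArcs S A A' := by
  intro y c hy hy' hc
  obtain ⟨c', hc'⟩ := exists_arc (A := A) hy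
  obtain ⟨n, -, -, hcS⟩ := id hc
  obtain ⟨n', -, -, hcS'⟩ := id hc'
  obtain ⟨h1, h2⟩ := h y c hy hy' hcS (hc.plab_notMem hy') hc
  have : c = c' := by
    refine M6c.entrance_unique hS hodd dA hcS (hc.plab_notMem hy') hcS' (hc'.plab_notMem hy') ?_ ?_
    · exact h1.symm.trans hc'.co
    · exact h2.symm.trans hc'.dco
  rw [this]
  exact hc'

/-! ### Opening step -/

section op

open Pool.Agent.Q1.M3 (star kap)
open Pool.Agent.H77.Q1 (KT NJ lab_star ends_lab KD NJd starf)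

/-- connections avoid `O` if the first vertex is not joined to the root -/
lemma co_or {B O W : Finset (ℤ × ℤ)} {r : ℤ × ℤ}
    (hO : ∀ o ∈ O, Co (O ∪ W) (eu o) r ∧ Co (O ∪ W) (ev o) r) {a b : ℤ × ℤ}
    (h : Co (B ∪ O ∪ W) a b) : Co (B ∪ W) a b ∨ Co (B ∪ O ∪ W) a r := by
  induction h with
  | refl => exact Or.inl (Co.refl _ _)
  | @tail b c hab hbc ih =>
    rcases ih with ih | ih
    · obtain ⟨h1, h2⟩ := hbc
      rw [mem_union, mem_union] at h2
      by_cases h3 : b + c ∈ O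
      · right
        refine Co.trans hab (Co.mono (ω := O ∪ W) ?_ ?_)
        · intro l hl
          rw [mem_union] at hl
          rw [mem_union, mem_union]
          tauto
        · rcases ends_of_add h1 rfl with ⟨h4, -⟩ | ⟨h4, -⟩
          · rw [h4]; exact (hO _ h3).1
          · rw [h4]; exact (hO _ h3).2
      · left
        refine ih.tail ⟨h1, ?_⟩
        rw [mem_union]
        tauto
    · exact Or.inr ih

/-- The vertices of exits and entrances of `star K` are ring vertices. -/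
lemma ring_exit {K : Finset (ℤ × ℤ)} {c : ℤ × ℤ} (h1 : lab c ∈ star K) (h2 : plab c ∉ star K) :
    vx c ∉ K ∧ vx (opc c) ∈ K := by
  have hv : vx c ∉ K := by
    intro h3
    apply h2
    have h4 := nx_pv (∅ : Finset (ℤ × ℤ)) c
    set z := pv ∅ c with hz
    have h5 : lab z = plab c := lab_pv _ _
    rw [← h5, lab_star]
    left
    have h6 : nx ∅ z = nxC z := by unfold nx; rw [if_neg (notMem_empty _)]
    rw [h6] at h4
    rw [← vx_nxC, h4]
    exact h3
  exact ⟨hv, ((lab_star c).1 h1).resolve_left hv⟩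

lemma ring_exit' {K : Finset (ℤ × ℤ)} {c : ℤ × ℤ} (h1 : plab c ∈ star K) (h2 : lab c ∉ star K) :
    ∃ z, vx z ∈ K ∧ vx (opc z) ∉ K ∧ vx (opc z) = vx c := by
  have hv : vx c ∉ K := fun h3 => h2 ((lab_star c).2 (Or.inl h3))
  have h4 := nx_pv (∅ : Finset (ℤ × ℤ)) c
  set z := pv ∅ c with hz
  have h5 : lab z = plab c := lab_pv _ _
  have h6 : nx ∅ z = nxC z := by unfold nx; rw [if_neg (notMem_empty _)]
  rw [h6] at h4
  have h7 : vx z = vx c := by rw [← h4, vx_nxC]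
  rw [← h5, lab_star] at h1
  refine ⟨opc z, h1.resolve_left (by rw [h7]; exact hv), ?_, ?_⟩
  · rw [opc_opc, h7]; exact hv
  · rw [opc_opc, h7]

theorem sameArcs_open {K O W ω : Finset (ℤ × ℤ)} {ct : ℤ × ℤ} (hS : TConn (star K))
    (dω : Disjoint ω (star K)) (dW : Disjoint W (star K))
    (hO : ∀ o ∈ O, Co (O ∪ W) (eu o) (vx ct) ∧ Co (O ∪ W) (ev o) (vx ct))
    (hg : ¬ ∃ z, NJ O W K ct ω z) : SameArcs (star K) (ω ∪ W) (ω ∪ O ∪ W) := by
  refine sameArcs_of hS (fun e he => Pool.Agent.Q1.M3.odd_star he)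
    (disjoint_union_left.2 ⟨dω, dW⟩) ?_
  intro y c hy hy' hc hc' harc
  have hco := harc.co
  refine ⟨?_, harc.dco.anti (union_subset_union_left (union_subset_union_left subset_union_left))⟩
  have hgood : ∀ z, vx z ∈ K → vx (opc z) ∉ K → Co (ω ∪ O ∪ W) (vx (opc z)) (vx ct) →
      Co (ω ∪ W) (vx (opc z)) (vx ct) := by
    intro z h1 h2 h3
    by_contra h4
    exact hg ⟨z, h1, h2, h3, h4⟩
  rcases co_or hO hco with h1 | h1
  · exact h1
  · obtain ⟨z, hz1, hz2, hz3⟩ := ring_exit' hy hy'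
    obtain ⟨hc1, hc2⟩ := ring_exit hc hc'
    have h2 := hgood z hz1 hz2 (by rw [hz3]; exact h1)
    have h3 := hgood (opc c) hc2 (by rw [opc_opc]; exact hc1)
      (by rw [opc_opc]; exact hco.symm.trans h1)
    rw [opc_opc] at h3
    rw [hz3] at h2
    exact h2.trans h3.symm

/-! ### Closing step -/

lemma lab_starf {K : Finset (ℤ × ℤ)} (z : ℤ × ℤ) : lab z ∈ starf K ↔ fi z ∈ K ∨ fi (opc z) ∈ K := by
  rw [← H77.Q1.mem_dl_starf, ← H77.Q1.lab_dc, lab_star, H77.Q1.opc_dc, H77.Q1.vx_dc, H77.Q1.vx_dc]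
  have e : ∀ f, H77.Q1.tr f ∈ K.image H77.Q1.tr ↔ f ∈ K := by
    intro f
    rw [mem_image]
    constructor
    · rintro ⟨g, hg, h⟩
      exact (H77.Q1.tr_inj h) ▸ hg
    · exact fun h => ⟨_, h, rfl⟩
  rw [e, e]

/-- the corner before `c` if the label is open -/
lemma exists_nxO (c : ℤ × ℤ) : ∃ z, lab z = plab c ∧ fi z = fi c := by
  have h4 := nx_pv ({plab c} : Finset (ℤ × ℤ)) c
  set z := pv {plab c} c with hz
  have h5 : lab z = plab c := lab_pv _ _
  have h6 : nx {plab c} z = nxO z := by unfold nx; rw [if_pos (by rw [h5]; exact mem_singleton_self _)]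
  rw [h6] at h4
  exact ⟨z, h5, by rw [← h4, fi_nxO]⟩

lemma ringf_exit {K : Finset (ℤ × ℤ)} {c : ℤ × ℤ} (h1 : lab c ∈ starf K) (h2 : plab c ∉ starf K) :
    fi c ∉ K ∧ fi (opc c) ∈ K := by
  have hv : fi c ∉ K := by
    intro h3
    obtain ⟨z, h4, h5⟩ := exists_nxO c
    apply h2
    rw [← h4, lab_starf, h5]
    exact Or.inl h3
  exact ⟨hv, ((lab_starf c).1 h1).resolve_left hv⟩

lemma ringf_exit' {K : Finset (ℤ × ℤ)} {c : ℤ × ℤ} (h1 : plab c ∈ starf K) (h2 : lab c ∉ starf K) :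
    ∃ z, fi z ∈ K ∧ fi (opc z) ∉ K ∧ fi (opc z) = fi c := by
  have hv : fi c ∉ K := fun h3 => h2 ((lab_starf c).2 (Or.inl h3))
  obtain ⟨z, h5, h7⟩ := exists_nxO c
  rw [← h5, lab_starf] at h1
  refine ⟨opc z, h1.resolve_left (by rw [h7]; exact hv), ?_, ?_⟩
  · rw [opc_opc, h7]; exact hv
  · rw [opc_opc, h7]

/-- dual connections avoid `C` if the first face is not joined to the root -/
lemma du_or {B A C : Finset (ℤ × ℤ)} {r : ℤ × ℤ}
    (hC : ∀ g g', IsUnit4 (g' - g) → H77.Q1.lbf g g' ∈ C → Co (du B (A \ C)) g r) {a b : ℤ × ℤ}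
    (h : Co (du B (A \ C)) a b) : Co (du B A) a b ∨ Co (du B (A \ C)) a r := by
  induction h with
  | refl => exact Or.inl (Co.refl _ _)
  | @tail b c hab hbc ih =>
    rcases ih with ih | ih
    · obtain ⟨h1, h2, h3⟩ := H77.Q1.ad_du.1 hbc
      by_cases h4 : H77.Q1.lbf b c ∈ C
      · exact Or.inr (hab.trans (hC _ _ h1 h4))
      · left
        refine ih.tail (H77.Q1.ad_du.2 ⟨h1, h2, fun h5 => h3 (mem_sdiff.2 ⟨h5, h4⟩)⟩)
    · exact Or.inr ih

lemma inB_plab {M : ℤ} {c : ℤ × ℤ} (h : plab c ∈ H75.TwoArm.BB (M - 1)) :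
    inB (-(M - 1)) (M - 1) (-(M - 1)) (M - 1) (vx c) := by
  have h4 := nx_pv (∅ : Finset (ℤ × ℤ)) c
  set z := pv ∅ c with hz
  have h5 : lab z = plab c := lab_pv _ _
  have h6 : nx ∅ z = nxC z := by unfold nx; rw [if_neg (notMem_empty _)]
  rw [h6] at h4
  have h7 : vx z = vx c := by rw [← h4, vx_nxC]
  rw [← h7]
  apply H77.Q1.inB_end
  rw [h5]; exact h

theorem sameArcs_close {M : ℤ} {E K C W ω : Finset (ℤ × ℤ)} {ct : ℤ × ℤ} (h : KD M E W K ct)
    (hS : TConn (starf K)) (hω : ω ⊆ E \ starf K) (hC : C ⊆ E \ starf K)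
    (htie : ∀ g g', IsUnit4 (g' - g) → H77.Q1.lbf g g' ∈ C →
      ∃ T ⊆ C, Co (du (H75.TwoArm.BB M) ((E ∪ W) \ T)) g (fi ct))
    (hg : ¬ ∃ z, NJd M C W K ct ω z) : SameArcs (starf K) (ω ∪ W) ((ω \ C) ∪ W) := by
  have dW : ∀ l ∈ W, l ∉ starf K := fun l hl h1 => disjoint_left.1 h.disj (h.star h1) hl
  have dω : ∀ l ∈ ω, l ∉ starf K := fun l hl => (mem_sdiff.1 (hω hl)).2
  have dCW : ∀ l ∈ C, l ∉ W := fun l hl h1 => disjoint_left.1 h.disj (mem_sdiff.1 (hC hl)).1 h1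
  have dCS : ∀ l ∈ C, l ∉ starf K := fun l hl => (mem_sdiff.1 (hC hl)).2
  have hodd : ∀ e ∈ starf K, (e.1 + e.2) % 2 = 1 := fun e he => (mem_Bx.1 (h.hE (h.star he))).2.2
  have e1 : (ω \ C) ∪ W ∪ starf K = (ω ∪ starf K ∪ W) \ C := by
    ext l
    have k1 := dCW l
    have k2 := dCS l
    simp only [mem_union, mem_sdiff]
    tauto
  have e2 : (ω \ C) ∪ starf K ∪ W = (ω ∪ starf K ∪ W) \ C := by
    ext l
    have k1 := dCW l
    have k2 := dCS l
    simp only [mem_union, mem_sdiff]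
    tauto
  have e3 : ω ∪ W ∪ starf K = ω ∪ starf K ∪ W := by
    ext l
    simp only [mem_union]
    tauto
  refine sameArcs_of hS hodd (disjoint_left.2 fun l hl => ?_) ?_
  · rcases mem_union.1 hl with h1 | h1
    · exact dω l h1
    · exact dW l h1
  intro y c hy hy' hc hc' harc
  have hBB : ∀ j, lab ((nx ((ω \ C) ∪ W))^[j] y) ∈ H75.TwoArm.BB M := by
    refine H77.Q1.strand_BB ?_ (inB_plab (h.hE (h.star hy)))
    intro l hl
    rcases mem_union.1 hl with h1 | h1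
    · exact h.hE (mem_sdiff.1 (hω (mem_sdiff.1 h1).1)).1
    · exact h.hW h1
  have hd := harc.dual hBB
  rw [e1] at hd
  refine ⟨harc.co.mono (union_subset_union_left sdiff_subset), ?_⟩
  rw [e3]
  have hC' : ∀ g g', IsUnit4 (g' - g) → H77.Q1.lbf g g' ∈ C →
      Co (du (H75.TwoArm.BB M) ((ω ∪ starf K ∪ W) \ C)) g (fi ct) := by
    intro g g' h1 h2
    obtain ⟨T, hT, h3⟩ := htie g g' h1 h2
    refine h3.mono (du_anti ?_)
    intro l hl
    rw [mem_sdiff, mem_union, mem_union] at hl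
    rw [mem_sdiff, mem_union]
    refine ⟨?_, fun h4 => hl.2 (hT h4)⟩
    rcases hl.1 with (h5 | h5) | h5
    · exact Or.inl (mem_sdiff.1 (hω h5)).1
    · exact Or.inl (h.star h5)
    · exact Or.inr h5
  have hgood : ∀ z, fi z ∈ K → fi (opc z) ∉ K →
      Co (du (H75.TwoArm.BB M) ((ω ∪ starf K ∪ W) \ C)) (fi (opc z)) (fi ct) →
      Co (du (H75.TwoArm.BB M) (ω ∪ starf K ∪ W)) (fi (opc z)) (fi ct) := by
    intro z h1 h2 h3
    by_contra h4
    exact hg ⟨z, h1, h2, by rw [e2]; exact h3, h4⟩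
  rcases du_or hC' hd with h1 | h1
  · exact ⟨_, h1⟩
  · obtain ⟨z, hz1, hz2, hz3⟩ := ringf_exit' hy hy'
    obtain ⟨hc1, hc2⟩ := ringf_exit hc hc'
    have h2 := hgood z hz1 hz2 (by rw [hz3]; exact h1)
    have h3 := hgood (opc c) hc2 (by rw [opc_opc]; exact hc1)
      (by rw [opc_opc]; exact hd.symm.trans h1)
    rw [opc_opc] at h3
    rw [hz3] at h2
    exact ⟨_, h2.trans h3.symm⟩

/-! ### Connectedness of stars -/

lemma tAdj_star1 (v : ℤ × ℤ) : ∀ a ∈ Pool.Agent.Q1.M3.star1 v, ∀ b ∈ Pool.Agent.Q1.M3.star1 v,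
    Relation.ReflTransGen (fun x y => TAdj x y ∧ y ∈ Pool.Agent.Q1.M3.star1 v) a b := by
  obtain ⟨x, y⟩ := v
  have hm : ∀ l, l ∈ Pool.Agent.Q1.M3.star1 (x, y) ↔ l = (2 * x + 1, 2 * y) ∨
      l = (2 * x - 1, 2 * y) ∨ l = (2 * x, 2 * y + 1) ∨ l = (2 * x, 2 * y - 1) := by
    intro l
    unfold Pool.Agent.Q1.M3.star1
    simp only [mem_insert, mem_singleton]
  -- the cycle right, up, left, down
  have c1 : TAdj (2 * x + 1, 2 * y) (2 * x, 2 * y + 1) := by
    refine ⟨(2 * x + 1, 2 * y + 1), Or.inl ⟨?_, ?_⟩⟩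
    · unfold plab; simp only
      rw [if_neg (by omega), if_neg (by omega)]
      refine Prod.ext ?_ ?_ <;> simp only <;> omega
    · unfold lab; simp only
      rw [if_neg (by omega), if_neg (by omega)]
      refine Prod.ext ?_ ?_ <;> simp only <;> omega
  have c2 : TAdj (2 * x, 2 * y + 1) (2 * x - 1, 2 * y) := by
    refine ⟨(2 * x, 2 * y + 1), Or.inl ⟨?_, ?_⟩⟩
    · unfold plab; simp only
      rw [if_neg (by omega), if_pos (by omega)]
    · unfold lab; simp only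
      rw [if_neg (by omega), if_pos (by omega)]
      refine Prod.ext ?_ ?_ <;> simp only <;> omega
  have c3 : TAdj (2 * x - 1, 2 * y) (2 * x, 2 * y - 1) := by
    refine ⟨(2 * x, 2 * y), Or.inl ⟨?_, ?_⟩⟩
    · unfold plab; simp only
      rw [if_pos (by omega), if_pos (by omega)]
    · unfold lab; simp only
      rw [if_pos (by omega), if_pos (by omega)]
  have c4 : TAdj (2 * x, 2 * y - 1) (2 * x + 1, 2 * y) := by
    refine ⟨(2 * x + 1, 2 * y), Or.inl ⟨?_, ?_⟩⟩
    · unfold plab; simp only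
      rw [if_pos (by omega), if_neg (by omega)]
      refine Prod.ext ?_ ?_ <;> simp only <;> omega
    · unfold lab; simp only
      rw [if_pos (by omega), if_neg (by omega)]
  set R := fun p q : ℤ × ℤ => TAdj p q ∧ q ∈ Pool.Agent.Q1.M3.star1 (x, y)
  have s1 : R (2 * x + 1, 2 * y) (2 * x, 2 * y + 1) := ⟨c1, (hm _).2 (by tauto)⟩
  have s2 : R (2 * x, 2 * y + 1) (2 * x - 1, 2 * y) := ⟨c2, (hm _).2 (by tauto)⟩
  have s3 : R (2 * x - 1, 2 * y) (2 * x, 2 * y - 1) := ⟨c3, (hm _).2 (by tauto)⟩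
  have s4 : R (2 * x, 2 * y - 1) (2 * x + 1, 2 * y) := ⟨c4, (hm _).2 (by tauto)⟩
  have all : ∀ b ∈ Pool.Agent.Q1.M3.star1 (x, y),
      Relation.ReflTransGen R (2 * x + 1, 2 * y) b ∧ Relation.ReflTransGen R b (2 * x + 1, 2 * y) := by
    intro b hb
    rcases (hm b).1 hb with rfl | rfl | rfl | rfl
    · exact ⟨.refl, .refl⟩
    · exact ⟨(Relation.ReflTransGen.single s1).tail s2, (Relation.ReflTransGen.single s3).tail s4⟩
    · exact ⟨.single s1, ((Relation.ReflTransGen.single s2).tail s3).tail s4⟩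
    · exact ⟨((Relation.ReflTransGen.single s1).tail s2).tail s3, .single s4⟩
  intro a ha b hb
  exact (all a ha).2.trans (all b hb).1

lemma tConn_star {K : Finset (ℤ × ℤ)} (hc : ∀ u ∈ K, ∀ v ∈ K, Co (kap K) u v) :
    TConn (star K) := by
  intro a ha b hb
  obtain ⟨u, hu, hau⟩ := Pool.Agent.Q1.M3.mem_star.1 ha
  obtain ⟨v, hv, hbv⟩ := Pool.Agent.Q1.M3.mem_star.1 hb
  have hsub : ∀ w ∈ K, ∀ p q : ℤ × ℤ,
      Relation.ReflTransGen (fun x y => TAdj x y ∧ y ∈ Pool.Agent.Q1.M3.star1 w) p q →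
      Relation.ReflTransGen (fun x y => TAdj x y ∧ y ∈ star K) p q := by
    intro w hw p q h
    induction h with
    | refl => exact .refl
    | tail _ hxy ih => exact ih.tail ⟨hxy.1, Pool.Agent.Q1.M3.mem_star.2 ⟨w, hw, hxy.2⟩⟩
  have key : ∀ w, Co (kap K) u w → w ∈ K ∧ ∀ l ∈ Pool.Agent.Q1.M3.star1 w,
      Relation.ReflTransGen (fun x y => TAdj x y ∧ y ∈ star K) a l := by
    intro w hw
    induction hw with
    | refl => exact ⟨hu, fun l hl => hsub u hu _ _ (tAdj_star1 u a hau l hl)⟩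
    | @tail p q _ hpq ih =>
      obtain ⟨hp, ih⟩ := ih
      have ho : ((p + q).1 + (p + q).2) % 2 = 1 := by
        have := unit_cases hpq.1
        simp only [Prod.fst_add, Prod.snd_add]
        omega
      have h3 := (Pool.Agent.Q1.M3.mem_kap_iff ho).1 hpq.2
      have hend := ends_of_add hpq.1 rfl
      have hq : q ∈ K := by
        rcases hend with ⟨-, h4⟩ | ⟨-, h4⟩ <;> rw [h4]
        · exact h3.2
        · exact h3.1
      have hpm : p + q ∈ Pool.Agent.Q1.M3.star1 p := by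
        rw [Pool.Agent.Q1.M3.mem_star1_iff ho]
        rcases hend with ⟨h4, -⟩ | ⟨h4, -⟩
        · exact Or.inl h4
        · exact Or.inr h4
      have hqm : p + q ∈ Pool.Agent.Q1.M3.star1 q := by
        rw [Pool.Agent.Q1.M3.mem_star1_iff ho]
        rcases hend with ⟨-, h4⟩ | ⟨-, h4⟩
        · exact Or.inr h4
        · exact Or.inl h4
      exact ⟨hq, fun l hl => (ih _ hpm).trans (hsub q hq _ _ (tAdj_star1 q _ hqm l hl))⟩
  exact (key v (hc u hu v hv)).2 b hbv

lemma tConn_starf {K : Finset (ℤ × ℤ)}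
    (hc : ∀ u ∈ K, ∀ v ∈ K, Co (kap (K.image H77.Q1.tr)) (H77.Q1.tr u) (H77.Q1.tr v)) :
    TConn (starf K) := by
  have h1 : TConn (star (K.image H77.Q1.tr)) := by
    apply tConn_star
    intro u hu v hv
    obtain ⟨u', hu', rfl⟩ := mem_image.1 hu
    obtain ⟨v', hv', rfl⟩ := mem_image.1 hv
    exact hc u' hu' v' hv'
  intro a ha b hb
  have h2 := h1 _ (H77.Q1.mem_dl_starf.2 ha) _ (H77.Q1.mem_dl_starf.2 hb)
  have key : ∀ q, Relation.ReflTransGen
      (fun x y => TAdj x y ∧ y ∈ star (K.image H77.Q1.tr)) (H77.Q1.dl a) q →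
      ∃ q', H77.Q1.dl q' = q ∧ Relation.ReflTransGen (fun x y => TAdj x y ∧ y ∈ starf K) a q' := by
    intro q hq
    induction hq with
    | refl => exact ⟨a, rfl, .refl⟩
    | @tail p q _ hpq ih =>
      obtain ⟨p', rfl, ih⟩ := ih
      obtain ⟨⟨c, hc⟩, hq⟩ := hpq
      rw [← H77.Q1.starf_dl, mem_map] at hq
      obtain ⟨q', hq', rfl⟩ := hq
      refine ⟨q', rfl, ih.tail ⟨?_, hq'⟩⟩
      obtain ⟨c', rfl⟩ := H77.Q1.dc_surj c
      rw [H77.Q1.lab_dc, H77.Q1.plab_dc] at hc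
      refine ⟨c', ?_⟩
      rcases hc with ⟨h3, h4⟩ | ⟨h3, h4⟩
      · exact Or.inl ⟨H77.Q1.dl.injective h3, H77.Q1.dl.injective h4⟩
      · exact Or.inr ⟨H77.Q1.dl.injective h3, H77.Q1.dl.injective h4⟩
  obtain ⟨q', h3, h4⟩ := key _ h2
  rw [← H77.Q1.dl.injective h3]
  exact h4

/-! ### Steps -/

lemma on_inOrb {X : Env} {W : Finset (ℤ × ℤ)} (h : X.PlaneLike W) {ω : Finset (ℤ × ℤ)}
    (hω : ω ⊆ X.E) (c : ℤ × ℤ) : X.On ω c ↔ InOrb (nx (ω ∪ W)) X.c0 c := by
  constructor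
  · rintro ⟨i, _, hi⟩
    exact ⟨i, by rw [← h ω hω i]; exact hi⟩
  · rintro ⟨i, hi⟩
    rw [← h ω hω i] at hi
    obtain ⟨j, hj, hij⟩ := ((Env.orb hω).inOrb_iff c).1 ⟨i, hi⟩
    exact ⟨j, hj, hij⟩

/-- A step with the same arcs outside `S` is a comparable step of helper26's chains. -/
theorem stepEq_of_sameArcs {X : Env} {W S : Finset (ℤ × ℤ)} (h : X.PlaneLike W)
    (dW : Disjoint W S) (hct : lab X.c0 ∈ S) {a b c d : ℤ}
    (hBx : Bx a b c d ⊆ S) {ω ω' : Finset (ℤ × ℤ)} (hω : ω ⊆ X.E \ Bx a b c d)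
    (hω' : ω' ⊆ X.E \ Bx a b c d) (hcomp : ω ⊆ ω' ∨ ω' ⊆ ω) (hin : ω ∩ S = ω' ∩ S)
    (hs : SameArcs S ((ω \ S) ∪ W) ((ω' \ S) ∪ W)) : X.StepEq a b c d ω ω' := by
  refine ⟨hω, hω', hcomp, fun η hη z hz => ?_⟩
  have hηE : η ⊆ X.E := hη.trans inter_subset_left
  have hηS : η ⊆ S := hη.trans (inter_subset_right.trans hBx)
  rw [on_inOrb h (union_subset hηE (hω.trans sdiff_subset)),
    on_inOrb h (union_subset hηE (hω'.trans sdiff_subset))]
  have dd : ∀ ω : Finset (ℤ × ℤ), Disjoint ((ω \ S) ∪ W) S := fun ω =>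
    disjoint_union_left.2 ⟨disjoint_sdiff_self_left, dW⟩
  have key := hs.inOrb_iff hct (η := η ∪ (ω ∩ S)) (union_subset hηS inter_subset_right) (dd ω) (dd ω')
    (z := z) (hz.2.imp (fun h1 => hBx h1) (fun h1 => hBx h1))
  have e1 : η ∪ ω ∩ S ∪ (ω \ S ∪ W) = η ∪ ω ∪ W := by
    ext l
    simp only [mem_union, mem_inter, mem_sdiff]
    tauto
  have e2 : η ∪ ω ∩ S ∪ (ω' \ S ∪ W) = η ∪ ω' ∪ W := by
    rw [hin]
    ext l
    simp only [mem_union, mem_inter, mem_sdiff]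
    tauto
  rwa [e1, e2] at key

/-- **Opening step.** If no ring vertex is newly joined to the tip, the step `ω → ω ∪ O` is a
comparable step. -/
theorem stepEq_open {M : ℤ} {X : Env} {W K O : Finset (ℤ × ℤ)} (hX : X.PlaneLike W)
    (h : KT M X.E W K X.c0) (hOE : O ⊆ X.E \ star K)
    (hO : ∀ o ∈ O, Co (O ∪ W) (eu o) (vx X.c0) ∧ Co (O ∪ W) (ev o) (vx X.c0)) {a b c d : ℤ}
    (hBx : Bx a b c d ⊆ star K) {ω : Finset (ℤ × ℤ)} (hω : ω ⊆ X.E \ Bx a b c d)
    (hg : ¬ ∃ z, NJ O W K X.c0 (ω \ star K) z) : X.StepEq a b c d ω (ω ∪ O) := by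
  have dW : Disjoint W (star K) := by
    rw [disjoint_left]
    exact fun l hl h1 => disjoint_left.1 h.disj (h.star h1) hl
  have hct : lab X.c0 ∈ star K := by rw [lab_star]; exact Or.inr h.tip
  have dO : ∀ l ∈ O, l ∉ star K := fun l hl => (mem_sdiff.1 (hOE hl)).2
  refine stepEq_of_sameArcs hX dW hct hBx hω ?_ (Or.inl subset_union_left) ?_ ?_
  · refine union_subset hω fun l hl => ?_
    exact mem_sdiff.2 ⟨(mem_sdiff.1 (hOE hl)).1, fun h1 => dO l hl (hBx h1)⟩
  · ext l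
    have := dO l
    simp only [mem_union, mem_inter]
    tauto
  · have key := sameArcs_open (K := K) (O := O) (W := W) (ω := ω \ star K) (ct := X.c0)
      (tConn_star h.conn) disjoint_sdiff_self_left dW hO hg
    have e : (ω ∪ O) \ star K ∪ W = (ω \ star K) ∪ O ∪ W := by
      ext l
      have := dO l
      simp only [mem_union, mem_sdiff]
      tauto
    rw [e]
    exact key

/-- **Closing step.** -/
theorem stepEq_close {M : ℤ} {X : Env} {W K C : Finset (ℤ × ℤ)} (hX : X.PlaneLike W)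
    (h : KD M X.E W K X.c0) (hCE : C ⊆ X.E \ starf K)
    (htie : ∀ g g', IsUnit4 (g' - g) → H77.Q1.lbf g g' ∈ C →
      ∃ T ⊆ C, Co (du (H75.TwoArm.BB M) ((X.E ∪ W) \ T)) g (fi X.c0)) {a b c d : ℤ}
    (hBx : Bx a b c d ⊆ starf K) {ω : Finset (ℤ × ℤ)} (hω : ω ⊆ X.E \ Bx a b c d)
    (hg : ¬ ∃ z, NJd M C W K X.c0 (ω \ starf K) z) : X.StepEq a b c d ω (ω \ C) := by
  have dW : Disjoint W (starf K) := by
    rw [disjoint_left]
    exact fun l hl h1 => disjoint_left.1 h.disj (h.star h1) hl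
  have dC : ∀ l ∈ C, l ∉ starf K := fun l hl => (mem_sdiff.1 (hCE hl)).2
  refine stepEq_of_sameArcs hX dW h.tipB hBx hω (sdiff_subset.trans hω)
    (Or.inr sdiff_subset) ?_ ?_
  · ext l
    have := dC l
    simp only [mem_sdiff, mem_inter]
    tauto
  · have key := sameArcs_close h (tConn_starf h.conn) (ω := ω \ starf K) (C := C)
      (fun l hl => mem_sdiff.2 ⟨(mem_sdiff.1 (hω (mem_sdiff.1 hl).1)).1, (mem_sdiff.1 hl).2⟩)
      hCE htie hg
    have e : (ω \ C) \ starf K ∪ W = ((ω \ starf K) \ C) ∪ W := by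
      ext l
      simp only [mem_union, mem_sdiff]
      tauto
    rw [e]
    exact key

end op

end Pool.Agent.H33.Q1
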