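import Mathlib
import Pool.Agent.H33.Q1.Good

set_option autoImplicit false
open Finset

/-! # Invisible toggles

`e ∉ w` is a label with ends `u, v` and faces `f1, f2`; `B` is a set of labels with `e ∈ B`. If `u, v` are
joined by labels of `w` in `B`, or the cluster of one of them is invisible from the corners `c`, `z`,
then opening `e` does not change whether `z` is on the loop of `c`. The same for faces. -/

namespace Pool.Agent.H33.Q1

open Pool.Agent.H75.Perc Pool.Agent.H75.TwoArm Pool.Agent.H75.Four Pool.Agent.H69.Q1 Pool.Agent.Q1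
open Pool.Agent.H75.TwoArm.StrandAux hiding vx_nxC
open Pool.Agent.H75.Four.PivAux (vx_zu vx_zv)
open Pool.Agent.H77.Q1 (lbf ad_du lbf_nxC)

/-- On the same loop: same cluster and same dual cluster. -/
lemma inOrb_iff_dco {w : Finset (ℤ × ℤ)} {c z : ℤ × ℤ} :
    InOrb (nx w) c z ↔ Co w (vx c) (vx z) ∧ DCo w (fi c) (fi z) := by
  classical
  obtain ⟨L, hL⟩ := exists_orb_nx w c
  have hE : ∀ i, lab ((nx w)^[i] c) ∈ (range L).image fun j => lab ((nx w)^[j] c) := by
    intro j
    rw [mem_image]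
    obtain ⟨i, hi, hij⟩ := (hL.inOrb_iff ((nx w)^[j] c)).1 ⟨j, rfl⟩
    exact ⟨i, mem_range.2 hi, by rw [hij]⟩
  constructor
  · intro h
    obtain ⟨h1, h2⟩ := (inOrb_iff hE).1 h
    exact ⟨h1, _, h2⟩
  · rintro ⟨h1, F, h2⟩
    exact inOrb_of_co w h1 h2

lemma fi_nxC_opc (z : ℤ × ℤ) : fi (nxC z) = fi (opc z) := (nxC_opc z).2

/-- Either the ends of a closed label are joined, or its faces are joined off it. -/
theorem co_or_dco {w : Finset (ℤ × ℤ)} {e : ℤ × ℤ} (ho : (e.1 + e.2) % 2 = 1) (he : e ∉ w) :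
    Co w (eu e) (ev e) ∨ DCo (insert e w) (fi (zu e)) (fi (zv e)) := by
  obtain ⟨h1, h2, h3, h4, h5, h6⟩ := opc_zu ho
  set y := nx w (zu e) with hy
  have hyC : y = nxC (zu e) := by rw [hy]; unfold nx; rw [if_neg (by rw [h3]; exact he)]
  have hp : plab y ∈ ({e} : Finset (ℤ × ℤ)) := by rw [hy, plab_nx, h3]; exact mem_singleton_self _
  obtain ⟨c, hc⟩ := exists_arc (S := {e}) (A := w) hp
  have hce : lab c = e := by
    obtain ⟨n, -, -, h7⟩ := hc
    exact mem_singleton.1 h7
  rcases eq_zu_or_zv ho hce with h7 | h7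
  · right
    have h8 := hc.dco
    rw [h7, hyC, fi_nxC_opc, h1, union_comm, ← insert_eq] at h8
    exact h8.symm
  · left
    have h8 := hc.co
    rw [h7, hyC, vx_nxC, h5, h6] at h8
    exact h8

/-- never both -/
theorem not_co_dco {w : Finset (ℤ × ℤ)} {e : ℤ × ℤ} (ho : (e.1 + e.2) % 2 = 1) (he : e ∉ w)
    (h1 : Co w (eu e) (ev e)) (h2 : DCo (insert e w) (fi (zu e)) (fi (zv e))) : False := by
  obtain ⟨F, hF⟩ := h2
  have := H81.NC.sep_of_dual ho hF
  rw [erase_eq_of_notMem he, vx_zu ho, vx_zv ho] at this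
  exact this h1

lemma co_split {w : Finset (ℤ × ℤ)} {e a b : ℤ × ℤ} (h : Co (insert e w) a b) :
    Co w a b ∨ ((Co w a (eu e) ∨ Co w a (ev e)) ∧ (Co w (eu e) b ∨ Co w (ev e) b)) := by
  induction h with
  | refl => exact Or.inl (Co.refl _ _)
  | @tail b c _ hbc ih =>
    obtain ⟨h1, h2⟩ := hbc
    rw [mem_insert] at h2
    by_cases he : b + c = e
    · have hend := ends_of_add h1 he
      rcases ih with ih | ⟨ih, -⟩
      · right
        rcases hend with ⟨h3, h4⟩ | ⟨h3, h4⟩
        · exact ⟨Or.inl (h3 ▸ ih), Or.inr (h4 ▸ Co.refl _ _)⟩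
        · exact ⟨Or.inr (h3 ▸ ih), Or.inl (h4 ▸ Co.refl _ _)⟩
      · right
        rcases hend with ⟨-, h4⟩ | ⟨-, h4⟩
        · exact ⟨ih, Or.inr (h4 ▸ Co.refl _ _)⟩
        · exact ⟨ih, Or.inl (h4 ▸ Co.refl _ _)⟩
    · have h3 : Ad w b c := ⟨h1, h2.resolve_left he⟩
      rcases ih with ih | ⟨ih, ih'⟩
      · exact Or.inl (ih.tail h3)
      · exact Or.inr ⟨ih, ih'.imp (fun h => h.tail h3) (fun h => h.tail h3)⟩

/-- the faces next to a label -/
lemma faces_of_lbf {f g e : ℤ × ℤ} (ho : (e.1 + e.2) % 2 = 1) (h : IsUnit4 (g - f))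
    (hl : lbf f g = e) : (f = fi (zu e) ∧ g = fi (zv e)) ∨ (f = fi (zv e) ∧ g = fi (zu e)) := by
  obtain ⟨h1, h2, h3, h4, h5, h6⟩ := opc_zu ho
  have key := fi_nxC (zu e)
  rw [fi_nxC_opc, h1] at key
  have k1 : fi (zu e) + fi (zv e) - (1, 1) = e := by
    rw [key.2, h3]; simp
  have k2 := unit_cases key.1
  have k3 := unit_cases h
  unfold lbf at hl
  have e1 := congrArg Prod.fst (k1.trans hl.symm)
  have e2 := congrArg Prod.snd (k1.trans hl.symm)
  simp only [Prod.fst_sub, Prod.snd_sub, Prod.fst_add, Prod.snd_add] at e1 e2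
  have : ∀ a b : ℤ × ℤ, a = b ↔ a.1 = b.1 ∧ a.2 = b.2 := fun a b => Prod.ext_iff
  rw [this, this, this, this]
  omega

lemma dco_split {w : Finset (ℤ × ℤ)} {e : ℤ × ℤ} (ho : (e.1 + e.2) % 2 = 1) {a b : ℤ × ℤ}
    (h : DCo w a b) : DCo (insert e w) a b ∨
      ((DCo (insert e w) a (fi (zu e)) ∨ DCo (insert e w) a (fi (zv e))) ∧
      (DCo (insert e w) (fi (zu e)) b ∨ DCo (insert e w) (fi (zv e)) b)) := by
  obtain ⟨F, hF⟩ := h
  induction hF with
  | refl => exact Or.inl (DCo.refl _ _)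
  | @tail b c _ hbc ih =>
    obtain ⟨h1, h2, h3⟩ := ad_du.1 hbc
    by_cases he : lbf b c = e
    · have hend := faces_of_lbf ho h1 he
      rcases ih with ih | ⟨ih, -⟩
      · right
        rcases hend with ⟨h4, h5⟩ | ⟨h4, h5⟩
        · exact ⟨Or.inl (h4 ▸ ih), Or.inr (h5 ▸ DCo.refl _ _)⟩
        · exact ⟨Or.inr (h4 ▸ ih), Or.inl (h5 ▸ DCo.refl _ _)⟩
      · right
        rcases hend with ⟨-, h5⟩ | ⟨-, h5⟩
        · exact ⟨ih, Or.inr (h5 ▸ DCo.refl _ _)⟩
        · exact ⟨ih, Or.inl (h5 ▸ DCo.refl _ _)⟩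
    · have h4 : DCo (insert e w) b c := by
        refine ⟨{lbf b c}, Relation.ReflTransGen.single (ad_du.2 ⟨h1, mem_singleton_self _, ?_⟩)⟩
        rw [mem_insert, not_or]
        exact ⟨he, h3⟩
      rcases ih with ih | ⟨ih, ih'⟩
      · exact Or.inl (ih.trans h4)
      · exact Or.inr ⟨ih, ih'.imp (fun h => h.trans h4) (fun h => h.trans h4)⟩

/-- **Invisible toggle, vertex form.** `B` = a set of labels around `e` whose complement joins the faces
of `c` and `z`. -/
theorem toggle_inv {w B : Finset (ℤ × ℤ)} {e c z : ℤ × ℤ} (ho : (e.1 + e.2) % 2 = 1) (he : e ∉ w)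
    (heB : e ∈ B) (hcz : DCo B (fi c) (fi z))
    (h : Co (w ∩ B) (eu e) (ev e) ∨ (¬ Co w (ev e) (vx z) ∧ ¬ Co w (ev e) (vx c)) ∧
        (Co w (eu e) (ev e) → Co (w ∩ B) (eu e) (ev e)) ∨
      (¬ Co w (eu e) (vx z) ∧ ¬ Co w (eu e) (vx c)) ∧
        (Co w (eu e) (ev e) → Co (w ∩ B) (eu e) (ev e))) :
    InOrb (nx w) c z ↔ InOrb (nx (insert e w)) c z := by
  have hw : w ⊆ insert e w := subset_insert _ _
  have hloc : Co w (eu e) (ev e) → Co (w ∩ B) (eu e) (ev e) := by
    rcases h with h | ⟨-, h⟩ | ⟨-, h⟩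
    · exact fun _ => h
    · exact h
    · exact h
  rw [inOrb_iff_dco, inOrb_iff_dco]
  constructor
  · rintro ⟨h1, h2⟩
    refine ⟨h1.mono hw, ?_⟩
    by_cases hco : Co w (eu e) (ev e)
    · have hl := hloc hco
      have hB : insert e (w ∩ B) ⊆ insert e w := insert_subset_insert _ inter_subset_left
      have hB' : insert e (w ∩ B) ⊆ B := insert_subset heB inter_subset_right
      have heB' : e ∉ w ∩ B := fun h3 => he (mem_inter.1 h3).1
      have hcz' : DCo (insert e (w ∩ B)) (fi c) (fi z) := hcz.anti hB'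
      rcases dco_split ho h2 with h3 | ⟨h3 | h3, h4 | h4⟩
      · exact h3
      · exact h3.trans h4
      · exact absurd (((h3.anti hB).symm.trans hcz').trans (h4.anti hB).symm)
          (fun h5 => not_co_dco ho heB' hl h5)
      · exact absurd (((h4.anti hB).trans hcz'.symm).trans (h3.anti hB))
          (fun h5 => not_co_dco ho heB' hl h5)
      · exact h3.trans h4
    · have h3 := (co_or_dco ho he).resolve_left hco
      rcases dco_split ho h2 with h4 | ⟨h4 | h4, h5 | h5⟩
      · exact h4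
      · exact h4.trans h5
      · exact h4.trans (h3.trans h5)
      · exact h4.trans (h3.symm.trans h5)
      · exact h4.trans h5
  · rintro ⟨h1, h2⟩
    refine ⟨?_, h2.anti hw⟩
    rcases co_split h1 with h3 | ⟨h3, h4⟩
    · exact h3
    by_cases hco : Co w (eu e) (ev e)
    · rcases h3 with h3 | h3 <;> rcases h4 with h4 | h4
      · exact h3.trans h4
      · exact h3.trans (hco.trans h4)
      · exact h3.trans (hco.symm.trans h4)
      · exact h3.trans h4
    · rcases h with h | ⟨⟨h5, h6⟩, -⟩ | ⟨⟨h5, h6⟩, -⟩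
      · exact absurd (h.mono inter_subset_left) hco
      · rcases h3 with h3 | h3
        · rcases h4 with h4 | h4
          · exact h3.trans h4
          · exact absurd h4 h5
        · exact absurd h3.symm h6
      · rcases h3 with h3 | h3
        · exact absurd h3.symm h6
        · rcases h4 with h4 | h4
          · exact absurd h4 h5
          · exact h3.trans h4

/-- **Invisible toggle, face form.** `B` = a set of labels around `e` whose complement joins the vertices
of `c` and `z`. -/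
theorem toggle_inv_dual {w A0 B : Finset (ℤ × ℤ)} {e c z : ℤ × ℤ} (ho : (e.1 + e.2) % 2 = 1)
    (he : e ∉ w) (heB : e ∈ B) (hA0 : Disjoint A0 B) (hcz : Co A0 (vx c) (vx z))
    (h : Co (du B (insert e w)) (fi (zu e)) (fi (zv e)) ∨
      (¬ DCo (insert e w) (fi (zv e)) (fi z) ∧ ¬ DCo (insert e w) (fi (zv e)) (fi c)) ∧
        (DCo (insert e w) (fi (zu e)) (fi (zv e)) → Co (du B (insert e w)) (fi (zu e)) (fi (zv e))) ∨
      (¬ DCo (insert e w) (fi (zu e)) (fi z) ∧ ¬ DCo (insert e w) (fi (zu e)) (fi c)) ∧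
        (DCo (insert e w) (fi (zu e)) (fi (zv e)) →
          Co (du B (insert e w)) (fi (zu e)) (fi (zv e)))) :
    InOrb (nx w) c z ↔ InOrb (nx (insert e w)) c z := by
  have hw : w ⊆ insert e w := subset_insert _ _
  have hloc : DCo (insert e w) (fi (zu e)) (fi (zv e)) →
      Co (du B (insert e w)) (fi (zu e)) (fi (zv e)) := by
    rcases h with h | ⟨-, h⟩ | ⟨-, h⟩
    · exact fun _ => h
    · exact h
    · exact h
  rw [inOrb_iff_dco, inOrb_iff_dco]
  constructor
  · rintro ⟨h1, h2⟩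
    refine ⟨h1.mono hw, ?_⟩
    rcases dco_split ho h2 with h3 | ⟨h3, h4⟩
    · exact h3
    by_cases hco : DCo (insert e w) (fi (zu e)) (fi (zv e))
    · rcases h3 with h3 | h3 <;> rcases h4 with h4 | h4
      · exact h3.trans h4
      · exact h3.trans (hco.trans h4)
      · exact h3.trans (hco.symm.trans h4)
      · exact h3.trans h4
    · rcases h with h | ⟨⟨h5, h6⟩, -⟩ | ⟨⟨h5, h6⟩, -⟩
      · exact absurd ⟨B, h⟩ hco
      · rcases h3 with h3 | h3
        · rcases h4 with h4 | h4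
          · exact h3.trans h4
          · exact absurd h4 h5
        · exact absurd h3.symm h6
      · rcases h3 with h3 | h3
        · exact absurd h3.symm h6
        · rcases h4 with h4 | h4
          · exact absurd h4 h5
          · exact h3.trans h4
  · rintro ⟨h1, h2⟩
    refine ⟨?_, h2.anti hw⟩
    by_cases hco : DCo (insert e w) (fi (zu e)) (fi (zv e))
    · have hl := hloc hco
      have heA : e ∉ w ∪ A0 := by
        rw [mem_union, not_or]
        exact ⟨he, fun h3 => disjoint_left.1 hA0 h3 heB⟩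
      have hd : DCo (insert e (w ∪ A0)) (fi (zu e)) (fi (zv e)) := by
        refine ⟨B, hl.mono ?_⟩
        intro l hl'
        unfold du at hl' ⊢
        rw [mem_map] at hl' ⊢
        obtain ⟨m, hm, rfl⟩ := hl'
        refine ⟨m, ?_, rfl⟩
        rw [mem_sdiff, mem_insert, not_or] at hm
        rw [mem_sdiff, mem_insert, mem_union, not_or, not_or]
        exact ⟨hm.1, hm.2.1, hm.2.2, fun h3 => disjoint_left.1 hA0 h3 hm.1⟩
      have hcz' : Co (w ∪ A0) (vx c) (vx z) := hcz.mono subset_union_right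
      have hs : w ⊆ w ∪ A0 := subset_union_left
      rcases co_split h1 with h3 | ⟨h3 | h3, h4 | h4⟩
      · exact h3
      · exact h3.trans h4
      · exact absurd (((h3.mono hs).symm.trans hcz').trans (h4.mono hs).symm)
          (fun h5 => not_co_dco ho heA h5 hd)
      · exact absurd (((h4.mono hs).trans hcz'.symm).trans (h3.mono hs))
          (fun h5 => not_co_dco ho heA h5 hd)
      · exact h3.trans h4
    · have h3 := (co_or_dco ho he).resolve_right hco
      rcases co_split h1 with h4 | ⟨h4 | h4, h5 | h5⟩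
      · exact h4
      · exact h4.trans h5
      · exact h4.trans (h3.trans h5)
      · exact h4.trans (h3.symm.trans h5)
      · exact h4.trans h5

/-! ### Boxes -/

/-- inner face of the box -/
def InF (a b c d : ℤ) (f : ℤ × ℤ) : Prop := (a < f.1 ∧ f.1 ≤ b) ∧ (c < f.2 ∧ f.2 ≤ d)

/-- The outer faces of a box are joined off its labels. -/
lemma dco_box {a b c d : ℤ} {f g : ℤ × ℤ} (hf : ¬ InF a b c d f) (hg : ¬ InF a b c d g) :
    DCo (Bx a b c d) f g := by
  have vert : ∀ i : ℤ, (i ≤ a ∨ b < i) → ∀ j j' : ℤ, DCo (Bx a b c d) (i, j) (i, j') := by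
    intro i hi
    have h1 : ∀ (j : ℤ) (n : ℕ), DCo (Bx a b c d) (i, j) (i, j + n) := by
      intro j n
      refine dco_vert n fun k _ _ => ?_
      rw [mem_Bx]
      simp only
      omega
    intro j j'
    rcases le_total j j' with h2 | h2
    · obtain ⟨n, hn⟩ := Int.le.dest h2
      rw [← hn]; exact h1 j n
    · obtain ⟨n, hn⟩ := Int.le.dest h2
      rw [← hn]; exact (h1 j' n).symm
  have hor : ∀ j : ℤ, (j ≤ c ∨ d < j) → ∀ i i' : ℤ, DCo (Bx a b c d) (i, j) (i', j) := by
    intro j hj i i'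
    refine dco_horiz' fun k => ?_
    rw [mem_Bx]
    simp only
    omega
  have key : ∀ f : ℤ × ℤ, ¬ InF a b c d f → DCo (Bx a b c d) f (a, c) := by
    rintro ⟨i, j⟩ h
    unfold InF at h
    simp only at h
    by_cases hi : i ≤ a ∨ b < i
    · exact (vert i hi j c).trans (hor c (Or.inl le_rfl) i a)
    · have hj : j ≤ c ∨ d < j := by omega
      exact (hor j hj i a).trans (vert a (Or.inl le_rfl) j c)
  exact (key f hf).trans (key g hg).symm

/-- joined by labels off `B` -/
def VCo (B : Finset (ℤ × ℤ)) (u v : ℤ × ℤ) : Prop := ∃ A0, Disjoint A0 B ∧ Co A0 u v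

lemma VCo.symm {B : Finset (ℤ × ℤ)} {u v : ℤ × ℤ} (h : VCo B u v) : VCo B v u := by
  obtain ⟨A, h1, h2⟩ := h
  exact ⟨A, h1, h2.symm⟩

lemma VCo.refl (B : Finset (ℤ × ℤ)) (u : ℤ × ℤ) : VCo B u u := ⟨∅, disjoint_empty_left _, Co.refl _ _⟩

lemma VCo.trans {B : Finset (ℤ × ℤ)} {u v w : ℤ × ℤ} (h : VCo B u v) (h' : VCo B v w) :
    VCo B u w := by
  obtain ⟨A, h1, h2⟩ := h
  obtain ⟨A', h1', h2'⟩ := h'
  exact ⟨A ∪ A', disjoint_union_left.2 ⟨h1, h1'⟩, (h2.mono subset_union_left).trans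
    (h2'.mono subset_union_right)⟩

lemma VCo.step {B : Finset (ℤ × ℤ)} {u v : ℤ × ℤ} (h : IsUnit4 (v - u)) (hB : u + v ∉ B) :
    VCo B u v :=
  ⟨{u + v}, disjoint_singleton_left.2 hB, Relation.ReflTransGen.single ⟨h, mem_singleton_self _⟩⟩

/-- The vertices outside a box are joined off its labels. -/
lemma vco_box {a b c d : ℤ} {u v : ℤ × ℤ} (hu : ¬ inB a b c d u) (hv : ¬ inB a b c d v) :
    VCo (Bx a b c d) u v := by
  have vert : ∀ i : ℤ, (i < a ∨ b < i) → ∀ j j' : ℤ, VCo (Bx a b c d) (i, j) (i, j') := by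
    intro i hi
    have h1 : ∀ (j : ℤ) (n : ℕ), VCo (Bx a b c d) (i, j) (i, j + n) := by
      intro j n
      induction n with
      | zero => simpa using VCo.refl _ (i, j)
      | succ n ih =>
        refine ih.trans (VCo.step ?_ ?_)
        · right; left
          refine Prod.ext ?_ ?_
          · simp
          · simp only [Prod.snd_sub]; push_cast; ring
        · rw [mem_Bx]
          simp only [Prod.fst_add]
          omega
    intro j j'
    rcases le_total j j' with h2 | h2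
    · obtain ⟨n, hn⟩ := Int.le.dest h2
      rw [← hn]; exact h1 j n
    · obtain ⟨n, hn⟩ := Int.le.dest h2
      rw [← hn]; exact (h1 j' n).symm
  have hor : ∀ j : ℤ, (j < c ∨ d < j) → ∀ i i' : ℤ, VCo (Bx a b c d) (i, j) (i', j) := by
    intro j hj
    have h1 : ∀ (i : ℤ) (n : ℕ), VCo (Bx a b c d) (i, j) (i + n, j) := by
      intro i n
      induction n with
      | zero => simpa using VCo.refl _ (i, j)
      | succ n ih =>
        refine ih.trans (VCo.step ?_ ?_)
        · left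
          refine Prod.ext ?_ ?_
          · simp only [Prod.fst_sub]; push_cast; ring
          · simp
        · rw [mem_Bx]
          simp only [Prod.snd_add]
          omega
    intro i i'
    rcases le_total i i' with h2 | h2
    · obtain ⟨n, hn⟩ := Int.le.dest h2
      rw [← hn]; exact h1 i n
    · obtain ⟨n, hn⟩ := Int.le.dest h2
      rw [← hn]; exact (h1 i' n).symm
  have key : ∀ u : ℤ × ℤ, ¬ inB a b c d u → VCo (Bx a b c d) u (a - 1, c - 1) := by
    rintro ⟨i, j⟩ h
    unfold inB at h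
    simp only at h
    by_cases hi : i < a ∨ b < i
    · exact (vert i hi j (c - 1)).trans (hor (c - 1) (Or.inl (by omega)) i (a - 1))
    · have hj : j < c ∨ d < j := by omega
      exact (hor j hj i (a - 1)).trans (vert (a - 1) (Or.inl (by omega)) j (c - 1))
  exact (key u hu).trans (key v hv).symm

/-- interior vertex -/
def Int4 (a b c d : ℤ) (v : ℤ × ℤ) : Prop := (a < v.1 ∧ v.1 < b) ∧ (c < v.2 ∧ v.2 < d)

/-- a cluster of the labels in the box which stays in the interior is a cluster -/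
lemma co_loc {w : Finset (ℤ × ℤ)} {a b c d : ℤ} (hw : ∀ e ∈ w, (e.1 + e.2) % 2 = 1) {v : ℤ × ℤ}
    (h : ∀ x, Co (w ∩ Bx a b c d) v x → Int4 a b c d x) {x : ℤ × ℤ} (hx : Co w v x) :
    Co (w ∩ Bx a b c d) v x := by
  induction hx with
  | refl => exact Co.refl _ _
  | @tail p q _ hpq ih =>
    have h1 := h p ih
    refine ih.tail ⟨hpq.1, mem_inter.2 ⟨hpq.2, ?_⟩⟩
    have h2 := unit_cases hpq.1
    unfold Int4 at h1
    rw [mem_Bx]
    have := hw _ hpq.2
    simp only [Prod.fst_add, Prod.snd_add] at this ⊢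
    omega

/-- **Invisible toggle in a box, vertex form.** -/
theorem toggle_box {w : Finset (ℤ × ℤ)} (hw : ∀ e ∈ w, (e.1 + e.2) % 2 = 1) {a b c d : ℤ}
    {e r z : ℤ × ℤ} (ho : (e.1 + e.2) % 2 = 1) (he : e ∉ w) (heB : e ∈ Bx a b c d)
    (hr : ¬ InF a b c d (fi r)) (hz : ¬ InF a b c d (fi z))
    (hr' : ¬ Int4 a b c d (vx r)) (hz' : ¬ Int4 a b c d (vx z))
    (h : Co (w ∩ Bx a b c d) (eu e) (ev e) ∨ (∀ x, Co (w ∩ Bx a b c d) (ev e) x → Int4 a b c d x) ∨
      (∀ x, Co (w ∩ Bx a b c d) (eu e) x → Int4 a b c d x)) :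
    InOrb (nx w) r z ↔ InOrb (nx (insert e w)) r z := by
  refine toggle_inv ho he heB (dco_box hr hz) ?_
  rcases h with h | h | h
  · exact Or.inl h
  · refine Or.inr (Or.inl ⟨⟨fun h1 => hz' (h _ (co_loc hw h h1)), fun h1 => hr' (h _ (co_loc hw h h1))⟩,
      fun h1 => (co_loc hw h h1.symm).symm⟩)
  · refine Or.inr (Or.inr ⟨⟨fun h1 => hz' (h _ (co_loc hw h h1)), fun h1 => hr' (h _ (co_loc hw h h1))⟩,
      fun h1 => co_loc hw h h1⟩)

/-- a dual cluster of the labels in the box which stays inside is a dual cluster -/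
lemma dco_loc {w : Finset (ℤ × ℤ)} {a b c d : ℤ} {f : ℤ × ℤ}
    (h : ∀ g, Co (du (Bx a b c d) w) f g → InF a b c d g) {g : ℤ × ℤ} (hg : DCo w f g) :
    Co (du (Bx a b c d) w) f g := by
  obtain ⟨F, hF⟩ := hg
  induction hF with
  | refl => exact Co.refl _ _
  | @tail p q _ hpq ih =>
    have h1 := h p ih
    obtain ⟨h2, h3, h4⟩ := ad_du.1 hpq
    refine ih.tail (ad_du.2 ⟨h2, ?_, h4⟩)
    have h5 := unit_cases h2
    unfold InF at h1
    unfold lbf
    rw [mem_Bx]
    simp only [Prod.fst_sub, Prod.snd_sub, Prod.fst_add, Prod.snd_add]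
    omega

/-- **Invisible toggle in a box, face form.** -/
theorem toggle_box_dual {w : Finset (ℤ × ℤ)} {a b c d : ℤ}
    {e r z : ℤ × ℤ} (ho : (e.1 + e.2) % 2 = 1) (he : e ∉ w) (heB : e ∈ Bx a b c d)
    (hr : ¬ inB a b c d (vx r)) (hz : ¬ inB a b c d (vx z))
    (hr' : ¬ InF a b c d (fi r)) (hz' : ¬ InF a b c d (fi z))
    (h : Co (du (Bx a b c d) (insert e w)) (fi (zu e)) (fi (zv e)) ∨
      (∀ g, Co (du (Bx a b c d) (insert e w)) (fi (zv e)) g → InF a b c d g) ∨
      (∀ g, Co (du (Bx a b c d) (insert e w)) (fi (zu e)) g → InF a b c d g)) :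
    InOrb (nx w) r z ↔ InOrb (nx (insert e w)) r z := by
  obtain ⟨A0, hA0, hco⟩ := vco_box hr hz
  refine toggle_inv_dual ho he heB hA0 hco ?_
  rcases h with h | h | h
  · exact Or.inl h
  · exact Or.inr (Or.inl ⟨⟨fun h1 => hz' (h _ (dco_loc h h1)), fun h1 => hr' (h _ (dco_loc h h1))⟩,
      fun h1 => (dco_loc h h1.symm).symm⟩)
  · exact Or.inr (Or.inr ⟨⟨fun h1 => hz' (h _ (dco_loc h h1)), fun h1 => hr' (h _ (dco_loc h h1))⟩,
      fun h1 => dco_loc h h1⟩)

end Pool.Agent.H33.Q1
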