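import Mathlib
import Pool.Agent.H33.Q1.Good

set_option autoImplicit false
open Finset

/-! # Solid flattening seen from a box

`K3_open`, `K3_close` and the deterministic half together: the increments seen in a box change little
when the labels of `O` are opened and the labels of `C` are closed. -/

namespace Pool.Agent.H33.Q1

open Pool.Agent.H75.Perc Pool.Agent.H75.TwoArm Pool.Agent.H75.Four Pool.Agent.H69.Q1 Pool.Agent.Q1
open Pool.Agent.H77.Q1 (KT NJ lab_star ends_lab KD NJd starf IsTie Far lbf)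
open Pool.Agent.Q1.M3 (star kap)
open Pool.Agent.H99.NC (PrP PrP_half PrP_local PrP_restrict)
open Pool.Agent.Q1.Env (flat mid)

lemma kd_opened {M : ℤ} {E W K O : Finset (ℤ × ℤ)} {ct : ℤ × ℤ} (h : KD M E W K ct)
    (hO : O ⊆ E \ starf K) (hO' : ∀ o ∈ O, Co (O ∪ W) (eu o) (vx ct)) :
    KD M (E \ O) (W ∪ O) K ct := by
  have hOE : O ⊆ E := hO.trans sdiff_subset
  have e : (E \ O) ∪ (W ∪ O) = E ∪ W := by
    ext l
    have := fun h1 : l ∈ O => hOE h1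
    simp only [mem_union, mem_sdiff]
    tauto
  refine ⟨sdiff_subset.trans h.hE, union_subset h.hW (hOE.trans h.hE), ?_, ?_, h.conn, h.tip, h.tipo,
    h.tipp, ?_, ?_, h.ring⟩
  · rw [disjoint_left]
    intro l hl hl'
    rw [mem_sdiff] at hl
    rcases mem_union.1 hl' with h1 | h1
    · exact disjoint_left.1 h.disj hl.1 h1
    · exact hl.2 h1
  · intro l hl
    exact mem_sdiff.2 ⟨h.star hl, fun h1 => (mem_sdiff.1 (hO h1)).2 hl⟩
  · intro w hw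
    rcases mem_union.1 hw with h1 | h1
    · exact (h.wired w h1).mono subset_union_left
    · rw [union_comm]; exact hO' w h1
  · intro g g' h1 h2 h3 h4
    rw [e]
    refine h.free g g' h1 h2 (fun h5 => ?_) (fun h5 => h4 (mem_union_left _ h5))
    exact h3 (mem_sdiff.2 ⟨h5, fun h6 => h4 (mem_union_right _ h6)⟩)

lemma Pr_local {α : Type*} [DecidableEq α] {E F : Finset α} (h : F ⊆ E) {A : Finset α → Prop}
    (hA : ∀ ω, ω ⊆ E → (A ω ↔ A (ω ∩ F))) : Pr E A = Pr F A := by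
  rw [← PrP_half, ← PrP_half]
  exact PrP_local h hA

/-- **Solid flattening**: probability that the outer configuration is not joined to the flattened one
by a chain of comparable steps. -/
theorem flat_chain : ∃ δ C0 : ℝ, 0 < δ ∧ δ < 1 ∧ 0 < C0 ∧ ∀ (M : ℤ) (X : Env)
    (W Kv Kf O C : Finset (ℤ × ℤ)) (r : ℤ) (s s' : Finset ℕ) (p p' : ℕ → ℤ × ℤ) (ρ ρ' : ℕ → ℤ)
    (k k' : ℕ → ℕ) (a b c d : ℤ),
    X.PlaneLike W → KT M X.E W Kv X.c0 → KD M X.E W Kf X.c0 →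
    O ⊆ X.E \ (star Kv ∪ starf Kf) → C ⊆ X.E \ (star Kv ∪ starf Kf) → Disjoint O C → 1 ≤ r →
    Bx a b c d ⊆ star Kv → Bx a b c d ⊆ starf Kf →
    (∀ o ∈ O, ∀ v, (v = eu o ∨ v = ev o) → (∃ T, IsTie O W (vx X.c0) r v T) ∧
      ∃ i ∈ s, |v.1 - (p i).1| ≤ ρ i ∧ |v.2 - (p i).2| ≤ ρ i) →
    (∀ i ∈ s, 1 ≤ ρ i ∧ 4 ^ k i * r ≤ 2 * ρ i ∧ ∀ u ∈ Kv, Far (4 * ρ i + 1) (p i) u) →
    (∀ o ∈ C, ∀ g g', IsUnit4 (g' - g) → lbf g g' = o →
      (∃ T, T ⊆ C ∧ (∀ m ∈ T, |m.1 + 1 - 2 * g.1| ≤ 2 * r - 2 ∧ |m.2 + 1 - 2 * g.2| ≤ 2 * r - 2) ∧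
        Co (du (H75.TwoArm.BB M) ((X.E ∪ W) \ T)) g (fi X.c0)) ∧
      ∃ i ∈ s', |g.1 - (p' i).1| ≤ ρ' i ∧ |g.2 - (p' i).2| ≤ ρ' i) →
    (∀ i ∈ s', 1 ≤ ρ' i ∧ 4 ^ k' i * r ≤ 2 * ρ' i ∧ ∀ u ∈ Kf, Far (4 * ρ' i + 1) (p' i) u) →
    PrP (fun _ => 1 / 2) (X.E \ Bx a b c d)
      (fun ω => ¬ Relation.ReflTransGen (X.StepEq a b c d) ω (flat (O ∪ C) O ω)) ≤
      ∑ i ∈ s, C0 * (1 - δ) ^ k i + ∑ i ∈ s', C0 * (1 - δ) ^ k' i := by
  classical
  obtain ⟨δ, C0, hδ0, hδ1, hC0, hopen⟩ := H77.Q1.K3_open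
  obtain ⟨δ', C0', hδ0', hδ1', hC0', hclose⟩ := H77.Q1.K3_close
  refine ⟨min δ δ', max C0 C0', lt_min hδ0 hδ0', (min_le_left _ _).trans_lt hδ1,
    lt_max_of_lt_left hC0, ?_⟩
  intro M X W Kv Kf O C r s s' p p' ρ ρ' k k' a b c d hX hT hD hO hC hOC hr hBv hBf htO hs htC hs'
  set E := X.E with hE
  have hO1 : O ⊆ E \ star Kv := hO.trans (sdiff_subset_sdiff (Subset.refl _) subset_union_left)
  have hO2 : O ⊆ E \ starf Kf := hO.trans (sdiff_subset_sdiff (Subset.refl _) subset_union_right)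
  have hC2 : C ⊆ E \ starf Kf := hC.trans (sdiff_subset_sdiff (Subset.refl _) subset_union_right)
  have hOE : O ⊆ E := hO.trans sdiff_subset
  have hOend : ∀ o ∈ O, Co (O ∪ W) (eu o) (vx X.c0) ∧ Co (O ∪ W) (ev o) (vx X.c0) := by
    intro o ho
    obtain ⟨⟨T, hT1, -, hT3⟩, -⟩ := htO o ho (eu o) (Or.inl rfl)
    obtain ⟨⟨T', hT1', -, hT3'⟩, -⟩ := htO o ho (ev o) (Or.inr rfl)
    exact ⟨hT3.mono (union_subset_union_left hT1), hT3'.mono (union_subset_union_left hT1')⟩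
  have hD' : KD M (E \ O) (W ∪ O) Kf X.c0 := kd_opened hD hO2 fun o ho => (hOend o ho).1
  have eEW : (E \ O) ∪ (W ∪ O) = E ∪ W := by
    ext l
    have := fun h1 : l ∈ O => hOE h1
    simp only [mem_union, mem_sdiff]
    tauto
  -- the two bad events
  set B1 : Finset (ℤ × ℤ) → Prop := fun ω => ∃ z, NJ O W Kv X.c0 (ω \ star Kv) z with hB1
  set B2 : Finset (ℤ × ℤ) → Prop := fun ω =>
    ∃ z, NJd M C (W ∪ O) Kf X.c0 ((ω \ O) \ starf Kf) z with hB2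
  have hgood : ∀ ω ⊆ E \ Bx a b c d, ¬ B1 ω → ¬ B2 ω →
      Relation.ReflTransGen (X.StepEq a b c d) ω (flat (O ∪ C) O ω) := by
    intro ω hω h1 h2
    have st1 : X.StepEq a b c d ω (ω ∪ O) := stepEq_open hX hT hO1 hOend hBv hω h1
    have hω2 : ω ∪ O ⊆ E \ Bx a b c d := st1.2.1
    have st2 : X.StepEq a b c d (ω ∪ O) ((ω ∪ O) \ C) := by
      refine stepEq_close hX hD hC2 ?_ hBf hω2 ?_
      · intro g g' h3 h4
        obtain ⟨⟨T, hT1, -, hT3⟩, -⟩ := htC _ h4 g g' h3 rfl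
        exact ⟨T, hT1, hT3⟩
      · rintro ⟨z, hz⟩
        apply h2
        refine ⟨z, ?_⟩
        have e1 : ((ω \ O) \ starf Kf) \ C ∪ starf Kf ∪ (W ∪ O) =
            ((ω ∪ O) \ starf Kf) \ C ∪ starf Kf ∪ W := by
          ext l
          have k1 := fun h5 : l ∈ O => (mem_sdiff.1 (hO2 h5)).2
          have k2 := fun h5 : l ∈ O => fun h6 : l ∈ C => disjoint_left.1 hOC h5 h6
          simp only [mem_union, mem_sdiff]
          tauto
        have e2 : ((ω \ O) \ starf Kf) ∪ starf Kf ∪ (W ∪ O) =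
            ((ω ∪ O) \ starf Kf) ∪ starf Kf ∪ W := by
          ext l
          simp only [mem_union, mem_sdiff]
          tauto
        unfold NJd at hz ⊢
        rw [e1, e2]
        exact hz
    have e3 : (ω ∪ O) \ C = flat (O ∪ C) O ω := by
      unfold flat
      ext l
      have k2 := fun h5 : l ∈ O => fun h6 : l ∈ C => disjoint_left.1 hOC h5 h6
      simp only [mem_union, mem_sdiff]
      tauto
    rw [← e3]
    exact (Relation.ReflTransGen.single st1).tail st2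
  have hB1p : Pr (E \ Bx a b c d) B1 ≤ ∑ i ∈ s, C0 * (1 - δ) ^ k i := by
    have key := hopen M E W Kv O X.c0 r s p ρ k hT hO1 hr htO hs
    refine le_trans (le_of_eq ?_) key
    have h1 : E \ star Kv ⊆ E \ Bx a b c d := sdiff_subset_sdiff (Subset.refl _) hBv
    have h2 : Pr (E \ Bx a b c d) B1 = Pr (E \ star Kv) B1 := by
      refine Pr_local h1 fun ω hω => ?_
      have e : ω \ star Kv = (ω ∩ (E \ star Kv)) \ star Kv := by
        ext l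
        have := fun h3 : l ∈ ω => (mem_sdiff.1 (hω h3)).1
        simp only [mem_inter, mem_sdiff]
        tauto
      rw [hB1]
      simp only
      rw [← e]
    rw [h2]
    refine Pr_congr fun ω hω => ?_
    have e : ω \ star Kv = ω := by
      ext l
      have := fun h3 : l ∈ ω => (mem_sdiff.1 (hω h3)).2
      simp only [mem_sdiff]
      tauto
    rw [hB1]
    simp only
    rw [e]
  have hB2p : Pr (E \ Bx a b c d) B2 ≤ ∑ i ∈ s', C0' * (1 - δ') ^ k' i := by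
    have key := hclose M (E \ O) (W ∪ O) Kf C X.c0 r s' p' ρ' k' hD' ?_ hr ?_ hs'
    · refine le_trans (le_of_eq ?_) key
      have h1 : (E \ O) \ starf Kf ⊆ E \ Bx a b c d := by
        intro l hl
        rw [mem_sdiff, mem_sdiff] at hl
        exact mem_sdiff.2 ⟨hl.1.1, fun h3 => hl.2 (hBf h3)⟩
      have h2 : Pr (E \ Bx a b c d) B2 = Pr ((E \ O) \ starf Kf) B2 := by
        refine Pr_local h1 fun ω hω => ?_
        have e : (ω \ O) \ starf Kf = ((ω ∩ ((E \ O) \ starf Kf)) \ O) \ starf Kf := by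
          ext l
          have := fun h3 : l ∈ ω => (mem_sdiff.1 (hω h3)).1
          simp only [mem_inter, mem_sdiff]
          tauto
        rw [hB2]
        simp only
        rw [← e]
      rw [h2]
      refine Pr_congr fun ω hω => ?_
      have e : (ω \ O) \ starf Kf = ω := by
        ext l
        have h3 := fun h3 : l ∈ ω => (mem_sdiff.1 (hω h3)).2
        have h4 := fun h3 : l ∈ ω => (mem_sdiff.1 (mem_sdiff.1 (hω h3)).1).2
        simp only [mem_sdiff]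
        tauto
      rw [hB2]
      simp only
      rw [e]
    · intro l hl
      have h1 := mem_sdiff.1 (hC2 hl)
      exact mem_sdiff.2 ⟨mem_sdiff.2 ⟨h1.1, fun h2 => disjoint_left.1 hOC h2 hl⟩, h1.2⟩
    · intro o ho g g' h1 h2
      rw [eEW]
      exact htC o ho g g' h1 h2
  rw [PrP_half]
  have hpow : ∀ (n : ℕ) (x y : ℝ), 0 < x → x ≤ 1 → y ≤ x → 0 ≤ 1 - x ∧ (1 - x) ^ n ≤ (1 - y) ^ n := by
    intro n x y h1 h2 h3
    exact ⟨by linarith, pow_le_pow_left₀ (by linarith) (by linarith) _⟩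
  have q1 : ∑ i ∈ s, C0 * (1 - δ) ^ k i ≤ ∑ i ∈ s, max C0 C0' * (1 - min δ δ') ^ k i := by
    refine sum_le_sum fun i _ => ?_
    obtain ⟨h1, h2⟩ := hpow (k i) δ (min δ δ') hδ0 hδ1.le (min_le_left _ _)
    exact mul_le_mul (le_max_left _ _) h2 (pow_nonneg h1 _) (hC0.le.trans (le_max_left _ _))
  have q2 : ∑ i ∈ s', C0' * (1 - δ') ^ k' i ≤ ∑ i ∈ s', max C0 C0' * (1 - min δ δ') ^ k' i := by
    refine sum_le_sum fun i _ => ?_
    obtain ⟨h1, h2⟩ := hpow (k' i) δ' (min δ δ') hδ0' hδ1'.le (min_le_right _ _)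
    exact mul_le_mul (le_max_right _ _) h2 (pow_nonneg h1 _) (hC0.le.trans (le_max_left _ _))
  refine le_trans (Pr_mono fun ω hω h => ?_)
    ((Pr_or_le (E \ Bx a b c d) B1 B2).trans (add_le_add (hB1p.trans q1) (hB2p.trans q2)))
  by_contra h3
  rw [not_or] at h3
  exact h (hgood ω hω h3.1 h3.2)

/-- **Solid flattening seen from a box**: the differences of the primitives. -/
theorem box_compare : ∃ δ C0 : ℝ, 0 < δ ∧ δ < 1 ∧ 0 < C0 ∧ ∀ (M : ℤ) (X : Env)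
    (W Kv Kf O C : Finset (ℤ × ℤ)) (r : ℤ) (s s' : Finset ℕ) (p p' : ℕ → ℤ × ℤ) (ρ ρ' : ℕ → ℤ)
    (k k' : ℕ → ℕ) (a b c d : ℤ),
    X.PlaneLike W → KT M X.E W Kv X.c0 → KD M X.E W Kf X.c0 →
    O ⊆ X.E \ (star Kv ∪ starf Kf) → C ⊆ X.E \ (star Kv ∪ starf Kf) → Disjoint O C → 1 ≤ r →
    Bx a b c d ⊆ star Kv → Bx a b c d ⊆ starf Kf →
    (∀ o ∈ O, ∀ v, (v = eu o ∨ v = ev o) → (∃ T, IsTie O W (vx X.c0) r v T) ∧
      ∃ i ∈ s, |v.1 - (p i).1| ≤ ρ i ∧ |v.2 - (p i).2| ≤ ρ i) →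
    (∀ i ∈ s, 1 ≤ ρ i ∧ 4 ^ k i * r ≤ 2 * ρ i ∧ ∀ u ∈ Kv, Far (4 * ρ i + 1) (p i) u) →
    (∀ o ∈ C, ∀ g g', IsUnit4 (g' - g) → lbf g g' = o →
      (∃ T, T ⊆ C ∧ (∀ m ∈ T, |m.1 + 1 - 2 * g.1| ≤ 2 * r - 2 ∧ |m.2 + 1 - 2 * g.2| ≤ 2 * r - 2) ∧
        Co (du (H75.TwoArm.BB M) ((X.E ∪ W) \ T)) g (fi X.c0)) ∧
      ∃ i ∈ s', |g.1 - (p' i).1| ≤ ρ' i ∧ |g.2 - (p' i).2| ≤ ρ' i) →
    (∀ i ∈ s', 1 ≤ ρ' i ∧ 4 ^ k' i * r ≤ 2 * ρ' i ∧ ∀ u ∈ Kf, Far (4 * ρ' i + 1) (p' i) u) →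
    ∀ (Hv Hf Gv Gf : ℤ × ℤ → ℂ), X.Prim a b c d Hv Hf →
    (X.flatten (O ∪ C) O).Prim a b c d Gv Gf →
    ∀ (u v : ℤ × ℤ), inB a b c d u → inB a b c d v → ∀ m : ℝ,
    (∀ ω1 ⊆ X.E \ Bx a b c d, ∀ Hv' Hf', (X.freeze (Bx a b c d) ω1).Prim a b c d Hv' Hf' →
      ‖Hv' u - Hv' v‖ ≤ m) →
    ‖(Gv u - Gv v) - (Hv u - Hv v)‖ ≤
      2 * m * (∑ i ∈ s, C0 * (1 - δ) ^ k i + ∑ i ∈ s', C0 * (1 - δ) ^ k' i) := by
  obtain ⟨δ, C0, h1, h2, h3, key⟩ := flat_chain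
  refine ⟨δ, C0, h1, h2, h3, ?_⟩
  intro M X W Kv Kf O C r s s' p p' ρ ρ' k k' a b c d hX hT hD hO hC hOC hr hBv hBf htO hs htC hs'
    Hv Hf Gv Gf hH hG u v hu hv m hm
  have hB : Bx a b c d ⊆ X.E := hBv.trans hT.star
  have hF : O ∪ C ⊆ X.E \ Bx a b c d := by
    intro l hl
    have : l ∈ X.E \ (star Kv ∪ starf Kf) := by
      rcases mem_union.1 hl with h4 | h4
      · exact hO h4
      · exact hC h4
    rw [mem_sdiff, mem_union, not_or] at this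
    exact mem_sdiff.2 ⟨this.1, fun h5 => this.2.1 (hBv h5)⟩
  have hm0 : 0 ≤ m := by
    obtain ⟨Hv', Hf', h4⟩ := (X.freeze (Bx a b c d) ∅).exists_prim (a := a) (b := b) (c := c)
      (d := d) (by rw [Env.freeze_E]; exact subset_inter hB (Subset.refl _))
    exact (norm_nonneg _).trans (hm ∅ (empty_subset _) _ _ h4)
  refine (hX.compare_chain hB hF subset_union_left hH hG hu hv hm).trans ?_
  exact mul_le_mul_of_nonneg_left
    (key M X W Kv Kf O C r s s' p p' ρ ρ' k k' a b c d hX hT hD hO hC hOC hr hBv hBf htO hs htC hs')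
    (by linarith)

end Pool.Agent.H33.Q1
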