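import Mathlib
import Pool.Agent.Q1.M6c.Diff

set_option autoImplicit false
open Finset

/-! # Moving the root of a rough Dobrushin environment to its tip

`Dobr.reroot`: along the deterministic beginning of the path the Dobrushin property is kept.
`DEnvX.reroot`: the environment with the root at the tip `ct` (the first corner of the path with a random
label) has the same increments at all corners next to random labels. `DEnvX.reroot_or`: either there is
such a tip, or all these increments vanish. `DEnvX.reroot_rev`: the same after an exploration. -/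

namespace Pool.Agent.Q1.M6c

open Pool.Agent.H75.Perc Pool.Agent.H75.TwoArm Pool.Agent.H99.NC Pool.Agent.H69.Q1
open Pool.Agent.H75.TwoArm.StrandAux hiding vx_nxC

variable {E W : Finset (ℤ × ℤ)} {c0 : ℤ × ℤ}

lemma KK_shift {α : Type*} (f : α → α) (δ : α → ℤ) (c : α) (k0 : ℤ) (n i : ℕ) :
    KK f δ (f^[n] c) (KK f δ c k0 n) i = KK f δ c k0 (n + i) := by
  induction i with
  | zero => rw [KK_zero]; rfl
  | succ i ih =>
    rw [← Nat.add_assoc, KK_succ, KK_succ, ih, ← Function.iterate_add_apply, Nat.add_comm i n]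

lemma Orb.shift {α : Type*} {f : α → α} (hf : Function.Injective f) {c : α} {L : ℕ} (h : Orb f c L)
    (n : ℕ) : Orb f (f^[n] c) L := by
  refine ⟨h.pos, ?_, ?_⟩
  · rw [← Function.iterate_add_apply, Nat.add_comm, Function.iterate_add_apply, h.per]
  · intro i j hij hj e
    rw [← Function.iterate_add_apply, ← Function.iterate_add_apply, Nat.add_comm i, Nat.add_comm j,
      Function.iterate_add_apply, Function.iterate_add_apply] at e
    exact h.inj i j hij hj (hf.iterate n e)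

lemma nx_off {ω : Finset (ℤ × ℤ)} (hω : ω ⊆ E) {z : ℤ × ℤ} (hz : lab z ∉ E) :
    nx (ω ∪ W) z = nx W z := by
  unfold nx
  by_cases h : lab z ∈ W
  · rw [if_pos h, if_pos (mem_union_right _ h)]
  · rw [if_neg h, if_neg]
    rw [mem_union, not_or]
    exact ⟨fun h2 => hz (hω h2), h⟩

lemma del_off {ω : Finset (ℤ × ℤ)} (hω : ω ⊆ E) {z : ℤ × ℤ} (hz : lab z ∉ E) :
    del (ω ∪ W) z = del W z := by
  unfold del
  by_cases h : lab z ∈ W
  · rw [if_pos h, if_pos (mem_union_right _ h)]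
  · rw [if_neg h, if_neg]
    rw [mem_union, not_or]
    exact ⟨fun h2 => hz (hω h2), h⟩

lemma iter_off {ω : Finset (ℤ × ℤ)} (hω : ω ⊆ E) {n : ℕ}
    (hp : ∀ i < n, lab ((nx W)^[i] c0) ∉ E) :
    ∀ i ≤ n, (nx (ω ∪ W))^[i] c0 = (nx W)^[i] c0 := by
  intro i
  induction i with
  | zero => intro _; rfl
  | succ i ih =>
    intro hi
    rw [Function.iterate_succ_apply', Function.iterate_succ_apply', ih (by omega),
      nx_off hω (hp i (by omega))]

lemma KK_off {ω : Finset (ℤ × ℤ)} (hω : ω ⊆ E) (k0 : ℤ) {n : ℕ}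
    (hp : ∀ i < n, lab ((nx W)^[i] c0) ∉ E) :
    ∀ i ≤ n, KK (nx (ω ∪ W)) (del (ω ∪ W)) c0 k0 i = KK (nx W) (del W) c0 k0 i := by
  intro i
  induction i with
  | zero => intro _; rw [KK_zero, KK_zero]
  | succ i ih =>
    intro hi
    rw [KK_succ, KK_succ, ih (by omega), iter_off hω hp i (by omega),
      del_off hω (hp i (by omega))]

/-- the labels before and after a corner of the deterministic beginning are not random -/
lemma plab_off (hr : plab c0 ∉ E) {n : ℕ} (hp : ∀ i < n, lab ((nx W)^[i] c0) ∉ E) :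
    ∀ i ≤ n, plab ((nx W)^[i] c0) ∉ E := by
  intro i hi
  cases i with
  | zero => exact hr
  | succ i =>
    rw [Function.iterate_succ_apply']
    have h2 := lab_pv W (nx W ((nx W)^[i] c0))
    rw [pv_nx] at h2
    rw [← h2]
    exact hp i (by omega)

/-- **Moving the root.** -/
theorem Dobr.reroot (h : Dobr E W c0) {n : ℕ} (hp : ∀ i < n, lab ((nx W)^[i] c0) ∉ E) :
    Dobr E W ((nx W)^[n] c0) ∧ Co W (vx c0) (vx ((nx W)^[n] c0)) ∧
      DCo (E ∪ W) (fi c0) (fi ((nx W)^[n] c0)) := by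
  have hv : ∀ i ≤ n, Co W (vx c0) (vx ((nx W)^[i] c0)) := by
    intro i
    induction i with
    | zero => intro _; exact Co.refl _ _
    | succ i ih =>
      intro hi
      rw [Function.iterate_succ_apply']
      exact (ih (by omega)).trans (co_nx_step fun hl => hl)
  have hf : ∀ i ≤ n, DCo (E ∪ W) (fi c0) (fi ((nx W)^[i] c0)) := by
    intro i
    induction i with
    | zero => intro _; exact DCo.refl _ _
    | succ i ih =>
      intro hi
      rw [Function.iterate_succ_apply']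
      refine (ih (by omega)).trans (dco_nx_step fun hl => ?_)
      rw [mem_union, not_or]
      exact ⟨hp i (by omega), hl⟩
  refine ⟨⟨h.odd, h.oddW, h.disj, plab_off h.root hp n le_rfl, ?_, ?_⟩, hv n le_rfl, hf n le_rfl⟩
  · exact fun z hz => (hv n le_rfl).symm.trans (h.wco z hz)
  · exact fun z hz hz' => (hf n le_rfl).symm.trans (h.lco z hz hz')

/-- on the deterministic beginning nothing happens: the tip is reached before the path closes -/
lemma PlaneEnv.lt_len {X : Env} (h : PlaneEnv X W) {n : ℕ}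
    (hp : ∀ i < n, lab ((nx W)^[i] X.c0) ∉ X.E) (ht : lab ((nx W)^[n] X.c0) ∈ X.E)
    {ω : Finset (ℤ × ℤ)} (hω : ω ⊆ X.E) : n < X.len ω := by
  by_contra hc
  push Not at hc
  have hO := h.orb hω
  have h1 : (nx (ω ∪ W))^[n % X.len ω] X.c0 = (nx (ω ∪ W))^[n] X.c0 := hO.mod n
  have h2 : n % X.len ω < n := (Nat.mod_lt _ hO.pos).trans_le hc
  rw [iter_off hω hp n le_rfl, iter_off hω hp _ h2.le] at h1
  exact hp _ h2 (by rw [h1]; exact ht)

/-- **The environment with the root at the tip.** -/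
theorem DEnvX.reroot {X : Env} (h : DEnvX X W) {n : ℕ}
    (hp : ∀ i < n, lab ((nx W)^[i] X.c0) ∉ X.E) (ht : lab ((nx W)^[n] X.c0) ∈ X.E) :
    ∃ Y : Env, DEnvX Y W ∧ Y.E = X.E ∧ Y.c0 = (nx W)^[n] X.c0 ∧
      Y.k0 = KK (nx W) (del W) X.c0 X.k0 n ∧
      ∀ c, (lab c ∈ X.E ∨ plab c ∈ X.E) → Y.inc c = X.inc c := by
  have hk : KK (nx W) (del W) X.c0 X.k0 n % 4 = ty ((nx W)^[n] X.c0) := by
    have h1 := Env.K_mod (X := X) (empty_subset X.E) n
    rw [h.zz _ (empty_subset _), h.KK' _ (empty_subset _), empty_union] at h1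
    exact h1
  set Y := (h.dob.reroot hp).1.env _ hk with hY
  have hYd : DEnvX Y W := (h.dob.reroot hp).1.denv hk
  have hYE : Y.E = X.E := rfl
  have hYc : Y.c0 = (nx W)^[n] X.c0 := rfl
  have hYk : Y.k0 = KK (nx W) (del W) X.c0 X.k0 n := rfl
  refine ⟨Y, hYd, hYE, hYc, hYk, fun c hc => ?_⟩
  rw [Env.inc_eq, Env.inc_eq, hYE]
  refine Ec_congr fun ω hω => ?_
  have hωY : ω ⊆ Y.E := hω
  have hn := h.toPlaneEnv.lt_len hp ht hω
  have hO := h.toPlaneEnv.orb hω
  have hit := iter_off (c0 := X.c0) hω hp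
  have hz : ∀ i, Y.z ω i = X.z ω (n + i) := by
    intro i
    rw [hYd.zz ω hωY, h.zz ω hω, hYc, ← hit n le_rfl, ← Function.iterate_add_apply, Nat.add_comm]
  have hK : ∀ i, Y.K ω i = X.K ω (n + i) := by
    intro i
    rw [hYd.KK' ω hωY, h.KK' ω hω, hYc, hYk, ← hit n le_rfl, ← KK_off hω X.k0 hp n le_rfl,
      KK_shift]
  have hlen : Y.len ω = X.len ω := by
    have h1 := hYd.toPlaneEnv.orb hωY
    rw [hYc, ← hit n le_rfl] at h1
    exact h1.unique (Orb.shift (nx_injective _) hO n)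
  -- the corner `c` is not on the deterministic beginning
  have hbeg : ∀ i < n, X.z ω i ≠ c := by
    intro i hi e
    rw [h.zz ω hω, hit i hi.le] at e
    rcases hc with h1 | h1
    · exact hp i hi (by rw [e]; exact h1)
    · exact plab_off h.dob.root hp i hi.le (by rw [e]; exact h1)
  by_cases hex : ∃ i < X.len ω, X.z ω i = c
  · obtain ⟨i, hi, e⟩ := hex
    have hni : n ≤ i := by
      by_contra h1
      exact hbeg i (by omega) e
    rw [Env.incO_of hω hi e]
    have e1 : Y.z ω (i - n) = c := by rw [hz, show n + (i - n) = i by omega]; exact e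
    rw [Env.incO_of hωY (by omega : i - n < Y.len ω) e1, hK, show n + (i - n) = i by omega]
  · push Not at hex
    rw [Env.incO_zero hex, Env.incO_zero]
    intro j hj e
    rw [hz] at e
    have h1 : X.z ω ((n + j) % X.len ω) = X.z ω (n + j) := by
      rw [h.zz ω hω, h.zz ω hω]; exact hO.mod _
    exact hex _ (Nat.mod_lt _ hO.pos) (h1.trans e)

/-- **Either there is a tip, or nothing reaches the random labels.** -/
theorem DEnvX.reroot_or {X : Env} (h : DEnvX X W) :
    (∀ c, (lab c ∈ X.E ∨ plab c ∈ X.E) → X.inc c = 0) ∨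
    ∃ n, (∀ i < n, lab ((nx W)^[i] X.c0) ∉ X.E) ∧ lab ((nx W)^[n] X.c0) ∈ X.E := by
  classical
  by_cases hex : ∃ n, lab ((nx W)^[n] X.c0) ∈ X.E
  · right
    exact ⟨Nat.find hex, fun i hi => Nat.find_min hex hi, Nat.find_spec hex⟩
  · left
    push Not at hex
    intro c hc
    rw [Env.inc_eq, Ec_congr (G := fun _ => 0), Ec_const]
    intro ω hω
    apply Env.incO_zero
    intro i _ e
    rw [h.zz ω hω, iter_off hω (n := i) (fun j _ => hex j) i le_rfl] at e
    rcases hc with h1 | h1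
    · exact hex i (by rw [e]; exact h1)
    · exact plab_off h.dob.root (n := i) (fun j _ => hex j) i le_rfl (by rw [e]; exact h1)

/-- the path of the environment with the explored labels frozen -/
lemma PlaneEnv.iter_rev {X : Env} (h : PlaneEnv X W) (P : ℤ × ℤ → Prop) {ω : Finset (ℤ × ℤ)}
    (hω : ω ⊆ X.E) : ∀ i ≤ X.tau P ω,
      (nx (W ∪ (ω ∩ X.rev P ω)))^[i] X.c0 = X.z ω i ∧
      KK (nx (W ∪ (ω ∩ X.rev P ω))) (del (W ∪ (ω ∩ X.rev P ω))) X.c0 X.k0 i = X.K ω i := by
  intro i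
  induction i with
  | zero => intro _; exact ⟨rfl, by rw [KK_zero, Env.K_zero]⟩
  | succ i ih =>
    intro hi
    obtain ⟨h1, h2⟩ := ih (by omega)
    have hz := h.zz ω hω (i + 1)
    have hz0 := h.zz ω hω i
    have hK := h.KK' ω hω (i + 1)
    have hK0 := h.KK' ω hω i
    rw [Function.iterate_succ_apply'] at hz
    rw [KK_succ] at hK
    rw [Function.iterate_succ_apply', KK_succ, h1, h2, hz, hK, ← hz0, ← hK0]
    have hm : lab (X.z ω i) ∈ W ∪ (ω ∩ X.rev P ω) ↔ lab (X.z ω i) ∈ ω ∪ W := by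
      simp only [mem_union, mem_inter]
      constructor
      · rintro (h3 | h3)
        · exact Or.inr h3
        · exact Or.inl h3.1
      · rintro (h3 | h3)
        · exact Or.inr ⟨h3, Env.mem_rev.2 ⟨hω h3, i, by omega, rfl⟩⟩
        · exact Or.inl h3
    constructor
    · unfold nx
      by_cases h3 : lab (X.z ω i) ∈ ω ∪ W
      · rw [if_pos h3, if_pos (hm.2 h3)]
      · rw [if_neg h3, if_neg (fun h4 => h3 (hm.1 h4))]
    · unfold del
      by_cases h3 : lab (X.z ω i) ∈ ω ∪ W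
      · rw [if_pos h3, if_pos (hm.2 h3)]
      · rw [if_neg h3, if_neg (fun h4 => h3 (hm.1 h4))]

/-- the labels met before the time `tau` are not random in the frozen environment -/
lemma PlaneEnv.rev_off {X : Env} (h : PlaneEnv X W) (P : ℤ × ℤ → Prop) {ω : Finset (ℤ × ℤ)}
    (hω : ω ⊆ X.E) : ∀ i < X.tau P ω,
      lab ((nx (W ∪ (ω ∩ X.rev P ω)))^[i] X.c0) ∉ (X.freeze (X.E \ X.rev P ω) ω).E := by
  intro i hi h1
  rw [(h.iter_rev P hω i hi.le).1, Env.freeze_E] at h1
  exact (mem_sdiff.1 (mem_inter.1 h1).2).2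
    (Env.mem_rev.2 ⟨(mem_inter.1 h1).1, i, hi, rfl⟩)

/-- **The environment after an exploration, with the root at the tip.** -/
theorem DEnvX.reroot_rev {X : Env} (h : DEnvX X W) (P : ℤ × ℤ → Prop) {ω : Finset (ℤ × ℤ)}
    (hω : ω ⊆ X.E) (hct : lab (X.z ω (X.tau P ω)) ∈ X.E \ X.rev P ω) :
    ∃ Y : Env, DEnvX Y (W ∪ (ω ∩ X.rev P ω)) ∧ Y.E = X.E \ X.rev P ω ∧
      Y.c0 = X.z ω (X.tau P ω) ∧ Y.k0 = X.K ω (X.tau P ω) ∧
      ∀ c, (lab c ∈ X.E \ X.rev P ω ∨ plab c ∈ X.E \ X.rev P ω) →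
        Y.inc c = (X.freeze (X.E \ X.rev P ω) ω).inc c := by
  have h1 := h.rev P hω
  have e : (X.freeze (X.E \ X.rev P ω) ω).E = X.E \ X.rev P ω := by
    rw [Env.freeze_E]; exact inter_eq_right.2 sdiff_subset
  obtain ⟨h2, h3⟩ := h.toPlaneEnv.iter_rev P hω _ le_rfl
  have ht : lab ((nx (W ∪ (ω ∩ X.rev P ω)))^[X.tau P ω] (X.freeze (X.E \ X.rev P ω) ω).c0) ∈
      (X.freeze (X.E \ X.rev P ω) ω).E := by
    rw [e]
    have h2' : (nx (W ∪ (ω ∩ X.rev P ω)))^[X.tau P ω] (X.freeze (X.E \ X.rev P ω) ω).c0 =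
      X.z ω (X.tau P ω) := h2
    rw [h2']; exact hct
  obtain ⟨Y, hY, hYE, hYc, hYk, hinc⟩ := h1.reroot (h.toPlaneEnv.rev_off P hω) ht
  rw [e] at hYE hinc
  exact ⟨Y, hY, hYE, hYc.trans h2, hYk.trans h3, hinc⟩

/-- if `P` is a property of labels, the label of the tip has not been explored -/
lemma tip_mem {X : Env} {P : ℤ × ℤ → Prop} (hP : ∀ z z', lab z = lab z' → P z → P z')
    {ω : Finset (ℤ × ℤ)} (ht : X.tau P ω < X.len ω) (hl : lab (X.z ω (X.tau P ω)) ∈ X.E) :
    lab (X.z ω (X.tau P ω)) ∈ X.E \ X.rev P ω := by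
  rw [mem_sdiff]
  refine ⟨hl, fun h1 => ?_⟩
  obtain ⟨-, i, hi, h2⟩ := Env.mem_rev.1 h1
  exact Env.not_of_lt_tau hi (hP _ _ h2.symm (Env.of_tau ht))

/-- equal increments next to the random labels give equal differences in the free boxes -/
lemma D_of_inc {X Y : Env} {A : Finset (ℤ × ℤ)}
    (h : ∀ c, (lab c ∈ A ∨ plab c ∈ A) → Y.inc c = X.inc c) {a b c d : ℤ} (hb : Bx a b c d ⊆ A)
    {u v : ℤ × ℤ} (hu : inB a b c d u) (hv : inB a b c d v) : Y.D u v = X.D u v := by
  have h1 := Env.D_congr (X := X) (Y := Y) (ζ := 1) (a := a) (b := b) (c := c) (d := d)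
    (fun z hz => ?_) hu hv
  · rw [h1, one_mul]
  · rw [one_mul]
    refine h z ?_
    rcases hz.2 with h2 | h2
    · exact Or.inl (hb h2)
    · exact Or.inr (hb h2)

end Pool.Agent.Q1.M6c
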